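import Mathlib
import Pool.Agent.Work.MP_44129c_co.Defs
import Pool.Agent.Work.MP_44129c_co.E.Goodman
import Pool.Agent.Work.MP_44129c_co.FR.Main

/-!
# MP_44129c_co/W, Defs (FIXED, do not change): the system at a large colour class

Paper: helper43 (`/team-store/44129c_helper43_7.md`).  `w` is a vertex; `AA` = the vertices with colour `0` at `w`, `BB` = the others, `e = |BB|`, `n = m + s - 1 = |AA| + e`.
`X0 c w y` = the `x ∈ AA` with `c y x ≠ 0`.  `y ∈ BB` is bad if `|X0 c w y| ≥ m - e`.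
`RL`: integer lift of the double stars with centre edge `w y` with at most `μ` leaves at `y`, all in `X0` (`μ = m - e` at a bad root).
-/

set_option autoImplicit false

namespace ZS44129
namespace W

open Finset E

variable {V : Type} [Fintype V] [DecidableEq V] {m : ℕ}

/-- the vertices with colour `0` at `w`. -/
def AA (c : V → V → ZMod m) (w : V) : Finset V := (univ.erase w).filter (fun x => c w x = 0)

/-- the vertices with another colour at `w`. -/
def BB (c : V → V → ZMod m) (w : V) : Finset V := (univ.erase w).filter (fun x => c w x ≠ 0)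

/-- the vertices of `AA` with nonzero colour at `y`. -/
def X0 (c : V → V → ZMod m) (w y : V) : Finset V := (AA c w).filter (fun x => c y x ≠ 0)

/-- the situation: a large class at `w` (without the inequality `e3`). -/
structure WS0 (c : V → V → ZMod m) (s : ℕ) (w : V) : Prop where
  sym : ∀ x y, c x y = c y x
  zsf : ZSF m c
  card : Fintype.card V = m + s
  s4 : 4 ≤ s
  m1 : 3 * s ≤ m + 2
  m2 : m ≤ 3 * s + 2
  e1 : s ≤ (BB c w).card
  e2 : (BB c w).card + 1 ≤ 2 * s

/-- the situation: a large class at `w`. -/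
structure WS (c : V → V → ZMod m) (s : ℕ) (w : V) : Prop where
  sym : ∀ x y, c x y = c y x
  zsf : ZSF m c
  card : Fintype.card V = m + s
  s4 : 4 ≤ s
  m1 : 3 * s ≤ m + 2
  m2 : m ≤ 3 * s + 2
  e1 : s ≤ (BB c w).card
  e2 : (BB c w).card + 1 ≤ 2 * s
  e3 : ((BB c w).card : ℤ) * (m + s - 1 - (BB c w).card) < s * (m + s - 1)

theorem WS.toWS0 {c : V → V → ZMod m} {s : ℕ} {w : V} (h : WS c s w) : WS0 c s w :=
  ⟨h.sym, h.zsf, h.card, h.s4, h.m1, h.m2, h.e1, h.e2⟩

/-- bad roots. -/
def Bad (c : V → V → ZMod m) (w y : V) : Prop := y ∈ BB c w ∧ m ≤ (X0 c w y).card + (BB c w).card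

/-- the integer lift at the root `y` (scale 1). -/
structure RL (c : V → V → ZMod m) (s μ : ℕ) (w y : V) (z0 : ℤ) (n : V → ℤ) : Prop where
  yB : y ∈ BB c w
  mu : μ + (BB c w).card ≤ m
  muX : μ ≤ (X0 c w y).card
  hb : ∀ b ∈ (BB c w).erase y, (n b : ZMod m) = c w b
  hx : ∀ x ∈ X0 c w y, (n x : ZMod m) = c y x
  h0 : (z0 : ZMod m) = c w y
  gap : ∀ J ⊆ (BB c w).erase y, J.card + 1 ≤ s → ∀ P ⊆ X0 c w y, P.card ≤ μ →
    1 ≤ z0 + ∑ b ∈ (BB c w).erase y \ J, n b + ∑ x ∈ P, n x ∧
      z0 + ∑ b ∈ (BB c w).erase y \ J, n b + ∑ x ∈ P, n x + 1 ≤ m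

/-- the positive, resp. negative elements of `BB \ {y}`. -/
def Pp (c : V → V → ZMod m) (w y : V) (n : V → ℤ) : Finset V := ((BB c w).erase y).filter (fun b => 1 ≤ n b)
def Qn (c : V → V → ZMod m) (w y : V) (n : V → ℤ) : Finset V := ((BB c w).erase y).filter (fun b => n b ≤ -1)

/-- the excesses. -/
def EE (c : V → V → ZMod m) (w y : V) (n : V → ℤ) : ℤ := ∑ b ∈ Pp c w y n, (n b - 1)
def NN (c : V → V → ZMod m) (w y : V) (n : V → ℤ) : ℤ := ∑ b ∈ Qn c w y n, (- n b)

/-- the structure of the values (W-STRUCT). -/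
structure PosT (c : V → V → ZMod m) (s : ℕ) (w y : V) (n : V → ℤ) : Prop where
  ones : s ≤ (((BB c w).erase y).filter (fun b => n b = 1)).card
  exc : EE c w y n + NN c w y n + s + 1 ≤ (BB c w).card

/-- the values of the whole star of `w`. -/
def vv (c : V → V → ZMod m) (w y : V) (z0 : ℤ) (n : V → ℤ) : V → ℤ :=
  fun x => if x = y then z0 else if c w x = 0 then 0 else n x

end W
end ZS44129
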