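import Mathlib
import Pool.Agent.Work.MP_44129c_co.F.CubeMain
import Pool.Agent.Work.MP_44129c_co.PL.Comp

/-!
# MP_44129c_co/W, Lift (size M-L): the abstract lifting lemma (helper43, W-LIFT)

'Allowed' sets: `J ⊆ Y`, `|J| ≤ r`, `P ⊆ X`, `|P| ≤ μ`; `ζ` is never `∑_J δ + ∑_P δ`; the cube of one allowed set `J0 ∪ P0` of maximal size is aperiodic.
PROOF.  `cube_zmod` for `J0 ∪ P0` (`r + μ` slots, `2 (r + μ) ≥ m + 1`): unit `g`, integers `n`, `δ i = n i • g` on `J0 ∪ P0`, `∑ |n| ≤ m - 2`.  Let `ζ = z g`; the sums of `n` over the subsets of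
`J0 ∪ P0` are exactly the integers of `[-a, b]` (`a` = sum of the negative parts, `b` = sum of the positive parts, `a + b = ∑ |n| ≤ m - 2 < 2 (r + μ)`: `comp_signed`).  As `ζ` is not one of the sums, `z` has a
representative `zt` with `b < zt < m - a` (the representative of `z` in `[0, m - 1]`; it is not in `[0, b]` and not in `[m - a, m - 1]`).
For `i ∈ (Y ∪ X) \ (J0 ∪ P0)`: `ζ ≠ δ i` (allowed set `{i}`; `r ≥ 1`, `μ ≥ 1` by `hr`, `hμ`), so `δ i = n i • g` for a unique integer `n i` with `zt - m < n i < zt` (residues mod `m`; `n i ≠ 0`).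
CLAIM: for allowed `J`, `P` of maximal size (`|J| = r`, `|P| = μ`) all sums of `n` over subsets of `J ∪ P` are in `(zt - m, zt)`.  Induction over `k = |(J ∪ P) \ (J0 ∪ P0)|`.  `k = 0`: `J = J0`, `P = P0`, clear.  `k ≥ 1`:
say `i ∈ J \ J0` (the case `i ∈ P \ P0` is the same); there is `j ∈ J0 \ J`.  For `J1 = insert j (J.erase i)` and `P` the claim holds by induction, so the sums of `n` over subsets of `J1 ∪ P` range over a set with
maximum minus minimum `= ∑_{J1 ∪ P} |n| ≤ m - 2`, and `|n j| ≥ 1`, so `∑ |n|` over `(J.erase i) ∪ P` is `≤ m - 3 < 2 (r + μ - 1)`, all `n ≠ 0`: by `comp_signed` its subset sums form a full interval `I'` of integers,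
`0 ∈ I' ⊆ (zt - m, zt)`.  The sums with `i`: `n i + I'` is an interval of integers containing `n i ∈ (zt - m, zt)` which avoids all `≡ zt` mod `m` (hypothesis `hav`), so it lies in `(zt - m, zt)`.
General allowed `J`, `P` are contained in ones of maximal size (`r ≤ |Y|`, `μ ≤ |X|`).
-/

set_option autoImplicit false

namespace ZS44129
namespace W

open Finset

/-- sets with `r` elements in `Y` and `μ` in `X` -/
private def Adm {ι : Type} [DecidableEq ι] (Y X : Finset ι) (r μ : ℕ) (K : Finset ι) : Prop :=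
  K ⊆ Y ∪ X ∧ (K ∩ Y).card = r ∧ (K ∩ X).card = μ

private theorem adm_card {ι : Type} [DecidableEq ι] {Y X : Finset ι} (hYX : Disjoint Y X)
    {r μ : ℕ} {K : Finset ι} (hK : Adm Y X r μ K) : K.card = r + μ := by
  have h1 : K = (K ∩ Y) ∪ (K ∩ X) := by
    rw [← Finset.inter_union_distrib_left]
    exact (Finset.inter_eq_left.2 hK.1).symm
  have hd : Disjoint (K ∩ Y) (K ∩ X) :=
    Finset.disjoint_of_subset_left Finset.inter_subset_right
      (Finset.disjoint_of_subset_right Finset.inter_subset_right hYX)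
  rw [h1, Finset.card_union_of_disjoint hd, hK.2.1, hK.2.2]

private theorem exch {ι : Type} [DecidableEq ι] {Z K I : Finset ι}
    (hc : (K ∩ Z).card = (I ∩ Z).card) {i : ι} (hiK : i ∈ K) (hiZ : i ∈ Z) (hi : i ∉ I) :
    ∃ j ∈ I ∩ Z, j ∉ K := by
  by_contra hcon
  push Not at hcon
  have h1 : I ∩ Z ⊆ K ∩ Z := fun j hj => Finset.mem_inter.2 ⟨hcon j hj, (Finset.mem_inter.1 hj).2⟩
  have h2 : I ∩ Z = K ∩ Z := Finset.eq_of_subset_of_card_le h1 hc.le
  have h3 : i ∈ K ∩ Z := Finset.mem_inter.2 ⟨hiK, hiZ⟩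
  rw [← h2] at h3
  exact hi (Finset.mem_inter.1 h3).1

private theorem adm_exch {ι : Type} [DecidableEq ι] {Y X : Finset ι} {r μ : ℕ} {K I : Finset ι}
    (hK : Adm Y X r μ K) (hI : Adm Y X r μ I) {i : ι} (hiK : i ∈ K) (hi : i ∉ I) :
    ∃ j, j ∈ I ∧ j ∉ K ∧ ((i ∈ Y ∧ j ∈ Y) ∨ (i ∈ X ∧ j ∈ X)) := by
  rcases Finset.mem_union.1 (hK.1 hiK) with h | h
  · obtain ⟨j, hj, hjK⟩ := exch (hK.2.1.trans hI.2.1.symm) hiK h hi
    exact ⟨j, (Finset.mem_inter.1 hj).1, hjK, Or.inl ⟨h, (Finset.mem_inter.1 hj).2⟩⟩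
  · obtain ⟨j, hj, hjK⟩ := exch (hK.2.2.trans hI.2.2.symm) hiK h hi
    exact ⟨j, (Finset.mem_inter.1 hj).1, hjK, Or.inr ⟨h, (Finset.mem_inter.1 hj).2⟩⟩

private theorem swap_card {ι : Type} [DecidableEq ι] {Z K : Finset ι} {i j : ι} (hi : i ∈ K)
    (hj : j ∉ K) (hiZ : i ∈ Z) (hjZ : j ∈ Z) :
    (insert j (K.erase i) ∩ Z).card = (K ∩ Z).card := by
  have h1 : insert j (K.erase i) ∩ Z = insert j ((K ∩ Z).erase i) := by
    ext x
    simp only [Finset.mem_inter, Finset.mem_insert, Finset.mem_erase]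
    constructor
    · rintro ⟨h | h, hZ⟩
      · exact Or.inl h
      · exact Or.inr ⟨h.1, h.2, hZ⟩
    · rintro (h | h)
      · exact ⟨Or.inl h, h ▸ hjZ⟩
      · exact ⟨Or.inr ⟨h.1, h.2.1⟩, h.2.2⟩
  have h2 : i ∈ K ∩ Z := Finset.mem_inter.2 ⟨hi, hiZ⟩
  have h3 : j ∉ (K ∩ Z).erase i := fun h =>
    hj (Finset.mem_inter.1 (Finset.mem_of_mem_erase h)).1
  have h4 : 1 ≤ (K ∩ Z).card := Finset.card_pos.2 ⟨i, h2⟩
  rw [h1, Finset.card_insert_of_notMem h3, Finset.card_erase_of_mem h2]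
  omega

private theorem swap_same {ι : Type} [DecidableEq ι] {Z K : Finset ι} {i j : ι}
    (hiZ : i ∉ Z) (hjZ : j ∉ Z) : insert j (K.erase i) ∩ Z = K ∩ Z := by
  ext x
  simp only [Finset.mem_inter, Finset.mem_insert, Finset.mem_erase]
  constructor
  · rintro ⟨h | h, hZ⟩
    · exact absurd (h ▸ hZ) hjZ
    · exact ⟨h.2, hZ⟩
  · rintro ⟨h, hZ⟩
    exact ⟨Or.inr ⟨fun he => hiZ (he ▸ hZ), h⟩, hZ⟩

private theorem adm_swap {ι : Type} [DecidableEq ι] {Y X : Finset ι} (hYX : Disjoint Y X)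
    {r μ : ℕ} {K : Finset ι} (hK : Adm Y X r μ K) {i j : ι} (hi : i ∈ K) (hj : j ∉ K)
    (h : (i ∈ Y ∧ j ∈ Y) ∨ (i ∈ X ∧ j ∈ X)) : Adm Y X r μ (insert j (K.erase i)) := by
  have hsub : insert j (K.erase i) ⊆ Y ∪ X := by
    apply Finset.insert_subset
    · rcases h with h | h
      · exact Finset.mem_union_left _ h.2
      · exact Finset.mem_union_right _ h.2
    · exact (Finset.erase_subset _ _).trans hK.1
  rcases h with h | h
  · refine ⟨hsub, ?_, ?_⟩
    · rw [swap_card hi hj h.1 h.2, hK.2.1]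
    · rw [swap_same (Finset.disjoint_left.1 hYX h.1) (Finset.disjoint_left.1 hYX h.2), hK.2.2]
  · refine ⟨hsub, ?_, ?_⟩
    · rw [swap_same (Finset.disjoint_right.1 hYX h.1) (Finset.disjoint_right.1 hYX h.2), hK.2.1]
    · rw [swap_card hi hj h.1 h.2, hK.2.2]

theorem wlift {ι : Type} [DecidableEq ι] {m : ℕ} [NeZero m] (Y X : Finset ι) (hYX : Disjoint Y X)
    (δ : ι → ZMod m) (hδ : ∀ i ∈ Y ∪ X, δ i ≠ 0) (ζ : ZMod m) (r μ : ℕ) (hr : 1 ≤ r) (hμ : 1 ≤ μ)
    (hav : ∀ J ⊆ Y, J.card ≤ r → ∀ P ⊆ X, P.card ≤ μ → ∑ i ∈ J, δ i + ∑ i ∈ P, δ i ≠ ζ)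
    (h2 : m + 1 ≤ 2 * (r + μ)) (J0 P0 : Finset ι) (hJ0 : J0 ⊆ Y) (hJ0c : J0.card = r)
    (hP0 : P0 ⊆ X) (hP0c : P0.card = μ) (hap : Aper (cube δ (J0 ∪ P0))) :
    ∃ (g : (ZMod m)ˣ) (n : ι → ℤ) (z : ℤ), (∀ i ∈ Y ∪ X, δ i = n i • (g : ZMod m)) ∧
      ζ = z • (g : ZMod m) ∧
      ∀ J ⊆ Y, J.card ≤ r → ∀ P ⊆ X, P.card ≤ μ →
        z - m + 1 ≤ ∑ i ∈ J, n i + ∑ i ∈ P, n i ∧ ∑ i ∈ J, n i + ∑ i ∈ P, n i + 1 ≤ z := by
  classical
  have hI0c : (J0 ∪ P0).card = r + μ := by
    rw [Finset.card_union_of_disjoint (Finset.disjoint_of_subset_left hJ0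
      (Finset.disjoint_of_subset_right hP0 hYX)), hJ0c, hP0c]
  have hI0 : J0 ∪ P0 ⊆ Y ∪ X := Finset.union_subset_union hJ0 hP0
  obtain ⟨g, n0, hn0, hcard, hcm⟩ := cube_zmod δ (J0 ∪ P0) (fun i hi => hδ i (hI0 hi)) hap
    (by rw [hI0c]; exact h2)
  -- admissible sets avoid ζ
  have hadm0 : Adm Y X r μ (J0 ∪ P0) := by
    refine ⟨hI0, ?_, ?_⟩
    · have : (J0 ∪ P0) ∩ Y = J0 := by
        ext x
        simp only [Finset.mem_inter, Finset.mem_union]
        constructor
        · rintro ⟨h | h, hY⟩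
          · exact h
          · exact absurd (hP0 h) (Finset.disjoint_left.1 hYX hY)
        · exact fun h => ⟨Or.inl h, hJ0 h⟩
      rw [this, hJ0c]
    · have : (J0 ∪ P0) ∩ X = P0 := by
        ext x
        simp only [Finset.mem_inter, Finset.mem_union]
        constructor
        · rintro ⟨h | h, hX⟩
          · exact absurd hX (Finset.disjoint_left.1 hYX (hJ0 h))
          · exact h
        · exact fun h => ⟨Or.inr h, hP0 h⟩
      rw [this, hP0c]
  have hav' : ∀ K, Adm Y X r μ K → ∀ U ⊆ K, ∑ i ∈ U, δ i ≠ ζ := by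
    intro K hK U hU
    have h1 : U = (U ∩ Y) ∪ (U ∩ X) := by
      ext x
      simp only [Finset.mem_union, Finset.mem_inter]
      constructor
      · intro hx
        rcases Finset.mem_union.1 (hK.1 (hU hx)) with h | h
        · exact Or.inl ⟨hx, h⟩
        · exact Or.inr ⟨hx, h⟩
      · rintro (h | h) <;> exact h.1
    have hd : Disjoint (U ∩ Y) (U ∩ X) :=
      Finset.disjoint_of_subset_left Finset.inter_subset_right
        (Finset.disjoint_of_subset_right Finset.inter_subset_right hYX)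
    rw [h1, Finset.sum_union hd]
    apply hav _ Finset.inter_subset_right _ _ Finset.inter_subset_right
    · rw [← hK.2.2]
      exact Finset.card_le_card (Finset.inter_subset_inter_right hU)
    · rw [← hK.2.1]
      exact Finset.card_le_card (Finset.inter_subset_inter_right hU)
  have hmpos : (0 : ℤ) < m := by
    have := Nat.pos_of_ne_zero (NeZero.ne m)
    exact_mod_cast this
  have hgi : ∀ k : ℤ, k • (g : ZMod m) = (k : ZMod m) * g := fun k => zsmul_eq_mul _ _
  have hmg : (m : ℤ) • (g : ZMod m) = 0 := by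
    rw [hgi]
    simp
  -- the representative of ζ
  obtain ⟨z, hz0, hzm, hzζ⟩ : ∃ z : ℤ, 0 ≤ z ∧ z < m ∧ ζ = z • (g : ZMod m) := by
    refine ⟨((ζ * ((g⁻¹ : (ZMod m)ˣ) : ZMod m)).val : ℤ), Int.natCast_nonneg _, ?_, ?_⟩
    · have := ZMod.val_lt (ζ * ((g⁻¹ : (ZMod m)ˣ) : ZMod m))
      exact_mod_cast this
    · rw [hgi]
      rw [Int.cast_natCast, ZMod.natCast_zmod_val, mul_assoc, Units.inv_mul, mul_one]
  have hn0ne : ∀ i ∈ J0 ∪ P0, n0 i ≠ 0 := by
    intro i hi h0
    apply hδ i (hI0 hi)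
    rw [hn0 i hi, h0, zero_smul]
  have hsum0 : ∑ i ∈ J0 ∪ P0, |n0 i| + 2 ≤ m := by
    have h3 : ((cube δ (J0 ∪ P0)).card : ℤ) + 1 ≤ m := by exact_mod_cast hcm
    linarith
  have h2' : (m : ℤ) + 1 ≤ 2 * (r + μ) := by exact_mod_cast h2
  have hsumδ : ∀ (nn : ι → ℤ) (U : Finset ι), (∀ i ∈ U, δ i = nn i • (g : ZMod m)) →
      ∑ i ∈ U, δ i = (∑ i ∈ U, nn i) • (g : ZMod m) := by
    intro nn U hU
    rw [Finset.sum_smul]
    exact Finset.sum_congr rfl hU
  have hIcard : ((J0 ∪ P0).card : ℤ) = r + μ := by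
    rw [hI0c]
    push_cast
    ring
  have hno : ∀ k : ℤ, -∑ x ∈ J0 ∪ P0, max (-n0 x) 0 ≤ k → k ≤ ∑ x ∈ J0 ∪ P0, max (n0 x) 0 →
      k • (g : ZMod m) ≠ ζ := by
    intro k hk1 hk2
    obtain ⟨U, hU, hUs⟩ := comp_signed (J0 ∪ P0) n0 hn0ne (by rw [hIcard]; linarith) k hk1 hk2
    rw [← hUs, ← hsumδ n0 U (fun i hi => hn0 i (hU hi))]
    exact hav' _ hadm0 U hU
  have ha0 : 0 ≤ ∑ x ∈ J0 ∪ P0, max (-n0 x) 0 := Finset.sum_nonneg (fun x _ => le_max_right _ _)
  have hb0 : 0 ≤ ∑ x ∈ J0 ∪ P0, max (n0 x) 0 := Finset.sum_nonneg (fun x _ => le_max_right _ _)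
  have hzb : ∑ x ∈ J0 ∪ P0, max (n0 x) 0 + 1 ≤ z := by
    by_contra hcon
    exact hno z (by linarith) (by omega) hzζ.symm
  have hza : ∑ x ∈ J0 ∪ P0, max (-n0 x) 0 + z + 1 ≤ m := by
    by_contra hcon
    apply hno (z - m) (by omega) (by omega)
    rw [sub_smul, hmg, sub_zero, hzζ]
  -- the lift
  let n : ι → ℤ := fun i => z - m +
    ((δ i * ((g⁻¹ : (ZMod m)ˣ) : ZMod m) - ((z - m : ℤ) : ZMod m)).val : ℤ)
  have hnc : ∀ i, δ i = n i • (g : ZMod m) := by
    intro i
    rw [hgi]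
    show δ i = ((z - m + ((δ i * ((g⁻¹ : (ZMod m)ˣ) : ZMod m) -
      ((z - m : ℤ) : ZMod m)).val : ℤ) : ℤ) : ZMod m) * g
    rw [Int.cast_add, Int.cast_natCast, ZMod.natCast_zmod_val, add_sub_cancel, mul_assoc,
      Units.inv_mul, mul_one]
  have hn1 : ∀ i, z - m ≤ n i := by
    intro i
    have : (0 : ℤ) ≤ ((δ i * ((g⁻¹ : (ZMod m)ˣ) : ZMod m) - ((z - m : ℤ) : ZMod m)).val : ℤ) :=
      Int.natCast_nonneg _
    show z - m ≤ z - m + _
    linarith
  have hn2 : ∀ i, n i + 1 ≤ z := by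
    intro i
    have h1 := ZMod.val_lt (δ i * ((g⁻¹ : (ZMod m)ˣ) : ZMod m) - ((z - m : ℤ) : ZMod m))
    have h2 : ((δ i * ((g⁻¹ : (ZMod m)ˣ) : ZMod m) - ((z - m : ℤ) : ZMod m)).val : ℤ) + 1 ≤ m := by
      exact_mod_cast h1
    show z - m + _ + 1 ≤ z
    linarith
  have hinj : ∀ k l : ℤ, k • (g : ZMod m) = l • (g : ZMod m) → (m : ℤ) ∣ l - k := by
    intro k l hkl
    rw [hgi, hgi] at hkl
    have h1 : (k : ZMod m) = l := by
      have h2 := congrArg (fun t => t * ((g⁻¹ : (ZMod m)ˣ) : ZMod m)) hkl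
      simpa [mul_assoc] using h2
    exact (ZMod.intCast_eq_intCast_iff_dvd_sub _ _ _).1 h1
  have hn0n : ∀ i ∈ J0 ∪ P0, n i = n0 i := by
    intro i hi
    have h3 : n0 i ≤ ∑ x ∈ J0 ∪ P0, max (n0 x) 0 :=
      (le_max_left _ _).trans (Finset.single_le_sum (f := fun x => max (n0 x) 0)
        (fun x _ => le_max_right _ _) hi)
    have h4 : - n0 i ≤ ∑ x ∈ J0 ∪ P0, max (-n0 x) 0 :=
      (le_max_left _ _).trans (Finset.single_le_sum (f := fun x => max (-n0 x) 0)
        (fun x _ => le_max_right _ _) hi)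
    obtain ⟨k, hk⟩ := hinj (n i) (n0 i) (by rw [← hnc i, ← hn0 i hi])
    have h5 := hn1 i
    have h6 := hn2 i
    have h7 : k = 0 := by
      by_contra hne
      rcases lt_or_gt_of_ne hne with h8 | h8
      · have h9 : (m : ℤ) * k ≤ m * (-1) := mul_le_mul_of_nonneg_left (by omega) hmpos.le
        omega
      · have h9 : (m : ℤ) * 1 ≤ m * k := mul_le_mul_of_nonneg_left (by omega) hmpos.le
        omega
    rw [h7, mul_zero] at hk
    omega
  have hnne : ∀ i ∈ Y ∪ X, n i ≠ 0 := by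
    intro i hi h0
    apply hδ i hi
    rw [hnc i, h0, zero_smul]
  have hn3 : ∀ i ∈ Y ∪ X, z - m + 1 ≤ n i := by
    intro i hi
    rcases eq_or_lt_of_le (hn1 i) with h | h
    · exfalso
      have h3 : δ i = ζ := by
        rw [hnc i, ← h, sub_smul, hmg, sub_zero, hzζ]
      rcases Finset.mem_union.1 hi with hiY | hiX
      · apply hav {i} (Finset.singleton_subset_iff.2 hiY) (by simpa using hr) ∅
          (Finset.empty_subset _) (by simp)
        rw [Finset.sum_singleton, Finset.sum_empty, add_zero, h3]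
      · apply hav ∅ (Finset.empty_subset _) (by simp) {i} (Finset.singleton_subset_iff.2 hiX)
          (by simpa using hμ)
        rw [Finset.sum_singleton, Finset.sum_empty, zero_add, h3]
    · omega
  have habs : ∀ T : Finset ι, ∑ x ∈ T, |n x| = ∑ x ∈ T, max (n x) 0 + ∑ x ∈ T, max (-n x) 0 := by
    intro T
    rw [← Finset.sum_add_distrib]
    apply Finset.sum_congr rfl
    intro x _
    rcases le_total 0 (n x) with h0 | h0
    · rw [abs_of_nonneg h0, max_eq_left h0, max_eq_right (by omega)]; ring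
    · rw [abs_of_nonpos h0, max_eq_right h0, max_eq_left (by omega)]; ring
  have key : ∀ k : ℕ, ∀ K, Adm Y X r μ K → (K \ (J0 ∪ P0)).card = k →
      ∑ x ∈ K, max (n x) 0 + 1 ≤ z ∧ ∑ x ∈ K, max (-n x) 0 + z + 1 ≤ m := by
    intro k
    induction k with
    | zero =>
      intro K hK hk
      have hsub : K ⊆ J0 ∪ P0 := by
        rw [Finset.card_eq_zero, Finset.sdiff_eq_empty_iff_subset] at hk
        exact hk
      have hKc := adm_card hYX hK
      have hKe : K = J0 ∪ P0 := Finset.eq_of_subset_of_card_le hsub (by rw [hI0c, hKc])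
      rw [hKe]
      constructor
      · rw [Finset.sum_congr rfl (fun x hx => by rw [hn0n x hx])]
        exact hzb
      · rw [Finset.sum_congr rfl (fun x hx => by rw [hn0n x hx])]
        exact hza
    | succ k ih =>
      intro K hK hk
      have hne : (K \ (J0 ∪ P0)).Nonempty := by
        rw [← Finset.card_pos]
        omega
      obtain ⟨i, hi⟩ := hne
      obtain ⟨hiK, hi0⟩ := Finset.mem_sdiff.1 hi
      obtain ⟨j, hj0, hjK, hij⟩ := adm_exch hK hadm0 hiK hi0
      have hK1 := adm_swap hYX hK hiK hjK hij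
      have hk1 : (insert j (K.erase i) \ (J0 ∪ P0)).card = k := by
        rw [Finset.insert_sdiff_of_mem _ hj0, Finset.erase_sdiff_comm, Finset.card_erase_of_mem hi]
        omega
      obtain ⟨e1, e2⟩ := ih _ hK1 hk1
      have hjE : j ∉ K.erase i := fun h => hjK (Finset.mem_of_mem_erase h)
      rw [Finset.sum_insert hjE] at e1 e2
      have hjYX : j ∈ Y ∪ X := hI0 hj0
      have hjn := hnne j hjYX
      have hmj : 1 ≤ max (n j) 0 + max (-n j) 0 := by
        rcases lt_or_gt_of_ne hjn with h | h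
        · have := le_max_left (-n j) 0
          have := le_max_right (n j) 0
          omega
        · have := le_max_left (n j) 0
          have := le_max_right (-n j) 0
          omega
      have hmj1 : 0 ≤ max (n j) 0 := le_max_right _ _
      have hmj2 : 0 ≤ max (-n j) 0 := le_max_right _ _
      have hKec : ((K.erase i).card : ℤ) = r + μ - 1 := by
        rw [Finset.card_erase_of_mem hiK, adm_card hYX hK]
        omega
      have hsmall : ∑ x ∈ K.erase i, |n x| < 2 * ((K.erase i).card : ℤ) := by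
        rw [habs, hKec]
        linarith
      have hsplit1 : ∑ x ∈ K, max (n x) 0 = max (n i) 0 + ∑ x ∈ K.erase i, max (n x) 0 :=
        (Finset.add_sum_erase K (fun x => max (n x) 0) hiK).symm
      have hsplit2 : ∑ x ∈ K, max (-n x) 0 = max (-n i) 0 + ∑ x ∈ K.erase i, max (-n x) 0 :=
        (Finset.add_sum_erase K (fun x => max (-n x) 0) hiK).symm
      have hiYX : i ∈ Y ∪ X := hK.1 hiK
      have hA0 : 0 ≤ ∑ x ∈ K.erase i, max (-n x) 0 := Finset.sum_nonneg (fun x _ => le_max_right _ _)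
      have hB0 : 0 ≤ ∑ x ∈ K.erase i, max (n x) 0 := Finset.sum_nonneg (fun x _ => le_max_right _ _)
      have hav2 : ∀ t : ℤ, -∑ x ∈ K.erase i, max (-n x) 0 ≤ t → t ≤ ∑ x ∈ K.erase i, max (n x) 0 →
          (n i + t) • (g : ZMod m) ≠ ζ := by
        intro t ht1 ht2
        obtain ⟨U, hU, hUs⟩ := comp_signed (K.erase i) n
          (fun x hx => hnne x (hK.1 (Finset.mem_of_mem_erase hx))) hsmall t ht1 ht2
        have hiU : i ∉ U := fun h => (Finset.notMem_erase i K) (hU h)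
        have h3 := hav' K hK (insert i U) (Finset.insert_subset hiK
          (hU.trans (Finset.erase_subset _ _)))
        rw [hsumδ n (insert i U) (fun x _ => hnc x), Finset.sum_insert hiU, hUs] at h3
        exact h3
      rcases lt_or_gt_of_ne (hnne i hiYX) with hneg | hpos
      · constructor
        · rw [hsplit1, max_eq_right hneg.le]
          linarith
        · rw [hsplit2, max_eq_left (by omega)]
          by_contra hcon
          apply hav2 (z - m - n i) (by omega) (by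
            have := hn3 i hiYX
            omega)
          rw [add_sub_cancel, sub_smul, hmg, sub_zero, hzζ]
      · constructor
        · rw [hsplit1, max_eq_left hpos.le]
          by_contra hcon
          apply hav2 (z - n i) (by
            have := hn2 i
            omega) (by omega)
          rw [add_sub_cancel, hzζ]
        · rw [hsplit2, max_eq_right (by omega)]
          linarith
  refine ⟨g, n, z, fun i _ => hnc i, hzζ, ?_⟩
  intro J hJ hJc P hP hPc
  obtain ⟨J', hJJ', hJ'Y, hJ'c⟩ := Finset.exists_subsuperset_card_eq hJ hJc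
    (by rw [← hJ0c]; exact Finset.card_le_card hJ0)
  obtain ⟨P', hPP', hP'X, hP'c⟩ := Finset.exists_subsuperset_card_eq hP hPc
    (by rw [← hP0c]; exact Finset.card_le_card hP0)
  have hK : Adm Y X r μ (J' ∪ P') := by
    refine ⟨Finset.union_subset_union hJ'Y hP'X, ?_, ?_⟩
    · have : (J' ∪ P') ∩ Y = J' := by
        ext x
        simp only [Finset.mem_inter, Finset.mem_union]
        constructor
        · rintro ⟨h | h, hY⟩
          · exact h
          · exact absurd (hP'X h) (Finset.disjoint_left.1 hYX hY)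
        · exact fun h => ⟨Or.inl h, hJ'Y h⟩
      rw [this, hJ'c]
    · have : (J' ∪ P') ∩ X = P' := by
        ext x
        simp only [Finset.mem_inter, Finset.mem_union]
        constructor
        · rintro ⟨h | h, hX⟩
          · exact absurd hX (Finset.disjoint_left.1 hYX (hJ'Y h))
          · exact h
        · exact fun h => ⟨Or.inr h, hP'X h⟩
      rw [this, hP'c]
  obtain ⟨e1, e2⟩ := key _ _ hK rfl
  have hdJP : Disjoint J P := Finset.disjoint_of_subset_left hJ
    (Finset.disjoint_of_subset_right hP hYX)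
  rw [← Finset.sum_union hdJP]
  have hsub : J ∪ P ⊆ J' ∪ P' := Finset.union_subset_union hJJ' hPP'
  constructor
  · have h3 : -∑ x ∈ J ∪ P, n x ≤ ∑ x ∈ J' ∪ P', max (-n x) 0 := by
      rw [← Finset.sum_neg_distrib]
      calc ∑ x ∈ J ∪ P, -n x ≤ ∑ x ∈ J ∪ P, max (-n x) 0 :=
            Finset.sum_le_sum (fun x _ => le_max_left _ _)
        _ ≤ _ := Finset.sum_le_sum_of_subset_of_nonneg hsub (fun x _ _ => le_max_right _ _)
    linarith
  · have h3 : ∑ x ∈ J ∪ P, n x ≤ ∑ x ∈ J' ∪ P', max (n x) 0 := by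
      calc ∑ x ∈ J ∪ P, n x ≤ ∑ x ∈ J ∪ P, max (n x) 0 :=
            Finset.sum_le_sum (fun x _ => le_max_left _ _)
        _ ≤ _ := Finset.sum_le_sum_of_subset_of_nonneg hsub (fun x _ _ => le_max_right _ _)
    linarith

end W
end ZS44129
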