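import Pool.Agent.Work.MP_44129c_co.W.Av
import Pool.Agent.Work.MP_44129c_co.W.Lift
import Pool.Agent.Work.MP_44129c_co.PL.Good

/-!
# MP_44129c_co/W, Root (size M): the lift at a bad root

`dlt c w y`: `c w b` for `b ∈ BB`, `- c y x` for `x ∈ AA`.
PROOFS.  `ws_scale`, `ws0_scale`: multiply the colouring by a unit `g`: `ZSF` by `zsf_affine` (`β = 0`), `AA`, `BB` do not change.
`root_lift`: `wlift` with `Y = BB.erase y`, `X = X0 c w y`, `δ = dlt c w y`, `ζ = c w y + ∑_Y c w b`, `r = s - 1`, `μ` (`hav`: `∑_J c w b - ∑_P c y x = ζ` contradicts `av`).  With the unit `g`, `n`, `z` of `wlift` take the scale `g⁻¹`: for the colouring `g⁻¹ * c`: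
values `n b` on `Y`, `- n x` on `X0`, `z0 = z - ∑_Y n b`; `gap`: `z0 + ∑_{Y \ J} n + ∑_P (- n) = z - (∑_J n + ∑_P n) ∈ [1, m - 1]`.
-/

set_option autoImplicit false

namespace ZS44129
namespace W

open Finset E

variable {V : Type} [Fintype V] [DecidableEq V] {m : ℕ} {c : V → V → ZMod m} {s : ℕ} {w : V}

/-- the differences of the cube at the root `y`. -/
def dlt (c : V → V → ZMod m) (w y : V) : V → ZMod m := fun x => if c w x = 0 then - c y x else c w x

theorem ws0_scale (h : WS0 c s w) (g : (ZMod m)ˣ) : WS0 (fun x y => (g : ZMod m) * c x y) s w ∧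
    AA (fun x y => (g : ZMod m) * c x y) w = AA c w ∧ BB (fun x y => (g : ZMod m) * c x y) w = BB c w ∧
    ∀ y, X0 (fun x y => (g : ZMod m) * c x y) w y = X0 c w y := by
  have hA : AA (fun x y => (g : ZMod m) * c x y) w = AA c w := by
    unfold AA
    apply Finset.filter_congr
    intro x _
    exact Units.mul_right_eq_zero g
  have hB : BB (fun x y => (g : ZMod m) * c x y) w = BB c w := by
    unfold BB
    apply Finset.filter_congr
    intro x _
    exact not_congr (Units.mul_right_eq_zero g)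
  have hX : ∀ y, X0 (fun x y => (g : ZMod m) * c x y) w y = X0 c w y := by
    intro y
    unfold X0
    rw [hA]
    apply Finset.filter_congr
    intro x _
    exact not_congr (Units.mul_right_eq_zero g)
  refine ⟨?_, hA, hB, hX⟩
  refine ⟨fun x y => by rw [h.sym x y], ?_, h.card, h.s4, h.m1, h.m2, ?_, ?_⟩
  · have h1 := zsf_affine c h.zsf g 0
    simpa only [sub_zero] using h1
  · rw [hB]; exact h.e1
  · rw [hB]; exact h.e2

theorem ws_scale (h : WS c s w) (g : (ZMod m)ˣ) : WS (fun x y => (g : ZMod m) * c x y) s w ∧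
    AA (fun x y => (g : ZMod m) * c x y) w = AA c w ∧ BB (fun x y => (g : ZMod m) * c x y) w = BB c w ∧
    ∀ y, X0 (fun x y => (g : ZMod m) * c x y) w y = X0 c w y := by
  obtain ⟨h1, hA, hB, hX⟩ := ws0_scale h.toWS0 g
  refine ⟨⟨h1.sym, h1.zsf, h1.card, h1.s4, h1.m1, h1.m2, h1.e1, h1.e2, ?_⟩, hA, hB, hX⟩
  rw [hB]
  exact h.e3

theorem root_lift [NeZero m] (h : WS0 c s w) {y : V} (hy : y ∈ BB c w) (J0 P0 : Finset V)
    (hJ0 : J0 ⊆ (BB c w).erase y) (hJ0c : J0.card + 1 = s) (hP0 : P0 ⊆ X0 c w y)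
    (hμ : 1 ≤ P0.card) (hP0c : P0.card + (BB c w).card ≤ m) (h2 : m + 3 ≤ 2 * (P0.card + s))
    (hap : Aper (cube (dlt c w y) (J0 ∪ P0))) :
    ∃ (g : (ZMod m)ˣ) (z0 : ℤ) (n : V → ℤ),
      RL (fun x y => (g : ZMod m) * c x y) s P0.card w y z0 n := by
  have hs4 := h.s4
  have hYB : ∀ b ∈ (BB c w).erase y, c w b ≠ 0 := by
    intro b hb
    exact (Finset.mem_filter.mp (Finset.mem_of_mem_erase hb)).2
  have hXA : X0 c w y ⊆ AA c w := Finset.filter_subset _ _
  have hXw : ∀ x ∈ X0 c w y, c w x = 0 := by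
    intro x hx
    exact (Finset.mem_filter.mp (hXA hx)).2
  have hXy : ∀ x ∈ X0 c w y, c y x ≠ 0 := by
    intro x hx
    exact (Finset.mem_filter.mp hx).2
  have hdY : ∀ b ∈ (BB c w).erase y, dlt c w y b = c w b := by
    intro b hb
    unfold dlt
    rw [if_neg (hYB b hb)]
  have hdX : ∀ x ∈ X0 c w y, dlt c w y x = - c y x := by
    intro x hx
    unfold dlt
    rw [if_pos (hXw x hx)]
  have hdis : Disjoint ((BB c w).erase y) (X0 c w y) := by
    rw [Finset.disjoint_left]
    intro x hx hx2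
    exact hYB x hx (hXw x hx2)
  obtain ⟨g, n, z, hn, hz, hgap⟩ := wlift ((BB c w).erase y) (X0 c w y) hdis (dlt c w y)
    (by
      intro i hi
      rcases Finset.mem_union.mp hi with h1 | h1
      · rw [hdY i h1]; exact hYB i h1
      · rw [hdX i h1]; exact neg_ne_zero.mpr (hXy i h1))
    (c w y + ∑ b ∈ (BB c w).erase y, c w b) (s - 1) P0.card (by omega) hμ
    (by
      intro J hJ hJc P hP hPc heq
      apply av h hy J hJ (by omega) P (hP.trans hXA) (by omega)
      have h1 : ∑ i ∈ J, dlt c w y i = ∑ i ∈ J, c w i :=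
        Finset.sum_congr rfl (fun i hi => hdY i (hJ hi))
      have h2 : ∑ i ∈ P, dlt c w y i = - ∑ i ∈ P, c y i := by
        rw [← Finset.sum_neg_distrib]
        exact Finset.sum_congr rfl (fun i hi => hdX i (hP hi))
      have h3 := Finset.sum_sdiff (f := fun b => c w b) hJ
      rw [h1, h2, ← h3] at heq
      have h4 : c w y + ∑ b ∈ (BB c w).erase y \ J, c w b + ∑ x ∈ P, c y x =
          (c w y + (∑ b ∈ (BB c w).erase y \ J, c w b + ∑ b ∈ J, c w b)) -
            (∑ i ∈ J, c w i + - ∑ i ∈ P, c y i) := by ring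
      rw [h4, heq, sub_self])
    (by omega) J0 P0 hJ0 (by omega) hP0 rfl hap
  obtain ⟨_, hA, hB, hX⟩ := ws0_scale h g⁻¹
  have hinv : ∀ a : ZMod m, ((g⁻¹ : (ZMod m)ˣ) : ZMod m) * (a * (g : ZMod m)) = a := by
    intro a
    rw [mul_comm, mul_assoc, ← Units.val_mul, mul_inv_cancel, Units.val_one, mul_one]
  have hnY : ∀ b ∈ (BB c w).erase y, c w b = (n b : ZMod m) * (g : ZMod m) := by
    intro b hb
    rw [← hdY b hb, hn b (Finset.mem_union_left _ hb), zsmul_eq_mul]
  have hnX : ∀ x ∈ X0 c w y, c y x = (-(n x : ZMod m)) * (g : ZMod m) := by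
    intro x hx
    have h1 := hn x (Finset.mem_union_right _ hx)
    rw [hdX x hx, zsmul_eq_mul] at h1
    rw [neg_mul, ← h1, neg_neg]
  refine ⟨g⁻¹, z - ∑ b ∈ (BB c w).erase y, n b, fun x => if c w x = 0 then - n x else n x, ?_⟩
  refine ⟨?_, ?_, ?_, ?_, ?_, ?_, ?_⟩
  · rw [hB]; exact hy
  · rw [hB]; exact hP0c
  · rw [hX]; exact Finset.card_le_card hP0
  · rw [hB]
    intro b hb
    rw [if_neg (hYB b hb), hnY b hb, hinv]
  · rw [hX]
    intro x hx
    rw [if_pos (hXw x hx), hnX x hx, hinv]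
    push_cast
    ring
  · have h1 : c w y = ((z - ∑ b ∈ (BB c w).erase y, n b : ℤ) : ZMod m) * (g : ZMod m) := by
      have h2 : ∑ b ∈ (BB c w).erase y, c w b =
          (∑ b ∈ (BB c w).erase y, (n b : ZMod m)) * (g : ZMod m) := by
        rw [Finset.sum_mul]
        exact Finset.sum_congr rfl hnY
      rw [h2, zsmul_eq_mul] at hz
      push_cast
      rw [sub_mul, ← hz]
      ring
    rw [h1, hinv]
  · rw [hB, hX]
    intro J hJ hJc P hP hPc
    obtain ⟨h1, h2⟩ := hgap J hJ (by omega) P hP hPc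
    have h3 : ∑ b ∈ (BB c w).erase y \ J, (if c w b = 0 then - n b else n b) =
        ∑ b ∈ (BB c w).erase y \ J, n b := by
      apply Finset.sum_congr rfl
      intro b hb
      rw [if_neg (hYB b (Finset.mem_sdiff.mp hb).1)]
    have h4 : ∑ x ∈ P, (if c w x = 0 then - n x else n x) = - ∑ x ∈ P, n x := by
      rw [← Finset.sum_neg_distrib]
      apply Finset.sum_congr rfl
      intro x hx
      rw [if_pos (hXw x (hP hx))]
    have h5 := Finset.sum_sdiff (f := fun b => n b) hJ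
    rw [h3, h4]
    constructor <;> linarith

end W
end ZS44129
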