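import Pool.Agent.Work.MP_44129c_co.W.Root
import Pool.Agent.Work.MP_44129c_co.G.CosDeg
import Pool.Agent.Work.MP_44129c_co.P1.SubU

/-!
# MP_44129c_co/W, CoreA (size M): coset counts at `w`, no cube is everything

PROOFS.  `coset_w`: `G.coset_deg` (`r = 0`): `#{x ≠ w : c w x ∈ K} + 2 ≤ m + |K|`; the others are `≥ (m + s - 1) - (m + |K| - 2) = s + 1 - |K|`, and `c w x ∉ K` implies `x ∈ BB`.
`coreA`: suppose `nb c w x K 0 + |K| ≤ s` (`G.nb`: the `z ≠ w, x` with `c w z ∉ K`, `c x z ∉ K`; these `z` are in `BB`).  `G.c1_exc` (`r = 0`, `x ∈ cls`): `P1 < K`, `r1 ∈ K`, `c w x - r1 ∉ P1`, and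
`(#{z ∈ cls.erase x : c w z - r1 ∉ P1} + 2) |P1| ≤ |K|`.  `c w x = 0`, so `- r1 ∉ P1`, and all `z ∈ AA.erase x` are counted: `|AA| + 1 ≤ |K|`.  But `|AA| = m + s - 1 - e ≥ m - s ≥ (m + 1)/2 > |K| - 1`: contradiction (`2 |K| ≤ m + 1`, `m ≥ 2 s + 1`
because `m ≥ 3 s - 2`, `s ≥ 4`).
`no_top`: `F ⊆ P ∪ Y`, `Y = BB.erase y`, `P ⊆ X0`, `|F ∩ Y| ≤ s - 1`, `|F ∩ P| ≤ m - e` (from `hP`).  If the subset sums of `dlt` over `F` were everything, some `F' ⊆ F` would have `∑_{F'} dlt = c w y + ∑_Y c w b`; with `J = F' ∩ Y`, `P' = F' ∩ P`: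
`c w y + ∑_{Y \ J} c w b + ∑_{P'} c y x = 0`, contradiction to `av` (`dlt = c w b` on `Y`, `- c y x` on `P`).
`no_coset` (used if the sums of `F` fill only a subgroup `H`, and `c w y + ∑_{Y \ J} c w b ∈ H`): the same with one fixed `J`: if `Gen (dlt) F ⊥ H`, `J ⊆ Y` disjoint from `F`, `|J| + |F ∩ Y| ≤ s - 1` and `c w y + ∑_{Y \ J} c w b ∈ H` we get a contradiction
(some `F' ⊆ F` has `∑_{F'} dlt = c w y + ∑_{Y \ J} c w b`; use `J ∪ (F' ∩ Y)`).
-/

set_option autoImplicit false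

namespace ZS44129
namespace W

open Finset E

variable {V : Type} [Fintype V] [DecidableEq V] {m : ℕ} {c : V → V → ZMod m} {s : ℕ} {w : V}

private theorem CoreA_mA {c : V → V → ZMod m} {w x : V} : x ∈ AA c w ↔ x ≠ w ∧ c w x = 0 := by
  unfold AA
  rw [Finset.mem_filter, Finset.mem_erase]
  exact ⟨fun h => ⟨h.1.1, h.2⟩, fun h => ⟨⟨h.1, Finset.mem_univ x⟩, h.2⟩⟩

private theorem CoreA_mB {c : V → V → ZMod m} {w x : V} : x ∈ BB c w ↔ x ≠ w ∧ c w x ≠ 0 := by
  unfold BB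
  rw [Finset.mem_filter, Finset.mem_erase]
  exact ⟨fun h => ⟨h.1.1, h.2⟩, fun h => ⟨⟨h.1, Finset.mem_univ x⟩, h.2⟩⟩

private theorem CoreA_mX {c : V → V → ZMod m} {w y x : V} :
    x ∈ X0 c w y ↔ x ∈ AA c w ∧ c y x ≠ 0 := by
  unfold X0
  rw [Finset.mem_filter]

theorem coset_w [NeZero m] (h : WS0 c s w) (K : AddSubgroup (ZMod m)) (hK : 2 * Nat.card K ≤ m + 2) :
    s + 1 ≤ Nat.card K + (outK (c w) (BB c w) K).card := by
  classical
  have h1 := G.coset_deg c h.zsf w K hK 0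
  have h2 := Finset.card_filter_add_card_filter_not (s := univ.erase w) (fun x => c w x - 0 ∈ K)
  have h3 : (univ.erase w).card + 1 = m + s := by
    rw [Finset.card_erase_add_one (Finset.mem_univ w), Finset.card_univ, h.card]
  have h4 : ((univ.erase w).filter (fun x => c w x - 0 ∉ K)).card ≤
      (outK (c w) (BB c w) K).card := by
    refine Finset.card_le_card fun x hx => ?_
    obtain ⟨h5, h6⟩ := Finset.mem_filter.1 hx
    rw [sub_zero] at h6
    exact mem_outK.2 ⟨CoreA_mB.2 ⟨(Finset.mem_erase.1 h5).1, fun h7 => h6 (h7 ▸ K.zero_mem)⟩, h6⟩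
  omega

theorem coreA [NeZero m] (h : WS0 c s w) (K : AddSubgroup (ZMod m)) (hK : 2 * Nat.card K ≤ m + 1) {x : V}
    (hx : x ∈ AA c w) :
    s + 1 ≤ Nat.card K + (outK (fun z => c x z) (outK (c w) (BB c w) K) K).card := by
  classical
  by_contra hcon
  obtain ⟨hxw, hx0⟩ := CoreA_mA.1 hx
  have hnb : G.nb c w x K 0 ≤ (outK (fun z => c x z) (outK (c w) (BB c w) K) K).card := by
    unfold G.nb
    refine Finset.card_le_card fun z hz => ?_
    rw [Finset.mem_filter, G.mem_XX, sub_zero, sub_zero] at hz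
    obtain ⟨⟨h1, h2⟩, h3, h4⟩ := hz
    exact mem_outK.2 ⟨mem_outK.2 ⟨CoreA_mB.2 ⟨h1, fun h7 => h3 (h7 ▸ K.zero_mem)⟩, h3⟩, h4⟩
  obtain ⟨P1, r1, h1, h2, h3, h4⟩ := G.c1_exc c h.zsf h.card K hK w 0 (x := x)
    (G.mem_cls.2 ⟨hxw, by rw [hx0, sub_zero]; exact K.zero_mem⟩) (by omega)
  rw [hx0] at h3
  have h5 : ((AA c w).erase x).card ≤
      (((G.cls c w K 0).erase x).filter (fun z => c w z - r1 ∉ P1)).card := by
    refine Finset.card_le_card fun z hz => ?_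
    obtain ⟨hzx, hzA⟩ := Finset.mem_erase.1 hz
    obtain ⟨hzw, hz0⟩ := CoreA_mA.1 hzA
    rw [Finset.mem_filter, Finset.mem_erase, G.mem_cls, hz0]
    exact ⟨⟨hzx, hzw, by rw [sub_zero]; exact K.zero_mem⟩, h3⟩
  have h7 : 0 < Nat.card P1 := Nat.card_pos
  have h8 := Nat.le_mul_of_pos_right
    ((((G.cls c w K 0).erase x).filter (fun z => c w z - r1 ∉ P1)).card + 2) h7
  have h9 := Finset.card_erase_add_one hx
  have hc := cardAB h
  have he2 := h.e2
  have hm1 := h.m1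
  have hs4 := h.s4
  omega

private theorem no_coset_aux [NeZero m] (h : WS0 c s w) {y : V} (hy : y ∈ BB c w) (P : Finset V)
    (hP : P ⊆ X0 c w y) (hPc : P.card + (BB c w).card ≤ m) (F : Finset V)
    (hF : F ⊆ P ∪ (BB c w).erase y) (J : Finset V) (hJ : J ⊆ (BB c w).erase y) (hJF : Disjoint J F)
    (hFc : (F ∩ (BB c w).erase y).card + J.card + 1 ≤ s) (H : AddSubgroup (ZMod m))
    (hG : Gen (dlt c w y) F ⊥ H) (h0 : c w y + ∑ b ∈ (BB c w).erase y \ J, c w b ∈ H) : False := by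
  obtain ⟨g, hg, hg0⟩ := hG _ h0
  rw [AddSubgroup.mem_bot, sub_eq_zero] at hg0
  obtain ⟨T, hT, hTs⟩ := mem_cube.1 hg
  have hPw : ∀ x ∈ P, x ∈ AA c w ∧ c w x = 0 := by
    intro x hx
    have h1 := (CoreA_mX.1 (hP hx)).1
    exact ⟨h1, (CoreA_mA.1 h1).2⟩
  have hYw : ∀ x ∈ (BB c w).erase y, c w x ≠ 0 := fun x hx =>
    (CoreA_mB.1 (Finset.mem_of_mem_erase hx)).2
  have hPY : Disjoint P ((BB c w).erase y) := by
    rw [Finset.disjoint_left]
    intro x h1 h2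
    exact hYw x h2 (hPw x h1).2
  -- the two parts of T
  have hTsplit : T = (T ∩ (BB c w).erase y) ∪ (T ∩ P) := by
    ext x
    simp only [Finset.mem_union, Finset.mem_inter]
    constructor
    · intro h1
      rcases Finset.mem_union.1 (hF (hT h1)) with h2 | h2
      · exact Or.inr ⟨h1, h2⟩
      · exact Or.inl ⟨h1, h2⟩
    · rintro (h1 | h1)
      · exact h1.1
      · exact h1.1
  have hTdis : Disjoint (T ∩ (BB c w).erase y) (T ∩ P) := by
    rw [Finset.disjoint_left]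
    intro x h1 h2
    exact (Finset.disjoint_left.1 hPY) (Finset.mem_inter.1 h2).2 (Finset.mem_inter.1 h1).2
  have hsum : ∑ i ∈ T, dlt c w y i =
      ∑ b ∈ T ∩ (BB c w).erase y, c w b - ∑ x ∈ T ∩ P, c y x := by
    rw [hTsplit, Finset.sum_union hTdis, ← hTsplit, sub_eq_add_neg, ← Finset.sum_neg_distrib]
    congr 1
    · refine Finset.sum_congr rfl fun b hb => ?_
      unfold dlt
      rw [if_neg (hYw b (Finset.mem_inter.1 hb).2)]
    · refine Finset.sum_congr rfl fun x hx => ?_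
      unfold dlt
      rw [if_pos (hPw x (Finset.mem_inter.1 hx).2).2]
  have hsubY : T ∩ (BB c w).erase y ⊆ (BB c w).erase y \ J := by
    intro x hx
    obtain ⟨h1, h2⟩ := Finset.mem_inter.1 hx
    exact Finset.mem_sdiff.2 ⟨h2, fun h3 => (Finset.disjoint_left.1 hJF) h3 (hT h1)⟩
  have hJ' : J ∪ (T ∩ (BB c w).erase y) ⊆ (BB c w).erase y :=
    Finset.union_subset hJ Finset.inter_subset_right
  have hsd : ((BB c w).erase y \ J) \ (T ∩ (BB c w).erase y) =
      (BB c w).erase y \ (J ∪ (T ∩ (BB c w).erase y)) := by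
    rw [sdiff_sdiff_left]
    rfl
  have hsum2 := Finset.sum_sdiff (f := fun b => c w b) hsubY
  rw [hsd] at hsum2
  have hc1 : (J ∪ (T ∩ (BB c w).erase y)).card ≤ J.card + (F ∩ (BB c w).erase y).card :=
    (Finset.card_union_le _ _).trans (Nat.add_le_add_left (Finset.card_le_card
      (Finset.inter_subset_inter_right hT)) _)
  have hc2 : (T ∩ P).card ≤ P.card := Finset.card_le_card Finset.inter_subset_right
  apply av h hy (J ∪ (T ∩ (BB c w).erase y)) hJ' (by omega) (T ∩ P)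
    (fun x hx => (hPw x (Finset.mem_inter.1 hx).2).1) (by omega)
  rw [hsum] at hTs
  rw [← hTs] at hg0
  rw [← hsum2] at hg0
  linear_combination hg0

theorem no_top [NeZero m] (h : WS0 c s w) {y : V} (hy : y ∈ BB c w) (P : Finset V) (hP : P ⊆ X0 c w y)
    (hPc : P.card + (BB c w).card ≤ m) (F : Finset V) (hF : F ⊆ P ∪ (BB c w).erase y)
    (hFc : (F ∩ (BB c w).erase y).card + 1 ≤ s) : ¬ Gen (dlt c w y) F ⊥ ⊤ := by
  intro hG
  exact no_coset_aux h hy P hP hPc F hF ∅ (Finset.empty_subset _) (Finset.disjoint_empty_left _)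
    (by rw [Finset.card_empty, add_zero]; exact hFc) ⊤ hG (AddSubgroup.mem_top _)

theorem no_coset [NeZero m] (h : WS0 c s w) {y : V} (hy : y ∈ BB c w) (P : Finset V) (hP : P ⊆ X0 c w y)
    (hPc : P.card + (BB c w).card ≤ m) (F : Finset V) (hF : F ⊆ P ∪ (BB c w).erase y)
    (J : Finset V) (hJ : J ⊆ (BB c w).erase y) (hJF : Disjoint J F)
    (hFc : (F ∩ (BB c w).erase y).card + J.card + 1 ≤ s) (H : AddSubgroup (ZMod m))
    (hG : Gen (dlt c w y) F ⊥ H) (h0 : c w y + ∑ b ∈ (BB c w).erase y \ J, c w b ∈ H) : False := by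
  exact no_coset_aux h hy P hP hPc F hF J hJ hJF hFc H hG h0

end W
end ZS44129
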