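import Mathlib
import Pool.Agent.Work.MP_44129c_co.P1.KnA
import Pool.Agent.Work.MP_44129c_co.P1.KnB
import Pool.Agent.Work.MP_44129c_co.P1.KnC

/-!
# MP_44129c_co/W, PP (size M-L): periodic cubes (helper43, Lemma P'')

`P`, `Y` disjoint families of nonzero elements, `r`: allowed families are the `F ⊆ P ∪ Y` with `|F ∩ Y| ≤ r`.  `Filled H F`: `F` allowed, all `d i ∈ H`, `|F| + 1 ≤ |H|`, and the subset sums of `F` are all of `H` (`Gen d F ⊥ H`).
PROOF.  (1) `F0` has a periodic cube which is not everything; let `H` be its stabiliser (`≠ ⊥, ⊤`), `j = [⊤ : H]`, `h = |H|`.  `out_le`: at most `j - 2` elements of `F0` are outside `H`, so at least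
`|F0| - j + 2 ≥ h - 1` are inside (`2 |F0| ≥ m + 1 = h j + 1`, `(h - 2)(j - 2) + 3 ≥ 0`).  `gen_sub` with `A = ⊥`, `B = H`, `I = inK d F0 H`: a subgroup `⊥ < K ≤ H` and `J ⊆ F0` with `d i ∈ K` on `J` and `Gen d J ⊥ K`; `gen_small`:
a subfamily with at most `|K| - 1` elements.  So some nonzero subgroup is filled by an allowed family.
(2) Choose a filled subgroup `H1` (`≠ ⊥`) with `|H1|` maximal, and a filling family `F1` with the least possible number `ρ` of elements in `Y`.  `H1 ≠ ⊤` (`hno`).  Suppose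
`#(P \ H1) + min (r - ρ, #(Y \ H1)) ≥ j1 - 1`: take a family `F2` of `j1 - 1` elements outside `H1`, at most `r - ρ` of them in `Y` (`F2` is disjoint from `F1`, `F1 ∪ F2` is allowed).  `gen_sub` with `A = H1`, `B = ⊤`,
`I = F2` (`|G| ≤ |H1| (|F2| + 1)`): a subgroup `H1 < K` and `J ⊆ F2` with `d i ∈ K` on `J` and `Gen d J H1 K`; `gen_small`: `(|J| + 1)|H1| ≤ |K|`.  `gen_trans`: `F1 ∪ J` fills `K` (`|F1| + |J| ≤ |H1| - 1 + |K|/|H1| - 1 ≤ |K| - 1`).
If `K = ⊤`: contradiction to `hno`.  Otherwise contradiction to the maximality of `H1`.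
The last part of the conclusion: `F1` is a filling family; every filling family `F` of `H1` has `ρ ≤ |F ∩ Y|`.
-/

set_option autoImplicit false

namespace ZS44129
namespace W

open Finset

private def ppStab {G : Type*} [AddCommGroup G] (S : Finset G) : AddSubgroup G where
  carrier := {h | ∀ x ∈ S, x + h ∈ S}
  add_mem' {a b} ha hb := by
    intro x hx
    rw [← add_assoc]
    exact hb _ (ha x hx)
  zero_mem' := by
    intro x hx
    rwa [add_zero]
  neg_mem' {a} ha := by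
    classical
    intro x hx
    have h1 : S.image (fun y => y + a) ⊆ S := by
      intro z hz
      obtain ⟨y, hy, rfl⟩ := Finset.mem_image.1 hz
      exact ha y hy
    have h2 : S.image (fun y => y + a) = S := by
      apply Finset.eq_of_subset_of_card_le h1
      rw [Finset.card_image_of_injective _ (add_left_injective a)]
    rw [← h2] at hx
    obtain ⟨y, hy, hyx⟩ := Finset.mem_image.1 hx
    have h3 : x + -a = y := by
      rw [← hyx]
      abel
    rw [h3]
    exact hy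

private theorem pp_card_lt {G : Type*} [AddCommGroup G] [Finite G] {A B : AddSubgroup G}
    (h : A < B) : Nat.card A < Nat.card B := by
  have h1 : ((A : AddSubgroup G) : Set G).ncard < ((B : AddSubgroup G) : Set G).ncard :=
    Set.ncard_lt_ncard (by exact_mod_cast h) (Set.toFinite _)
  exact h1

/-- an allowed family filling `K`. -/
private def PPFill {ι : Type} [DecidableEq ι] {m : ℕ} (P Y : Finset ι) (d : ι → ZMod m) (r : ℕ)
    (K : AddSubgroup (ZMod m)) (F : Finset ι) : Prop :=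
  F ⊆ P ∪ Y ∧ (F ∩ Y).card ≤ r ∧ (∀ i ∈ F, d i ∈ K) ∧ Gen d F ⊥ K ∧ F.card + 1 ≤ Nat.card K

private theorem pp_start {ι : Type} [DecidableEq ι] {m : ℕ} [NeZero m] (P Y : Finset ι)
    (d : ι → ZMod m) (hd : ∀ i ∈ P ∪ Y, d i ≠ 0) (r : ℕ)
    (hno : ∀ F ⊆ P ∪ Y, (F ∩ Y).card ≤ r → ¬ Gen d F ⊥ ⊤)
    (F0 : Finset ι) (hF0 : F0 ⊆ P ∪ Y) (hF0r : (F0 ∩ Y).card ≤ r) (hF0c : m + 1 ≤ 2 * F0.card)
    (hper : ¬ Aper (cube d F0)) :
    ∃ K : AddSubgroup (ZMod m), K ≠ ⊥ ∧ ∃ F, PPFill P Y d r K F := by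
  have : Fintype (ZMod m) := ZMod.fintype m
  set H : AddSubgroup (ZMod m) := ppStab (cube d F0) with hHd
  have hH : ∀ h : ZMod m, h ∈ H ↔ ∀ x ∈ cube d F0, x + h ∈ cube d F0 := fun h => Iff.rfl
  have hHbot : H ≠ ⊥ := by
    intro hb
    apply hper
    intro h hh
    have h1 : h ∈ H := (hH h).2 hh
    rw [hb] at h1
    exact (AddSubgroup.mem_bot).1 h1
  have hcub : cube d F0 ≠ univ := by
    intro hu
    apply hno F0 hF0 hF0r
    intro x _
    refine ⟨x, ?_, ?_⟩
    · rw [hu]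
      exact Finset.mem_univ x
    · rw [sub_self]
      exact AddSubgroup.zero_mem _
  have hout := out_le d F0 H hH hcub
  have hsum := inK_add_outK d F0 H
  obtain ⟨j, hj⟩ := AddSubgroup.card_addSubgroup_dvd_card H
  have hm : Nat.card (ZMod m) = m := Nat.card_zmod m
  rw [hm] at hj hout
  have hm0 : 0 < m := Nat.pos_of_ne_zero (NeZero.ne m)
  have hlt : (⊥ : AddSubgroup (ZMod m)) < H := bot_lt_iff_ne_bot.2 hHbot
  have hb1 : Nat.card (⊥ : AddSubgroup (ZMod m)) = 1 := AddSubgroup.card_bot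
  have hh2 : 2 ≤ Nat.card H := by
    have := pp_card_lt hlt
    rw [hb1] at this
    omega
  have hj2 : (outK d F0 H).card + 2 ≤ j := by
    have h1 : ((outK d F0 H).card + 2) * Nat.card H ≤ j * Nat.card H := by
      calc ((outK d F0 H).card + 2) * Nat.card H ≤ m := hout
        _ = j * Nat.card H := hj.trans (mul_comm _ _)
    exact Nat.le_of_mul_le_mul_right h1 (by omega)
  have hI : Nat.card H ≤ (inK d F0 H).card + 1 := by
    obtain ⟨a, ha⟩ : ∃ a, Nat.card H = a + 2 := ⟨Nat.card H - 2, by omega⟩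
    obtain ⟨b, hb⟩ : ∃ b, j = b + 2 := ⟨j - 2, by omega⟩
    have h1 : m = a * b + 2 * a + 2 * b + 4 := by
      calc m = Nat.card H * j := hj
        _ = (a + 2) * (b + 2) := by rw [ha, hb]
        _ = _ := by ring
    have h2 : 0 ≤ a * b := Nat.zero_le _
    rw [ha]
    generalize a * b = q at h1 h2
    omega
  obtain ⟨K, hK1, hK2, J, hJ, hJK, hgen⟩ := gen_sub d (inK d F0 H) ⊥ H hlt
    (fun i hi => (mem_inK.1 hi).2)
    (fun i hi hb => hd i (hF0 (mem_inK.1 hi).1) ((AddSubgroup.mem_bot).1 hb))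
    (by rw [hb1, one_mul]; exact hI)
  obtain ⟨J', hJ', hgen', hc'⟩ := gen_small d J ⊥ K hK1.le hJK hgen
  rw [hb1, mul_one] at hc'
  have hJF : J' ⊆ F0 := (hJ'.trans hJ).trans (inK_sub d F0 H)
  refine ⟨K, bot_lt_iff_ne_bot.1 hK1, J', hJF.trans hF0, ?_, fun i hi => hJK i (hJ' hi), hgen', hc'⟩
  exact (Finset.card_le_card (Finset.inter_subset_inter_right hJF)).trans hF0r

theorem lemPP {ι : Type} [DecidableEq ι] {m : ℕ} [NeZero m] (P Y : Finset ι) (hPY : Disjoint P Y)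
    (d : ι → ZMod m) (hd : ∀ i ∈ P ∪ Y, d i ≠ 0) (r : ℕ)
    (hno : ∀ F ⊆ P ∪ Y, (F ∩ Y).card ≤ r → ¬ Gen d F ⊥ ⊤)
    (F0 : Finset ι) (hF0 : F0 ⊆ P ∪ Y) (hF0r : (F0 ∩ Y).card ≤ r) (hF0c : m + 1 ≤ 2 * F0.card)
    (hper : ¬ Aper (cube d F0)) :
    ∃ (H1 : AddSubgroup (ZMod m)) (F1 : Finset ι), H1 ≠ ⊥ ∧ H1 ≠ ⊤ ∧ F1 ⊆ P ∪ Y ∧ (F1 ∩ Y).card ≤ r ∧
      (∀ i ∈ F1, d i ∈ H1) ∧ Gen d F1 ⊥ H1 ∧ F1.card + 1 ≤ Nat.card H1 ∧
      ((outK d P H1).card + min (r - (F1 ∩ Y).card) (outK d Y H1).card + 2) * Nat.card H1 ≤ m ∧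
      (∀ F ⊆ P ∪ Y, (F ∩ Y).card ≤ r → (∀ i ∈ F, d i ∈ H1) → Gen d F ⊥ H1 → F.card + 1 ≤ Nat.card H1 →
        (F1 ∩ Y).card ≤ (F ∩ Y).card) := by
  classical
  have : Fintype (ZMod m) := ZMod.fintype m
  obtain ⟨K0, hK0, F0', hF0'⟩ := pp_start P Y d hd r hno F0 hF0 hF0r hF0c hper
  have hm : Nat.card (ZMod m) = m := Nat.card_zmod m
  have hm0 : 0 < m := Nat.pos_of_ne_zero (NeZero.ne m)
  have hle : ∀ K : AddSubgroup (ZMod m), Nat.card K ≤ m := by
    intro K
    have h1 := AddSubgroup.card_addSubgroup_dvd_card K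
    rw [hm] at h1
    exact Nat.le_of_dvd hm0 h1
  obtain ⟨H1, ⟨hH1, Fa, hFa⟩, hmax⟩ :=
    (measure (fun K : AddSubgroup (ZMod m) => m - Nat.card K)).wf.has_min
      {K | K ≠ ⊥ ∧ ∃ F, PPFill P Y d r K F} ⟨K0, hK0, F0', hF0'⟩
  obtain ⟨F1, hF1, hmin⟩ :=
    (measure (fun F : Finset ι => (F ∩ Y).card)).wf.has_min
      {F | PPFill P Y d r H1 F} ⟨Fa, hFa⟩
  obtain ⟨hF1s, hF1r, hF1H, hF1g, hF1c⟩ := hF1
  have hbig : ∀ K : AddSubgroup (ZMod m), H1 < K → ∀ F, ¬ PPFill P Y d r K F := by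
    intro K hK F hF
    have h1 := pp_card_lt hK
    have h2 := hle K
    have h3 : K ≠ ⊥ := by
      intro h
      rw [h] at hK
      exact not_lt_bot hK
    have h4 := hmax K ⟨h3, F, hF⟩
    apply h4
    change m - Nat.card K < m - Nat.card H1
    omega
  have hH1t : H1 ≠ ⊤ := by
    intro h
    rw [h] at hF1g
    exact hno F1 hF1s hF1r hF1g
  refine ⟨H1, F1, hH1, hH1t, hF1s, hF1r, hF1H, hF1g, hF1c, ?_, ?_⟩
  · by_contra hcon
    push Not at hcon
    obtain ⟨Y', hY', hY'c⟩ := Finset.exists_subset_card_eq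
      (s := outK d Y H1) (n := min (r - (F1 ∩ Y).card) (outK d Y H1).card) (min_le_right _ _)
    have hdisP : Disjoint (outK d P H1) Y' :=
      Finset.disjoint_of_subset_left (outK_sub d P H1)
        (Finset.disjoint_of_subset_right (hY'.trans (outK_sub d Y H1)) hPY)
    have hUc : (outK d P H1 ∪ Y').card =
        (outK d P H1).card + min (r - (F1 ∩ Y).card) (outK d Y H1).card := by
      rw [Finset.card_union_of_disjoint hdisP, hY'c]
    have hUout : ∀ i ∈ outK d P H1 ∪ Y', d i ∉ H1 := by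
      intro i hi
      rcases Finset.mem_union.1 hi with h | h
      · exact (mem_outK.1 h).2
      · exact (mem_outK.1 (hY' h)).2
    have hUs : outK d P H1 ∪ Y' ⊆ P ∪ Y :=
      Finset.union_subset_union (outK_sub d P H1) (hY'.trans (outK_sub d Y H1))
    have hlt : H1 < ⊤ := lt_top_iff_ne_top.2 hH1t
    have hcard : Nat.card (⊤ : AddSubgroup (ZMod m)) ≤
        Nat.card H1 * ((outK d P H1 ∪ Y').card + 1) := by
      rw [AddSubgroup.card_top, hm, hUc]
      obtain ⟨j, hj⟩ := AddSubgroup.card_addSubgroup_dvd_card H1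
      rw [hm] at hj
      rw [← mul_comm] at hcon
      have h1 : Nat.card H1 * j <
          Nat.card H1 * ((outK d P H1).card + min (r - (F1 ∩ Y).card) (outK d Y H1).card + 2) := by
        rw [← hj]
        exact hcon
      have h2 := Nat.lt_of_mul_lt_mul_left h1
      calc m = Nat.card H1 * j := hj
        _ ≤ _ := Nat.mul_le_mul_left _ (by omega)
    obtain ⟨K, hK1, hK2, J, hJ, hJK, hgen⟩ := gen_sub d (outK d P H1 ∪ Y') H1 ⊤ hlt
      (fun i _ => AddSubgroup.mem_top _) hUout hcard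
    obtain ⟨J', hJ', hgen', hc'⟩ := gen_small d J H1 K hK1.le hJK hgen
    have hJU : J' ⊆ outK d P H1 ∪ Y' := hJ'.trans hJ
    have hdis : Disjoint F1 J' := by
      rw [Finset.disjoint_left]
      intro i hi hi'
      exact hUout i (hJU hi') (hF1H i hi)
    have hJY : J' ∩ Y ⊆ Y' := by
      intro i hi
      have h1 := Finset.mem_inter.1 hi
      rcases Finset.mem_union.1 (hJU h1.1) with h | h
      · exact absurd h1.2 (Finset.disjoint_left.1 hPY (outK_sub d P H1 h))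
      · exact h
    refine hbig K hK1 (F1 ∪ J') ⟨Finset.union_subset hF1s (hJU.trans hUs), ?_, ?_,
      gen_trans d F1 J' hdis ⊥ H1 K hF1g hgen', ?_⟩
    · rw [Finset.union_inter_distrib_right]
      have h1 := Finset.card_union_le (F1 ∩ Y) (J' ∩ Y)
      have h2 := Finset.card_le_card hJY
      have h3 : Y'.card ≤ r - (F1 ∩ Y).card := by
        rw [hY'c]
        exact min_le_left _ _
      omega
    · intro i hi
      rcases Finset.mem_union.1 hi with h | h
      · exact hK1.le (hF1H i h)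
      · exact hJK i (hJ' h)
    · have h1 := Finset.card_union_le F1 J'
      have h2 : J'.card + Nat.card H1 ≤ (J'.card + 1) * Nat.card H1 := by
        have h3 : J'.card * 1 ≤ J'.card * Nat.card H1 := Nat.mul_le_mul_left _ (by omega)
        rw [add_mul, one_mul]
        omega
      omega
  · intro F hF1 hF2 hF3 hF4 hF5
    have h1 := hmin F ⟨hF1, hF2, hF3, hF4, hF5⟩
    exact not_lt.1 h1

end W
end ZS44129
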