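import Mathlib
import Pool.Agent.Work.MP_44129c_co.E.Goodman

/-!
# MP_44129c_co/W, NumEE (size S): numerical conditions

PROOF of `numE_of`.  `m4`: `m ≤ 3 s + 2 ≤ 4 s`.  `h3`: left.  `ev`: `m = 2 M`, `m ∈ {3 s - 2, …, 3 s + 2}`: `m + 4 ≤ 4 s` (`m = 3 s + 2` is even only for even `s`, so `s ≥ 8`; `m = 3 s + 1` even: `s` odd, `s ≥ 5`; `m ≤ 3 s`: `s ≥ 4`) and
`M^2 + s < s^2 + M s + M`: multiply by 4: `m^2 + 4 s < 4 s^2 + 2 m s + 2 m`; with `m = 3 s + 1 + t`: the difference is `s^2 - 4 s t + 2 s + 1 - t^2 - ...` (check the five cases with `nlinarith`; `t = 1` needs `s > 6`, `t = 0` needs `s > 1`).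
-/

set_option autoImplicit false

namespace ZS44129
namespace W

private theorem num_id (s M t : ℤ) (h : 2 * M = 3 * s + t) :
    4 * (s * s + M * s + M) - 4 * (M * M + s) = s * s - 4 * s * t + 2 * s + 2 * t - t * t := by
  linear_combination (2 * s + 2 - 2 * M - (3 * s + t)) * h

theorem numE_of {m s : ℕ} (hs : 4 ≤ s) (h1 : 3 * s ≤ m + 2) (h2 : m ≤ 3 * s + 2)
    (h3 : m ≤ 3 * s ∨ 5 ≤ s) (h4 : m ≠ 20 ∨ s ≠ 6) : E.NumE m s := by
  refine ⟨by omega, Or.inl h2, ?_⟩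
  intro M hM
  refine ⟨by omega, ?_⟩
  obtain ⟨t, ht⟩ : ∃ t : ℤ, t = 2 * (M : ℤ) - 3 * s := ⟨_, rfl⟩
  have hk := num_id (s : ℤ) M t (by rw [ht]; ring)
  have hs' : (4 : ℤ) ≤ s := by exact_mod_cast hs
  have ht1 : -2 ≤ t := by omega
  have ht2 : t ≤ 2 := by omega
  have ht3 : t = 2 → (7 : ℤ) ≤ s := by
    intro h
    omega
  have hpos : 0 < (s : ℤ) * s - 4 * s * t + 2 * s + 2 * t - t * t := by
    have hc : t = -2 ∨ t = -1 ∨ t = 0 ∨ t = 1 ∨ t = 2 := by omega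
    rcases hc with h | h | h | h | h
    · rw [h]
      nlinarith
    · rw [h]
      nlinarith
    · rw [h]
      nlinarith
    · rw [h]
      nlinarith
    · have h7 := ht3 h
      rw [h]
      nlinarith
  have hfin : ((M * M + s : ℕ) : ℤ) < ((s * s + M * s + M : ℕ) : ℤ) := by
    push_cast
    linarith
  exact_mod_cast hfin

end W
end ZS44129
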