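import Pool.Agent.Work.MP_44129c_co.W.Av

/-!
# MP_44129c_co/W, Struct (size M): the structure of the values

`Y = BB.erase y`, `|Y| = e - 1`, all `n b ≠ 0` on `Y` and `n x ≠ 0` on `X0` (the colours are nonzero).
PROOFS.  `rl_neg`: `z0' = m - z0`, `n' = - n`: the sum becomes `m - (…)`; `AA`, `BB`, `X0` do not change (`- c = 0 ↔ c = 0`).
`diff`: choose `P ⊆ X0` with `|P| = μ` (`muX`); `gap` for `J2` and `{x ∈ P : 0 < n x}` (the sum is `≤ m - 1`), and for `J1` and `{x ∈ P : n x < 0}` (the sum is `≥ 1`); subtract: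
`(∑_{J1} n - ∑_{J2} n) + ∑_P |n| ≤ m - 2`, `∑_P |n| ≥ μ`.
`wstruct` (`μ = m - e`): so `∑_{J1} n - ∑_{J2} n ≤ e - 2` for all `J1, J2 ⊆ Y` with at most `s - 1` elements.  `Pp`, `Qn` partition `Y`.  If `|Pp|, |Qn| ≤ s - 1`: `J1 = Pp`, `J2 = Qn`: `∑_Y |n| ≥ e - 1`, contradiction.
If `|Pp| ≥ s`: `|Qn| ≤ e - 1 - s ≤ s - 2`.  `T = {b ∈ Y : 2 ≤ n b}` has at most `s - 2` elements (otherwise `J1 ⊆ T` with `s - 1` elements, `J2 = ∅`: `2 (s - 1) ≤ e - 2 ≤ 2 s - 3`).  `J1 = T ∪ (s - 1 - |T|` elements with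
`n = 1)`, `J2 = Qn`: `(s - 1) + EE + NN ≤ e - 2`, which is `exc`.  `ones`: `|{n = 1}| = |Pp| - |T| ≥ (e - 1 - |Qn|) - EE ≥ e - 1 - NN - EE ≥ s` (`|Qn| ≤ NN`, `|T| ≤ EE`).
If `|Qn| ≥ s`: the same for `- n` (`Pp` and `Qn` are exchanged).
`posT_facts`: `|Pp| + |Qn| + 1 = e`, `s ≤ |Pp|`, `|Qn| ≤ NN`, `0 ≤ EE`, `0 ≤ NN`, and each `n b` (`b ∈ Y`) is in `[- NN, 1 + EE]`.
-/

set_option autoImplicit false

namespace ZS44129
namespace W

open Finset E

variable {V : Type} [Fintype V] [DecidableEq V] {m : ℕ} {c : V → V → ZMod m} {s μ : ℕ} {w y : V} {z0 : ℤ} {n : V → ℤ}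

private theorem st_neg (c : V → V → ZMod m) (w y : V) :
    AA (fun a b => - c a b) w = AA c w ∧ BB (fun a b => - c a b) w = BB c w ∧
      X0 (fun a b => - c a b) w y = X0 c w y := by
  have hA : AA (fun a b => - c a b) w = AA c w := by
    unfold AA
    exact Finset.filter_congr fun x _ => neg_eq_zero
  have hB : BB (fun a b => - c a b) w = BB c w := by
    unfold BB
    exact Finset.filter_congr fun x _ => not_congr neg_eq_zero
  refine ⟨hA, hB, ?_⟩
  unfold X0
  rw [hA]
  exact Finset.filter_congr fun x _ => not_congr neg_eq_zero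

theorem rl_neg (R : RL c s μ w y z0 n) : RL (fun a b => - c a b) s μ w y (m - z0) (fun x => - n x) := by
  obtain ⟨hA, hB, hX⟩ := st_neg c w y
  refine ⟨?_, ?_, ?_, ?_, ?_, ?_, ?_⟩
  · rw [hB]
    exact R.yB
  · rw [hB]
    exact R.mu
  · rw [hX]
    exact R.muX
  · rw [hB]
    intro b hb
    rw [Int.cast_neg, R.hb b hb]
  · rw [hX]
    intro x hx
    rw [Int.cast_neg, R.hx x hx]
  · rw [Int.cast_sub, R.h0, Int.cast_natCast, ZMod.natCast_self, zero_sub]
  · rw [hB, hX]
    intro J hJ hJc P hP hPc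
    have h1 := R.gap J hJ hJc P hP hPc
    rw [Finset.sum_neg_distrib, Finset.sum_neg_distrib]
    constructor
    · linarith [h1.2]
    · linarith [h1.1]

private theorem st_B {b : V} (hb : b ∈ (BB c w).erase y) : c w b ≠ 0 :=
  (Finset.mem_filter.1 (Finset.mem_of_mem_erase hb)).2

theorem n_ne (R : RL c s μ w y z0 n) : (∀ b ∈ (BB c w).erase y, n b ≠ 0) ∧ ∀ x ∈ X0 c w y, n x ≠ 0 := by
  constructor
  · intro b hb h0
    have h1 := R.hb b hb
    rw [h0, Int.cast_zero] at h1
    exact st_B hb h1.symm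
  · intro x hx h0
    have h1 := R.hx x hx
    rw [h0, Int.cast_zero] at h1
    unfold X0 at hx
    exact (Finset.mem_filter.1 hx).2 h1.symm

theorem diff (h : WS0 c s w) (R : RL c s μ w y z0 n) (J1 J2 : Finset V) (h1 : J1 ⊆ (BB c w).erase y)
    (h2 : J2 ⊆ (BB c w).erase y) (h1c : J1.card + 1 ≤ s) (h2c : J2.card + 1 ≤ s) :
    ∑ b ∈ J1, n b - ∑ b ∈ J2, n b + μ + 2 ≤ m := by
  obtain ⟨P, hP, hPc⟩ := Finset.exists_subset_card_eq R.muX
  have hn := (n_ne R).2
  have e1 := R.gap J2 h2 h2c (P.filter fun x => 0 < n x)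
    ((Finset.filter_subset _ _).trans hP) ((Finset.card_filter_le _ _).trans hPc.le)
  have e2 := R.gap J1 h1 h1c (P.filter fun x => ¬ 0 < n x)
    ((Finset.filter_subset _ _).trans hP) ((Finset.card_filter_le _ _).trans hPc.le)
  have s1 := Finset.sum_sdiff (f := n) h1
  have s2 := Finset.sum_sdiff (f := n) h2
  have c1 := Finset.card_filter_add_card_filter_not (s := P) (fun x => 0 < n x)
  have d1 : ((P.filter fun x => 0 < n x).card : ℤ) ≤ ∑ x ∈ P.filter (fun x => 0 < n x), n x := by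
    have := Finset.card_nsmul_le_sum (P.filter fun x => 0 < n x) n 1 (fun x hx => by
      have := (Finset.mem_filter.1 hx).2
      omega)
    simpa using this
  have d2 : ((P.filter fun x => ¬ 0 < n x).card : ℤ) ≤
      - ∑ x ∈ P.filter (fun x => ¬ 0 < n x), n x := by
    rw [← Finset.sum_neg_distrib]
    have := Finset.card_nsmul_le_sum (P.filter fun x => ¬ 0 < n x) (fun x => - n x) 1
      (fun x hx => by
        have h3 := (Finset.mem_filter.1 hx).2
        have h4 := hn x (hP (Finset.mem_filter.1 hx).1)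
        omega)
    simpa using this
  have c2 : ((P.filter fun x => 0 < n x).card : ℤ) + ((P.filter fun x => ¬ 0 < n x).card : ℤ) = μ := by
    rw [← hPc]
    exact_mod_cast c1
  linarith [e1.2, e2.1]

private theorem st_split (hn : ∀ b ∈ (BB c w).erase y, n b ≠ 0) :
    (Pp c w y n).card + (Qn c w y n).card = ((BB c w).erase y).card := by
  have h1 := Finset.card_filter_add_card_filter_not (s := (BB c w).erase y) (fun b => 1 ≤ n b)
  have h2 : Qn c w y n = ((BB c w).erase y).filter (fun b => ¬ 1 ≤ n b) := by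
    unfold Qn
    refine Finset.filter_congr fun b hb => ?_
    have := hn b hb
    omega
  rw [h2]
  exact h1

private theorem st_Qn : ((Qn c w y n).card : ℤ) ≤ NN c w y n := by
  unfold NN
  have := Finset.card_nsmul_le_sum (Qn c w y n) (fun x => - n x) 1 (fun x hx => by
    have h3 := (Finset.mem_filter.1 hx).2
    omega)
  simpa using this

private theorem st_pos (hn : ∀ b ∈ (BB c w).erase y, n b ≠ 0) (hy : y ∈ BB c w)
    (he2 : (BB c w).card + 1 ≤ 2 * s)
    (D : ∀ J1 ⊆ (BB c w).erase y, ∀ J2 ⊆ (BB c w).erase y, J1.card + 1 ≤ s → J2.card + 1 ≤ s →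
      ∑ b ∈ J1, n b - ∑ b ∈ J2, n b + 2 ≤ (BB c w).card)
    (hP : s ≤ (Pp c w y n).card) : PosT c s w y n := by
  have hY := Finset.card_erase_add_one hy
  have hsp := st_split hn
  have hQs : (Qn c w y n).card + 1 ≤ s := by omega
  have hPY : Pp c w y n ⊆ (BB c w).erase y := Finset.filter_subset _ _
  have hQY : Qn c w y n ⊆ (BB c w).erase y := Finset.filter_subset _ _
  set T := (Pp c w y n).filter (fun b => 2 ≤ n b) with hT
  have hTP : T ⊆ Pp c w y n := Finset.filter_subset _ _
  have hTs : T.card + 1 ≤ s := by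
    by_contra hcon
    obtain ⟨J, hJ, hJc⟩ := Finset.exists_subset_card_eq (s := T) (n := s - 1) (by omega)
    have h1 := D J ((hJ.trans hTP).trans hPY) ∅ (Finset.empty_subset _) (by omega)
      (by rw [Finset.card_empty]; omega)
    rw [Finset.sum_empty] at h1
    have h2 := Finset.card_nsmul_le_sum J n 2 (fun x hx => (Finset.mem_filter.1 (hJ hx)).2)
    rw [hJc, nsmul_eq_mul] at h2
    have h3 : ((s - 1 : ℕ) : ℤ) = s - 1 := by
      rw [Nat.cast_sub (by omega)]
      norm_num
    rw [h3] at h2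
    have h4 : ((BB c w).card : ℤ) + 1 ≤ 2 * s := by exact_mod_cast he2
    linarith
  obtain ⟨J, hTJ, hJP, hJc⟩ := Finset.exists_subsuperset_card_eq hTP
    (show T.card ≤ s - 1 by omega) (show s - 1 ≤ (Pp c w y n).card by omega)
  have h1 := D J (hJP.trans hPY) (Qn c w y n) hQY (by omega) hQs
  have h2 : ∑ b ∈ J, (n b - 1) = EE c w y n := by
    unfold EE
    refine Finset.sum_subset hJP fun b hb hbJ => ?_
    have h3 : ¬ 2 ≤ n b := fun h4 => hbJ (hTJ (Finset.mem_filter.2 ⟨hb, h4⟩))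
    have h5 := (Finset.mem_filter.1 hb).2
    omega
  rw [Finset.sum_sub_distrib, Finset.sum_const, hJc, nsmul_eq_mul, mul_one] at h2
  have h3 : ((s - 1 : ℕ) : ℤ) = s - 1 := by
    rw [Nat.cast_sub (by omega)]
    norm_num
  rw [h3] at h2
  have h4 : NN c w y n = - ∑ b ∈ Qn c w y n, n b := by
    unfold NN
    rw [Finset.sum_neg_distrib]
  have hexc : EE c w y n + NN c w y n + s + 1 ≤ (BB c w).card := by linarith
  refine ⟨?_, hexc⟩
  have h5 : (T.card : ℤ) ≤ EE c w y n := by
    have h6 := Finset.card_nsmul_le_sum T (fun x => n x - 1) 1 (fun x hx => by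
      have := (Finset.mem_filter.1 hx).2
      omega)
    have h7 : ∑ x ∈ T, (n x - 1) ≤ EE c w y n := by
      unfold EE
      refine Finset.sum_le_sum_of_subset_of_nonneg hTP fun b hb _ => ?_
      have h8 := (Finset.mem_filter.1 hb).2
      omega
    rw [nsmul_eq_mul, mul_one] at h6
    linarith
  have h6 := Finset.card_filter_add_card_filter_not (s := Pp c w y n) (fun b => 2 ≤ n b)
  have h7 : (Pp c w y n).filter (fun b => ¬ 2 ≤ n b) = ((BB c w).erase y).filter (fun b => n b = 1) := by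
    unfold Pp
    rw [Finset.filter_filter]
    refine Finset.filter_congr fun b _ => ?_
    omega
  rw [h7, ← hT] at h6
  have h8 := st_Qn (c := c) (w := w) (y := y) (n := n)
  zify at h6 hsp hY ⊢
  linarith

private theorem st_Pp_neg : Pp c w y (fun x => - n x) = Qn c w y n := by
  unfold Pp Qn
  refine Finset.filter_congr fun b _ => ?_
  show 1 ≤ - n b ↔ n b ≤ -1
  omega

theorem wstruct (h : WS0 c s w) (R : RL c s μ w y z0 n) (hμ : μ + (BB c w).card = m) :
    PosT c s w y n ∨ PosT c s w y (fun x => - n x) := by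
  have hn := (n_ne R).1
  have hm : (μ : ℤ) + (BB c w).card = m := by exact_mod_cast hμ
  have D : ∀ J1 ⊆ (BB c w).erase y, ∀ J2 ⊆ (BB c w).erase y, J1.card + 1 ≤ s →
      J2.card + 1 ≤ s → ∑ b ∈ J1, n b - ∑ b ∈ J2, n b + 2 ≤ (BB c w).card := by
    intro J1 h1 J2 h2 h1c h2c
    have := diff h R J1 J2 h1 h2 h1c h2c
    linarith
  by_cases hP : s ≤ (Pp c w y n).card
  · exact Or.inl (st_pos hn R.yB h.e2 D hP)
  by_cases hQ : s ≤ (Qn c w y n).card
  · right
    refine st_pos (fun b hb => neg_ne_zero.2 (hn b hb)) R.yB h.e2 ?_ ?_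
    · intro J1 h1 J2 h2 h1c h2c
      have := D J2 h2 J1 h1 h2c h1c
      rw [Finset.sum_neg_distrib, Finset.sum_neg_distrib]
      linarith
    · rw [st_Pp_neg]
      exact hQ
  · exfalso
    have hY := Finset.card_erase_add_one R.yB
    have hsp := st_split hn
    have h1 := D (Pp c w y n) (Finset.filter_subset _ _) (Qn c w y n) (Finset.filter_subset _ _)
      (by omega) (by omega)
    have h2 : ((Pp c w y n).card : ℤ) ≤ ∑ b ∈ Pp c w y n, n b := by
      have := Finset.card_nsmul_le_sum (Pp c w y n) n 1 (fun x hx => (Finset.mem_filter.1 hx).2)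
      simpa using this
    have h3 := st_Qn (c := c) (w := w) (y := y) (n := n)
    unfold NN at h3
    rw [Finset.sum_neg_distrib] at h3
    zify at hY hsp
    linarith

theorem posT_facts (h : WS0 c s w) (R : RL c s μ w y z0 n) (P : PosT c s w y n) :
    (Pp c w y n).card + (Qn c w y n).card + 1 = (BB c w).card ∧ s ≤ (Pp c w y n).card ∧
      ((Qn c w y n).card : ℤ) ≤ NN c w y n ∧ 0 ≤ EE c w y n ∧ 0 ≤ NN c w y n ∧
      ∀ b ∈ (BB c w).erase y, - NN c w y n ≤ n b ∧ n b ≤ 1 + EE c w y n := by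
  have hn := (n_ne R).1
  have hY := Finset.card_erase_add_one R.yB
  have hsp := st_split hn
  have h3 := st_Qn (c := c) (w := w) (y := y) (n := n)
  have hE : 0 ≤ EE c w y n := by
    unfold EE
    refine Finset.sum_nonneg fun b hb => ?_
    have := (Finset.mem_filter.1 hb).2
    omega
  have hN : 0 ≤ NN c w y n := le_trans (by positivity) h3
  refine ⟨by omega, ?_, h3, hE, hN, ?_⟩
  · refine P.ones.trans (Finset.card_le_card ?_)
    intro b hb
    rw [Finset.mem_filter] at hb
    exact Finset.mem_filter.2 ⟨hb.1, hb.2.ge⟩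
  · intro b hb
    rcases lt_or_gt_of_ne (hn b hb) with h0 | h0
    · have hbQ : b ∈ Qn c w y n := Finset.mem_filter.2 ⟨hb, by omega⟩
      have h4 : - n b ≤ NN c w y n := by
        unfold NN
        exact Finset.single_le_sum (f := fun b => - n b) (fun x hx => by
          have := (Finset.mem_filter.1 hx).2
          show 0 ≤ - n x
          omega) hbQ
      constructor <;> linarith
    · have hbP : b ∈ Pp c w y n := Finset.mem_filter.2 ⟨hb, by omega⟩
      have h4 : n b - 1 ≤ EE c w y n := by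
        unfold EE
        exact Finset.single_le_sum (f := fun b => n b - 1) (fun x hx => by
          have := (Finset.mem_filter.1 hx).2
          show 0 ≤ n x - 1
          omega) hbP
      constructor <;> linarith

end W
end ZS44129
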