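import Pool.Agent.Work.MP_44129c_co.W.CoreA
import Pool.Agent.Work.MP_44129c_co.W.PP

/-!
# MP_44129c_co/W, AperO (size M): odd `m`, periodic cubes

`Y = BB.erase y`, `δ = dlt c w y`.
PROOF of `per_data`.  `lemPP` with `P = P0`, `Y`, `d = δ`, `r = s - 1`, `F0 = J0 ∪ P0` (nonzero: `c w b ≠ 0` on `BB`, `c y x ≠ 0` on `X0`; `hno` = `no_top`; `|F0| = s - 1 + |P0|`).  It gives `H1`, `F1`; `h1 = |H1|`, `j1 = m / h1`,
`ρ = |F1 ∩ Y| ≤ |F1| ≤ h1 - 1`.  `coset_w` (`2 h1 ≤ m`): `#(BB \ H1) ≥ s + 1 - h1`, so `#(Y \ H1) ≥ s - h1` (`δ = c w` on `Y`).  `min (s - 1 - ρ, #(Y \ H1)) ≥ s - h1`.  So `(#(P0 \ H1) + s - h1 + 2) h1 ≤ m = j1 h1`, i.e. `h1 + j1 ≥ s + 2 + #(P0 \ H1)`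
(also if `h1 > s`: `#(P0 \ H1) + 0 + 2 ≤ j1`).  `m` odd: `h1, j1 ≥ 3` (so `2 h1 ≤ m`).
PROOF of `aper_odd` (`¬ 3 ∣ m`): `h1, j1 ≥ 5`, `(h1 - 3)(j1 - 3) = m - 3 (h1 + j1) + 9 ≤ m - 3 s + 3`; `4 ≤ (h1 - 3)(j1 - 3) ≤ m - 3 s + 3 ≤ 5`: so `(h1 - 3)(j1 - 3) = 4` (a product of two even numbers), `h1 = j1 = 5`, `m = 25`, `s = 8` (`3 s - 2 ≤ 25 ≤ 3 s + 2` and `h1 + j1 = 10 ≥ s + 2`: `s = 8`), and
`#(P0 \ H1) = 0`.  `|P0| ≥ 6` (`h2`), all of `P0` in `H1` (order 5, prime): four elements of `P0` fill `H1` (`gen_of_count` or: their cube has at least 5 elements), so `ρ = 0` (last property of `lemPP` with `F ⊆ P0`), and the inequality says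
`(0 + min (7, #(Y \ H1)) + 2) * 5 ≤ 25`: `#(Y \ H1) ≤ 3`.  `coset_w`: `#(BB \ H1) ≥ 4`.  So `y ∉ H1` (i.e. `c w y ∉ H1`) and `#(BB \ H1) = 4`.  `coreA` for `x ∈ P0`: `#{z ∈ BB : c w z ∉ H1, c x z ∉ H1} ≥ 4`, so all four, in particular `c x y ∉ H1`;
but `c y x ∈ H1` (`x ∈ P0`).  Contradiction.
-/

set_option autoImplicit false

namespace ZS44129
namespace W

open Finset E

variable {V : Type} [Fintype V] [DecidableEq V] {m : ℕ} {c : V → V → ZMod m} {s : ℕ} {w : V}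

private theorem mem_ws_Y {y x : V} (hx : x ∈ (BB c w).erase y) : c w x ≠ 0 :=
  (Finset.mem_filter.1 (Finset.mem_of_mem_erase hx)).2

private theorem mem_ws_X {y x : V} (hx : x ∈ X0 c w y) : c w x = 0 ∧ c y x ≠ 0 :=
  ⟨(Finset.mem_filter.1 (Finset.mem_filter.1 hx).1).2, (Finset.mem_filter.1 hx).2⟩

private theorem dlt_Y {y x : V} (hx : x ∈ (BB c w).erase y) : dlt c w y x = c w x := by
  unfold dlt
  rw [if_neg (mem_ws_Y hx)]

private theorem dlt_X {y x : V} (hx : x ∈ X0 c w y) : dlt c w y x = - c y x := by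
  unfold dlt
  rw [if_pos (mem_ws_X hx).1]

private theorem outK_Y (y : V) (H : AddSubgroup (ZMod m)) :
    outK (dlt c w y) ((BB c w).erase y) H = outK (c w) ((BB c w).erase y) H := by
  ext x
  rw [mem_outK, mem_outK]
  constructor
  · rintro ⟨h1, h2⟩
    rw [dlt_Y h1] at h2
    exact ⟨h1, h2⟩
  · rintro ⟨h1, h2⟩
    rw [← dlt_Y h1] at h2
    exact ⟨h1, h2⟩

private theorem out_erase (y : V) (H : AddSubgroup (ZMod m)) :
    (outK (c w) (BB c w) H).card ≤ (outK (c w) ((BB c w).erase y) H).card + 1 := by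
  have h1 : outK (c w) (BB c w) H ⊆ insert y (outK (c w) ((BB c w).erase y) H) := by
    intro x hx
    rw [mem_outK] at hx
    rw [mem_insert, mem_outK, mem_erase]
    by_cases h : x = y
    · left; exact h
    · right; exact ⟨⟨h, hx.1⟩, hx.2⟩
  exact le_trans (card_le_card h1) (card_insert_le _ _)

theorem per_data [NeZero m] (h : WS0 c s w) (hodd : ¬ 2 ∣ m) {y : V} (hy : y ∈ BB c w) (J0 P0 : Finset V)
    (hJ0 : J0 ⊆ (BB c w).erase y) (hJ0c : J0.card + 1 = s) (hP0 : P0 ⊆ X0 c w y)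
    (hP0c : P0.card + (BB c w).card ≤ m) (h2 : m + 3 ≤ 2 * (P0.card + s))
    (hper : ¬ Aper (cube (dlt c w y) (J0 ∪ P0))) :
    ∃ (H1 : AddSubgroup (ZMod m)) (F1 : Finset V), 3 ≤ Nat.card H1 ∧ 3 ≤ H1.index ∧
      F1 ⊆ P0 ∪ (BB c w).erase y ∧ (F1 ∩ (BB c w).erase y).card + 1 ≤ s ∧ (∀ i ∈ F1, dlt c w y i ∈ H1) ∧
      Gen (dlt c w y) F1 ⊥ H1 ∧ F1.card + 1 ≤ Nat.card H1 ∧
      ((outK (dlt c w y) P0 H1).card +
        min (s - 1 - (F1 ∩ (BB c w).erase y).card) (outK (c w) ((BB c w).erase y) H1).card + 2 ≤ H1.index) ∧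
      (∀ F ⊆ P0 ∪ (BB c w).erase y, (F ∩ (BB c w).erase y).card + 1 ≤ s → (∀ i ∈ F, dlt c w y i ∈ H1) →
        Gen (dlt c w y) F ⊥ H1 → F.card + 1 ≤ Nat.card H1 →
        (F1 ∩ (BB c w).erase y).card ≤ (F ∩ (BB c w).erase y).card) ∧
      s + 2 + (outK (dlt c w y) P0 H1).card ≤ Nat.card H1 + H1.index := by
  have hs4 := h.s4
  have hPY : Disjoint P0 ((BB c w).erase y) := by
    rw [Finset.disjoint_left]
    intro x hx hx2
    exact mem_ws_Y hx2 (mem_ws_X (hP0 hx)).1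
  have hdn : ∀ i ∈ P0 ∪ (BB c w).erase y, dlt c w y i ≠ 0 := by
    intro i hi
    rcases mem_union.1 hi with h1 | h1
    · rw [dlt_X (hP0 h1)]
      exact neg_ne_zero.2 (mem_ws_X (hP0 h1)).2
    · rw [dlt_Y h1]
      exact mem_ws_Y h1
  have hJP : Disjoint J0 P0 := (hPY.mono_right hJ0).symm
  have hF0 : J0 ∪ P0 ⊆ P0 ∪ (BB c w).erase y :=
    union_subset (hJ0.trans subset_union_right) subset_union_left
  have hF0r : ((J0 ∪ P0) ∩ (BB c w).erase y).card ≤ s - 1 := by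
    have h1 : (J0 ∪ P0) ∩ (BB c w).erase y ⊆ J0 := by
      intro x hx
      rw [mem_inter, mem_union] at hx
      rcases hx.1 with h3 | h3
      · exact h3
      · exact absurd hx.2 (Finset.disjoint_left.1 hPY h3)
    have h3 := card_le_card h1
    omega
  have hF0c : m + 1 ≤ 2 * (J0 ∪ P0).card := by
    rw [card_union_of_disjoint hJP]
    omega
  obtain ⟨H1, F1, hb, ht, hF1, hF1r, hF1m, hG, hF1c, hineq, hmin⟩ :=
    lemPP P0 ((BB c w).erase y) hPY (dlt c w y) hdn (s - 1)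
      (fun F hF hFr => no_top h hy P0 hP0 hP0c F hF (by omega)) (J0 ∪ P0) hF0 hF0r hF0c hper
  have hcm : Nat.card H1 * H1.index = m := by
    have h1 := H1.card_mul_index
    rwa [Nat.card_zmod] at h1
  have hm0 : 0 < m := NeZero.pos m
  have hc1 : Nat.card H1 ≠ 1 := by
    intro h1
    exact hb (AddSubgroup.card_eq_one.1 h1)
  have hc2 : Nat.card H1 ≠ 2 := by
    intro h1
    rw [h1] at hcm
    exact hodd ⟨_, hcm.symm⟩
  have hc0 : Nat.card H1 ≠ 0 := by
    intro h1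
    rw [h1, zero_mul] at hcm
    omega
  have hi1 : H1.index ≠ 1 := by
    intro h1
    exact ht (AddSubgroup.index_eq_one.1 h1)
  have hi2 : H1.index ≠ 2 := by
    intro h1
    rw [h1] at hcm
    exact hodd ⟨_, by rw [mul_comm]; exact hcm.symm⟩
  have hi0 : H1.index ≠ 0 := by
    intro h1
    rw [h1, mul_zero] at hcm
    omega
  have hh3 : 3 ≤ Nat.card H1 := by omega
  have hj3 : 3 ≤ H1.index := by omega
  rw [outK_Y] at hineq
  have hineq2 : (outK (dlt c w y) P0 H1).card +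
      min (s - 1 - (F1 ∩ (BB c w).erase y).card) (outK (c w) ((BB c w).erase y) H1).card + 2 ≤
      H1.index := by
    have h1 := le_trans hineq (le_of_eq hcm.symm)
    rw [mul_comm (Nat.card H1) H1.index] at h1
    exact Nat.le_of_mul_le_mul_right h1 (by omega)
  have hcw : s + 1 ≤ Nat.card H1 + (outK (c w) (BB c w) H1).card := by
    apply coset_w h H1
    have : Nat.card H1 * 3 ≤ Nat.card H1 * H1.index := Nat.mul_le_mul_left _ hj3
    omega
  have hoe := out_erase (c := c) (w := w) y H1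
  have hρ : (F1 ∩ (BB c w).erase y).card ≤ F1.card := card_le_card inter_subset_left
  refine ⟨H1, F1, hh3, hj3, hF1, by omega, hF1m, hG, hF1c, hineq2, ?_, ?_⟩
  · intro F hF hFr hFm hFG hFc
    exact hmin F hF (by omega) hFm hFG hFc
  · omega

theorem aper_odd [NeZero m] (h : WS0 c s w) (hodd : ¬ 2 ∣ m) (h3 : ¬ 3 ∣ m) {y : V} (hy : y ∈ BB c w)
    (J0 P0 : Finset V) (hJ0 : J0 ⊆ (BB c w).erase y) (hJ0c : J0.card + 1 = s) (hP0 : P0 ⊆ X0 c w y)
    (hP0c : P0.card + (BB c w).card ≤ m) (h2 : m + 3 ≤ 2 * (P0.card + s)) :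
    Aper (cube (dlt c w y) (J0 ∪ P0)) := by
  by_contra hper
  obtain ⟨H1, F1, hh, hj, hF1, hF1r, hF1m, hG, hF1c, hineq, hmin, hsum⟩ :=
    per_data h hodd hy J0 P0 hJ0 hJ0c hP0 hP0c h2 hper
  have hcm : Nat.card H1 * H1.index = m := by
    have h1 := H1.card_mul_index
    rwa [Nat.card_zmod] at h1
  have hm1 := h.m1
  have hm2 := h.m2
  have hs4 := h.s4
  have hPY : Disjoint P0 ((BB c w).erase y) := by
    rw [Finset.disjoint_left]
    intro x hx hx2
    exact mem_ws_Y hx2 (mem_ws_X (hP0 hx)).1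
  -- numbers
  obtain ⟨a, ha⟩ : ∃ a, Nat.card H1 = 2 * a + 5 := by
    have h4 : Nat.card H1 % 2 = 1 := by
      rcases Nat.mod_two_eq_zero_or_one (Nat.card H1) with h5 | h5
      · exfalso
        exact hodd (hcm ▸ (Nat.dvd_of_mod_eq_zero h5).mul_right _)
      · exact h5
    have h5 : Nat.card H1 ≠ 3 := by
      intro h6
      rw [h6] at hcm
      exact h3 ⟨_, hcm.symm⟩
    exact ⟨(Nat.card H1 - 5) / 2, by omega⟩
  obtain ⟨b, hb⟩ : ∃ b, H1.index = 2 * b + 5 := by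
    have h4 : H1.index % 2 = 1 := by
      rcases Nat.mod_two_eq_zero_or_one H1.index with h5 | h5
      · exfalso
        exact hodd (hcm ▸ (Nat.dvd_of_mod_eq_zero h5).mul_left _)
      · exact h5
    have h5 : H1.index ≠ 3 := by
      intro h6
      rw [h6] at hcm
      exact h3 ⟨_, by rw [mul_comm]; exact hcm.symm⟩
    exact ⟨(H1.index - 5) / 2, by omega⟩
  rw [ha, hb] at hcm hsum
  have hab : a = 0 ∧ b = 0 ∧ (outK (dlt c w y) P0 H1).card = 0 ∧ s = 8 := by
    have h4 : 4 * (a * b) + 10 * a + 10 * b + 25 = m := by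
      rw [← hcm]; ring
    have h5 : 4 * (a * b) + 10 * a + 10 * b + 25 ≤ 3 * s + 2 := by omega
    have h6 : s + 2 + (outK (dlt c w y) P0 H1).card ≤ 2 * a + 2 * b + 10 := by omega
    have h7 : a = 0 := by
      by_contra h8
      have h9 : 0 ≤ a * b := Nat.zero_le _
      omega
    have h8 : b = 0 := by
      by_contra h8
      have h9 : 0 ≤ a * b := Nat.zero_le _
      omega
    subst h7
    subst h8
    refine ⟨rfl, rfl, ?_, ?_⟩ <;> omega
  obtain ⟨ha0, hb0, hout, hs8⟩ := hab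
  rw [ha0] at ha
  rw [hb0] at hb
  rw [ha0, hb0] at hcm
  have hc5 : Nat.card H1 = 5 := by omega
  have hi5 : H1.index = 5 := by omega
  have hm25 : m = 25 := by omega
  have hPH : ∀ x ∈ P0, dlt c w y x ∈ H1 := by
    intro x hx
    by_contra h4
    have h5 : x ∈ outK (dlt c w y) P0 H1 := mem_outK.2 ⟨hx, h4⟩
    rw [card_eq_zero.1 hout] at h5
    exact absurd h5 (notMem_empty x)
  obtain ⟨F, hFP, hFc⟩ := exists_subset_card_eq (s := P0) (n := 4) (by omega)
  have hFG : Gen (dlt c w y) F ⊥ H1 := by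
    apply gen_of_count _ _ _ _ bot_le (fun i hi => hPH i (hFP hi))
    intro K _ hK
    have h4 : Nat.card K ∣ Nat.card H1 := AddSubgroup.card_dvd_of_le hK.le
    have h5 : Nat.card K ≠ 5 := by
      intro h6
      have h7 : K = H1 := by
        apply AddSubgroup.eq_of_le_of_card_ge hK.le
        omega
      exact hK.ne h7
    rw [hc5] at h4
    have h6 : Nat.card K = 1 := by
      rcases (Nat.dvd_prime Nat.prime_five).1 h4 with h7 | h7
      · exact h7
      · exact absurd h7 h5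
    have h7 : K = ⊥ := AddSubgroup.card_eq_one.1 h6
    have h8 : outK (dlt c w y) F K = F := by
      ext x
      rw [mem_outK, h7, AddSubgroup.mem_bot]
      constructor
      · exact fun h9 => h9.1
      · intro h9
        refine ⟨h9, ?_⟩
        rw [dlt_X (hP0 (hFP h9))]
        exact neg_ne_zero.2 (mem_ws_X (hP0 (hFP h9))).2
    rw [h8, hFc, h6, hc5]
  have hFY : F ∩ (BB c w).erase y = ∅ := by
    rw [← Finset.disjoint_iff_inter_eq_empty]
    exact hPY.mono_left hFP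
  have hρ := hmin F (hFP.trans subset_union_left) (by rw [hFY, card_empty]; omega)
    (fun i hi => hPH i (hFP hi)) hFG (by omega)
  rw [hFY, card_empty] at hρ
  have hY3 : (outK (c w) ((BB c w).erase y) H1).card ≤ 3 := by
    omega
  have hcw : s + 1 ≤ Nat.card H1 + (outK (c w) (BB c w) H1).card := coset_w h H1 (by omega)
  have hoe := out_erase (c := c) (w := w) y H1
  have hB4 : (outK (c w) (BB c w) H1).card = 4 := by omega
  have hyo : y ∈ outK (c w) (BB c w) H1 := by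
    by_contra h4
    have h5 : outK (c w) (BB c w) H1 ⊆ outK (c w) ((BB c w).erase y) H1 := by
      intro x hx
      have h6 := mem_outK.1 hx
      refine mem_outK.2 ⟨mem_erase.2 ⟨?_, h6.1⟩, h6.2⟩
      rintro rfl
      exact h4 hx
    have h6 := card_le_card h5
    omega
  obtain ⟨x, hx⟩ : P0.Nonempty := by
    rw [← card_pos]
    omega
  have hxA : x ∈ AA c w := (Finset.mem_filter.1 (hP0 hx)).1
  have hcore := coreA h H1 (by omega) hxA
  have hsub : outK (fun z => c x z) (outK (c w) (BB c w) H1) H1 ⊆ outK (c w) (BB c w) H1 :=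
    outK_sub _ _ _
  have heq : outK (fun z => c x z) (outK (c w) (BB c w) H1) H1 = outK (c w) (BB c w) H1 :=
    eq_of_subset_of_card_le hsub (by omega)
  have hyx : c x y ∉ H1 := by
    have h4 : y ∈ outK (fun z => c x z) (outK (c w) (BB c w) H1) H1 := by
      rw [heq]; exact hyo
    exact (mem_outK.1 h4).2
  apply hyx
  have h4 := hPH x hx
  rw [dlt_X (hP0 hx)] at h4
  rw [h.sym]
  simpa using H1.neg_mem h4

end W
end ZS44129
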