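import Pool.Agent.Work.MP_44129c_co.W.AperT

/-!
# MP_44129c_co/W, AperU (size M-L): `m = 3 s` odd, some bad root is not problematic

`s` odd, `s ≥ 5`, `e = |BB| ≤ 2 s - 1`, `|AA| = 4 s - 1 - e ≥ 2 s`, `m - e ≥ s + 1 ≥ 6`.  `P3` = the subgroup of order 3, `Q3` = the subgroup of order `s` (unique: `sub_unique`; `ZMod.` has subgroups of every order dividing `m`, e.g. `AddSubgroup.zmultiples`).
For `y ∈ BB`: `o3 y`, `oQ y` = the numbers of `x ∈ X0 c w y` with `c y x ∉ P3`, resp. `∉ Q3`; `k3 y = #(BB.erase y \ P3)`, `kQ y = #(BB.erase y \ Q3)` (for the colours `c w b`).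
`F3 y : o3 y + k3 y + 2 ≤ s`;  `FQ y : oQ y + kQ y ≤ 1 ∧ c w y ∉ Q3`.
(0) If `y` is bad and neither `F3 y` nor `FQ y` holds, the conclusion holds for `y`: `coset_w` (`#(BB \ P3) ≥ s - 2`) gives `k3 y ≥ s - 3`, so at most 2 elements of `X0` outside `P3` are needed to have `#(P0 \ P3) + k3 y + 2 > s`; at most 2 elements outside `Q3` are needed to
    have `#(P0 \ Q3) + kQ y ≥ 2` (or `c w y ∈ Q3`).  Choose `P0 ⊆ X0` with `m - e ≥ 6` elements containing these (at most 4) elements, and any `J0 ⊆ BB.erase y` with `s - 1` elements (`e - 1 ≥ s - 1`).  By `prob3` the cube is aperiodic.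
(1) If `F3 y` (any `y ∈ BB`): there is `Z ⊆ BB`, `|Z| ≥ s - 2 ≥ 3`, such that all `z ∈ Z`, `x ∈ AA` have `c x z ∉ P3`; so `X0 c w z = AA`, `z` is bad (`|AA| ≥ m - e`) and `o3 z = |AA| ≥ s`: not `F3 z`.  Proof: `k3 y ≥ s - 3`, `#(BB \ P3) ∈ {s - 2, s - 1}` (`≤ k3 y + 1 ≤ s - 1 - o3 y`).
    `#(BB \ P3) = s - 2`: `coreA` for `P3` (`#{z ∈ BB : c w z ∉ P3, c x z ∉ P3} ≥ s - 2`): `Z = BB \ P3`.   `#(BB \ P3) = s - 1`: `k3 y ≥ s - 2`, so `k3 y = s - 2`, `o3 y = 0`: `y ∈ BB \ P3` and `c y x ∈ P3` for all `x ∈ AA`; `coreA`: for every `x ∈ AA` at least `s - 2` of the `s - 1` elements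
    `z ∈ BB \ P3` have `c x z ∉ P3`, and `y` does not: `Z = (BB \ P3).erase y`.
(2) At most one `y ∈ BB` has `FQ y`, and if `FQ y` then there is a bad `y'` with all `c y' x ∉ Q3` (`x ∈ AA`), in particular not `FQ y'`.  Proof: `coreA` for `Q3` (`2 s ≤ m + 1`): for every `x ∈ AA` some `z ∈ BB` has `c w z ∉ Q3`, `c x z ∉ Q3`.  `#(BB \ Q3) = kQ y + 1`.  `kQ y = 0`: `z = y` for all `x`,
    `oQ y = |AA| ≥ 2`: contradiction.  So `kQ y = 1`, `oQ y = 0`, `BB \ Q3 = {y, y'}`, `c y x ∈ Q3` for all `x ∈ AA`, so `z = y'` for all `x ∈ AA`: `X0 c w y' = AA`, bad, `oQ y' = |AA|`.  If also `FQ y2`, `y2 ≠ y`: `y2 ∈ BB \ Q3`, so `y2 = y'`: contradiction.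
(3) Suppose the conclusion fails.  By (0) every bad `y` has `F3 y` or `FQ y`.  If `F3 y` for some bad `y`: by (1) three bad `z` with not `F3 z`, so `FQ z` for three `z`: contradiction to (2).  Otherwise take a bad `y` (`exists_bad`): `FQ y`, and `y'` of (2) is bad, not `FQ y'`, so `F3 y'`:
    contradiction.
PROOF of `aper3_after`.  Units are not in `P3`, `Q3` (proper subgroups: `g • unit` generates everything), so `#(BB.erase y \ H) ≥ s - 1` for every proper subgroup `H`; both alternatives of `prob3` are impossible (`s - 1 + 2 > s`, `s - 1 > 1`).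
-/

set_option autoImplicit false

namespace ZS44129
namespace W

open Finset E

variable {V : Type} [Fintype V] [DecidableEq V] {m : ℕ} {c : V → V → ZMod m} {s : ℕ} {w : V}

private theorem au_mA {c : V → V → ZMod m} {w x : V} : x ∈ AA c w ↔ x ≠ w ∧ c w x = 0 := by
  unfold AA
  rw [Finset.mem_filter, Finset.mem_erase]
  exact ⟨fun h => ⟨h.1.1, h.2⟩, fun h => ⟨⟨h.1, Finset.mem_univ x⟩, h.2⟩⟩

private theorem au_mB {c : V → V → ZMod m} {w x : V} : x ∈ BB c w ↔ x ≠ w ∧ c w x ≠ 0 := by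
  unfold BB
  rw [Finset.mem_filter, Finset.mem_erase]
  exact ⟨fun h => ⟨h.1.1, h.2⟩, fun h => ⟨⟨h.1, Finset.mem_univ x⟩, h.2⟩⟩

private theorem au_mX {c : V → V → ZMod m} {w y x : V} :
    x ∈ X0 c w y ↔ x ∈ AA c w ∧ c y x ≠ 0 := by
  unfold X0
  rw [Finset.mem_filter]

private theorem au_dlt {c : V → V → ZMod m} {w y x : V} (hx : x ∈ AA c w) (K : AddSubgroup (ZMod m)) :
    dlt c w y x ∈ K ↔ c y x ∈ K := by
  unfold dlt
  rw [if_pos (au_mA.1 hx).2]
  exact neg_mem_iff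

/-- a vertex of `BB` all of whose colours to `AA` are outside a subgroup. -/
private theorem au_full (h : WS0 c s w) {z : V} (hz : z ∈ BB c w) (K : AddSubgroup (ZMod m))
    (hzx : ∀ x ∈ AA c w, c x z ∉ K) :
    X0 c w z = AA c w ∧ Bad c w z ∧ (outK (dlt c w z) (X0 c w z) K).card = (AA c w).card := by
  have h1 : X0 c w z = AA c w := by
    ext x
    rw [au_mX]
    refine ⟨fun h2 => h2.1, fun h2 => ⟨h2, ?_⟩⟩
    intro h3
    apply hzx x h2
    rw [h.sym, h3]
    exact K.zero_mem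
  have hc := cardAB h
  have hs4 := h.s4
  refine ⟨h1, ⟨hz, by rw [h1]; omega⟩, ?_⟩
  rw [h1]
  congr 1
  ext x
  rw [mem_outK]
  refine ⟨fun h2 => h2.1, fun h2 => ⟨h2, ?_⟩⟩
  rw [au_dlt h2, h.sym]
  exact hzx x h2

/-- no colours outside at `y`. -/
private theorem au_none {y : V} (K : AddSubgroup (ZMod m))
    (h0 : (outK (dlt c w y) (X0 c w y) K).card = 0) : ∀ x ∈ AA c w, c y x ∈ K := by
  intro x hx
  by_contra h1
  have h2 : x ∈ outK (dlt c w y) (X0 c w y) K := by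
    rw [mem_outK]
    refine ⟨au_mX.2 ⟨hx, ?_⟩, ?_⟩
    · intro h3
      apply h1
      rw [h3]
      exact K.zero_mem
    · rw [au_dlt hx]
      exact h1
  rw [Finset.card_eq_zero] at h0
  rw [h0] at h2
  exact absurd h2 (Finset.notMem_empty x)

private theorem au_erase_card {y : V} (hy : y ∈ BB c w) (K : AddSubgroup (ZMod m)) :
    ((outK (c w) ((BB c w).erase y) K).card ≤ (outK (c w) (BB c w) K).card) ∧
    ((outK (c w) (BB c w) K).card ≤ (outK (c w) ((BB c w).erase y) K).card + 1) ∧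
    (c w y ∉ K → (outK (c w) (BB c w) K).card = (outK (c w) ((BB c w).erase y) K).card + 1) ∧
    (c w y ∈ K → (outK (c w) (BB c w) K).card = (outK (c w) ((BB c w).erase y) K).card) := by
  have h1 : c w y ∉ K → (outK (c w) (BB c w) K).card =
      (outK (c w) ((BB c w).erase y) K).card + 1 := by
    intro hyK
    have h2 : outK (c w) (BB c w) K = insert y (outK (c w) ((BB c w).erase y) K) := by
      ext b
      rw [Finset.mem_insert, mem_outK, mem_outK, Finset.mem_erase]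
      constructor
      · rintro ⟨h3, h4⟩
        by_cases h5 : b = y
        · exact Or.inl h5
        · exact Or.inr ⟨⟨h5, h3⟩, h4⟩
      · rintro (h3 | ⟨⟨_, h3⟩, h4⟩)
        · rw [h3]
          exact ⟨hy, hyK⟩
        · exact ⟨h3, h4⟩
    rw [h2, Finset.card_insert_of_notMem]
    intro h3
    exact (Finset.mem_erase.1 (mem_outK.1 h3).1).1 rfl
  have h2 : c w y ∈ K → (outK (c w) (BB c w) K).card =
      (outK (c w) ((BB c w).erase y) K).card := by
    intro hyK
    congr 1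
    ext b
    rw [mem_outK, mem_outK, Finset.mem_erase]
    constructor
    · rintro ⟨h3, h4⟩
      refine ⟨⟨?_, h3⟩, h4⟩
      rintro rfl
      exact h4 hyK
    · rintro ⟨⟨_, h3⟩, h4⟩
      exact ⟨h3, h4⟩
  by_cases h3 : c w y ∈ K
  · have h4 := h2 h3
    exact ⟨by omega, by omega, h1, h2⟩
  · have h4 := h1 h3
    exact ⟨by omega, by omega, h1, h2⟩

private theorem au_P (m k : ℕ) [NeZero m] (hk : k ∣ m) :
    ∃ P : AddSubgroup (ZMod m), Nat.card P = k := by
  refine ⟨(nsmulAddMonoidHom k : ZMod m →+ ZMod m).ker, ?_⟩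
  rw [IsAddCyclic.card_nsmulAddMonoidHom_ker, Nat.card_zmod]
  exact Nat.gcd_eq_right hk

/-- step (0). -/
private theorem au_zero [NeZero m] (h : WS0 c s w) (hodd : ¬ 2 ∣ m) (hm : m = 3 * s)
    {P3 Q3 : AddSubgroup (ZMod m)} (hP3 : Nat.card P3 = 3) (hQ3 : Nat.card Q3 = s) {y : V}
    (hbad : Bad c w y)
    (hF : s < (outK (dlt c w y) (X0 c w y) P3).card +
      (outK (c w) ((BB c w).erase y) P3).card + 2)
    (hQ : ¬ ((outK (dlt c w y) (X0 c w y) Q3).card +
      (outK (c w) ((BB c w).erase y) Q3).card ≤ 1 ∧ c w y ∉ Q3)) :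
    ∃ J0 P0 : Finset V, J0 ⊆ (BB c w).erase y ∧ J0.card + 1 = s ∧ P0 ⊆ X0 c w y ∧
      P0.card + (BB c w).card = m ∧ Aper (cube (dlt c w y) (J0 ∪ P0)) := by
  classical
  obtain ⟨hy, hX⟩ := hbad
  have hs4 := h.s4
  have he1 := h.e1
  have he2 := h.e2
  have hcY := Finset.card_erase_add_one hy
  have hcw := coset_w h P3 (by rw [hP3]; omega)
  rw [hP3] at hcw
  have her := (au_erase_card hy P3).2.1
  have hk3 : s ≤ (outK (c w) ((BB c w).erase y) P3).card + 3 := by omega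
  obtain ⟨S3, hS3, hS3c⟩ := Finset.exists_subset_card_eq
    (Nat.min_le_left (outK (dlt c w y) (X0 c w y) P3).card 2)
  obtain ⟨SQ, hSQ, hSQc⟩ := Finset.exists_subset_card_eq
    (Nat.min_le_left (outK (dlt c w y) (X0 c w y) Q3).card 2)
  have hSX : S3 ∪ SQ ⊆ X0 c w y :=
    Finset.union_subset (hS3.trans (outK_sub _ _ _)) (hSQ.trans (outK_sub _ _ _))
  have hSc : (S3 ∪ SQ).card ≤ m - (BB c w).card := by
    have h1 := Finset.card_union_le S3 SQ
    omega
  obtain ⟨P0, hSP, hPX, hPc⟩ := Finset.exists_subsuperset_card_eq hSX hSc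
    (show m - (BB c w).card ≤ (X0 c w y).card by omega)
  obtain ⟨J0, hJ0, hJ0c⟩ := Finset.exists_subset_card_eq
    (show s - 1 ≤ ((BB c w).erase y).card by omega)
  refine ⟨J0, P0, hJ0, by omega, hPX, by omega, ?_⟩
  by_contra hper
  have hsub : ∀ K : AddSubgroup (ZMod m), ∀ S ⊆ outK (dlt c w y) (X0 c w y) K, S ⊆ P0 →
      S.card ≤ (outK (dlt c w y) P0 K).card := by
    intro K S hS hSP0
    refine Finset.card_le_card fun x hx => mem_outK.2 ⟨hSP0 hx, (mem_outK.1 (hS hx)).2⟩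
  have h3 := hsub P3 S3 hS3 (Finset.subset_union_left.trans hSP)
  have hq := hsub Q3 SQ hSQ (Finset.subset_union_right.trans hSP)
  rcases prob3 h hodd hm hy J0 P0 hJ0 (by omega) hPX (by omega) (by omega) hper with
    ⟨H, hH, h4⟩ | ⟨H, hH, h4, h5⟩
  · have hHP : H = P3 := sub_unique H P3 (by rw [hH, hP3])
    subst hHP
    omega
  · have hHQ : H = Q3 := sub_unique H Q3 (by rw [hH, hQ3])
    subst hHQ
    apply hQ
    refine ⟨?_, h5⟩
    omega

theorem exists_aper3 [NeZero m] (h : WS c s w) (hodd : ¬ 2 ∣ m) (hm : m = 3 * s) :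
    ∃ y, Bad c w y ∧ ∃ J0 P0 : Finset V, J0 ⊆ (BB c w).erase y ∧ J0.card + 1 = s ∧ P0 ⊆ X0 c w y ∧
      P0.card + (BB c w).card = m ∧ Aper (cube (dlt c w y) (J0 ∪ P0)) := by
  classical
  obtain ⟨P3, hP3⟩ := au_P m 3 ⟨s, hm⟩
  obtain ⟨Q3, hQ3⟩ := au_P m s ⟨3, by rw [hm, mul_comm]⟩
  by_contra hcon
  have hs4 := h.s4
  have he1 := h.e1
  have he2 := h.e2
  have hcAB := cardAB h.toWS0
  have hodds : ¬ 2 ∣ s := fun h1 => hodd (hm ▸ Dvd.dvd.mul_left h1 3)
  have hne : (AA c w).Nonempty := by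
    rw [← Finset.card_pos]
    omega
  obtain ⟨x0, hx0⟩ := hne
  have hz0 : ∀ y, Bad c w y →
      (outK (dlt c w y) (X0 c w y) P3).card + (outK (c w) ((BB c w).erase y) P3).card + 2 ≤ s ∨
      ((outK (dlt c w y) (X0 c w y) Q3).card + (outK (c w) ((BB c w).erase y) Q3).card ≤ 1 ∧
        c w y ∉ Q3) := by
    intro y hy
    by_contra h1
    rw [not_or, not_le] at h1
    obtain ⟨J0, P0, h2⟩ := au_zero h.toWS0 hodd hm hP3 hQ3 hy h1.1 h1.2
    exact hcon ⟨y, hy, J0, P0, h2⟩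
  -- (2)
  have hcoreQ : ∀ x ∈ AA c w, ∃ z, z ∈ BB c w ∧ c w z ∉ Q3 ∧ c x z ∉ Q3 := by
    intro x hx
    have h1 := coreA h.toWS0 Q3 (by rw [hQ3]; omega) hx
    rw [hQ3] at h1
    have h2 : 0 < (outK (fun z => c x z) (outK (c w) (BB c w) Q3) Q3).card := by omega
    obtain ⟨z, hz⟩ := Finset.card_pos.1 h2
    have h3 := mem_outK.1 hz
    have h4 := mem_outK.1 h3.1
    exact ⟨z, h4.1, h4.2, h3.2⟩
  have hFQ : ∀ y ∈ BB c w, ((outK (dlt c w y) (X0 c w y) Q3).card +
      (outK (c w) ((BB c w).erase y) Q3).card ≤ 1 ∧ c w y ∉ Q3) →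
      ∃ y', y' ≠ y ∧ y' ∈ BB c w ∧ (∀ x ∈ AA c w, c x y' ∉ Q3) ∧
        ∀ b ∈ BB c w, c w b ∉ Q3 → b = y ∨ b = y' := by
    rintro y hy ⟨h1, h2⟩
    have h3 := (au_erase_card hy Q3).2.2.1 h2
    have hyO : y ∈ outK (c w) (BB c w) Q3 := mem_outK.2 ⟨hy, h2⟩
    by_cases hk0 : (outK (c w) ((BB c w).erase y) Q3).card = 0
    · exfalso
      rw [hk0, zero_add] at h3
      obtain ⟨b, hb⟩ := Finset.card_eq_one.1 h3
      rw [hb, Finset.mem_singleton] at hyO
      subst hyO
      have h4 : ∀ x ∈ AA c w, c x y ∉ Q3 := by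
        intro x hx
        obtain ⟨z, hz1, hz2, hz3⟩ := hcoreQ x hx
        have h5 : z ∈ outK (c w) (BB c w) Q3 := mem_outK.2 ⟨hz1, hz2⟩
        rw [hb, Finset.mem_singleton] at h5
        rw [← h5]
        exact hz3
      have h5 := (au_full h.toWS0 hy Q3 h4).2.2
      omega
    · have hk1 : (outK (c w) ((BB c w).erase y) Q3).card = 1 := by omega
      have ho0 : (outK (dlt c w y) (X0 c w y) Q3).card = 0 := by omega
      obtain ⟨y', hy'⟩ := Finset.card_eq_one.1 hk1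
      have hy'm : y' ∈ outK (c w) ((BB c w).erase y) Q3 := by
        rw [hy']
        exact Finset.mem_singleton_self y'
      have h4 := mem_outK.1 hy'm
      have h5 := Finset.mem_erase.1 h4.1
      have hall : ∀ b ∈ BB c w, c w b ∉ Q3 → b = y ∨ b = y' := by
        intro b hb hbQ
        by_cases hby : b = y
        · exact Or.inl hby
        · right
          have h6 : b ∈ outK (c w) ((BB c w).erase y) Q3 :=
            mem_outK.2 ⟨Finset.mem_erase.2 ⟨hby, hb⟩, hbQ⟩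
          rw [hy', Finset.mem_singleton] at h6
          exact h6
      refine ⟨y', h5.1, h5.2, ?_, hall⟩
      intro x hx
      obtain ⟨z, hz1, hz2, hz3⟩ := hcoreQ x hx
      rcases hall z hz1 hz2 with h6 | h6
      · exfalso
        apply hz3
        rw [h6, h.sym]
        exact au_none Q3 ho0 x hx
      · rw [← h6]
        exact hz3
  have hnotQ : ∀ z ∈ BB c w, (∀ x ∈ AA c w, c x z ∉ Q3) →
      ¬ ((outK (dlt c w z) (X0 c w z) Q3).card + (outK (c w) ((BB c w).erase z) Q3).card ≤ 1 ∧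
        c w z ∉ Q3) := by
    rintro z hz h1 ⟨h2, _⟩
    have h3 := (au_full h.toWS0 hz Q3 h1).2.2
    omega
  have huniq : ∀ y1 ∈ BB c w, ∀ y2 ∈ BB c w,
      ((outK (dlt c w y1) (X0 c w y1) Q3).card + (outK (c w) ((BB c w).erase y1) Q3).card ≤ 1 ∧
        c w y1 ∉ Q3) →
      ((outK (dlt c w y2) (X0 c w y2) Q3).card + (outK (c w) ((BB c w).erase y2) Q3).card ≤ 1 ∧
        c w y2 ∉ Q3) → y2 = y1 := by
    intro y1 hy1 y2 hy2 h1 h2
    obtain ⟨y', _, h4, h5, h6⟩ := hFQ y1 hy1 h1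
    rcases h6 y2 hy2 h2.2 with h7 | h7
    · exact h7
    · exfalso
      rw [h7] at h2
      exact hnotQ y' h4 h5 h2
  -- (1)
  have hF3 : ∀ y ∈ BB c w, ¬ ((outK (dlt c w y) (X0 c w y) P3).card +
      (outK (c w) ((BB c w).erase y) P3).card + 2 ≤ s) := by
    intro y hy h1
    have h2 := au_erase_card hy P3
    have h3 := coset_w h.toWS0 P3 (by rw [hP3]; omega)
    rw [hP3] at h3
    have hZ : ∃ Z : Finset V, s ≤ Z.card + 2 ∧ Z ⊆ BB c w ∧ ∀ z ∈ Z, ∀ x ∈ AA c w, c x z ∉ P3 := by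
      by_cases h4 : (outK (c w) (BB c w) P3).card + 2 = s
      · refine ⟨outK (c w) (BB c w) P3, by omega, outK_sub _ _ _, ?_⟩
        intro z hz x hx
        have h5 := coreA h.toWS0 P3 (by rw [hP3]; omega) hx
        rw [hP3] at h5
        have h6 : outK (fun z => c x z) (outK (c w) (BB c w) P3) P3 = outK (c w) (BB c w) P3 :=
          Finset.eq_of_subset_of_card_le (outK_sub _ _ _) (by omega)
        rw [← h6] at hz
        exact (mem_outK.1 hz).2
      · have hyP : c w y ∉ P3 := by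
          intro h5
          have h6 := h2.2.2.2 h5
          omega
        have h7 := h2.2.2.1 hyP
        have ho0 : (outK (dlt c w y) (X0 c w y) P3).card = 0 := by omega
        have hyO : y ∈ outK (c w) (BB c w) P3 := mem_outK.2 ⟨hy, hyP⟩
        have hce := Finset.card_erase_add_one hyO
        refine ⟨(outK (c w) (BB c w) P3).erase y, by omega,
          (Finset.erase_subset _ _).trans (outK_sub _ _ _), ?_⟩
        intro z hz x hx
        have h5 := coreA h.toWS0 P3 (by rw [hP3]; omega) hx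
        rw [hP3] at h5
        have h8 : outK (fun z => c x z) (outK (c w) (BB c w) P3) P3 ⊆
            (outK (c w) (BB c w) P3).erase y := by
          intro b hb
          have h9 := mem_outK.1 hb
          refine Finset.mem_erase.2 ⟨?_, h9.1⟩
          rintro rfl
          apply h9.2
          show c x b ∈ P3
          rw [h.sym]
          exact au_none P3 ho0 x hx
        have h6 : outK (fun z => c x z) (outK (c w) (BB c w) P3) P3 =
            (outK (c w) (BB c w) P3).erase y :=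
          Finset.eq_of_subset_of_card_le h8 (by omega)
        rw [← h6] at hz
        exact (mem_outK.1 hz).2
    obtain ⟨Z, hZc, hZB, hZx⟩ := hZ
    have hZ3 : 1 < Z.card := by omega
    obtain ⟨z1, hz1, z2, hz2, hz12⟩ := Finset.one_lt_card.1 hZ3
    have hQz : ∀ z ∈ Z, ((outK (dlt c w z) (X0 c w z) Q3).card +
        (outK (c w) ((BB c w).erase z) Q3).card ≤ 1 ∧ c w z ∉ Q3) := by
      intro z hz
      obtain ⟨h5, h6, h7⟩ := au_full h.toWS0 (hZB hz) P3 (hZx z hz)
      rcases hz0 z h6 with h8 | h8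
      · exfalso
        omega
      · exact h8
    exact hz12 (huniq z2 (hZB hz2) z1 (hZB hz1) (hQz z2 hz2) (hQz z1 hz1))
  obtain ⟨y, hy⟩ := exists_bad h
  rcases hz0 y hy with h1 | h1
  · exact hF3 y hy.1 h1
  · obtain ⟨y', _, h4, h5, _⟩ := hFQ y hy.1 h1
    obtain ⟨_, h6, _⟩ := au_full h.toWS0 h4 Q3 h5
    rcases hz0 y' h6 with h8 | h8
    · exact hF3 y' h4 h8
    · exact hnotQ y' h4 h5 h8

/-- after one lift (at least `s` elements of `BB` are units) every root can be lifted. -/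
theorem aper3_after [NeZero m] (h : WS0 c s w) (hodd : ¬ 2 ∣ m) (hm : m = 3 * s)
    (hu : s ≤ ((BB c w).filter (fun b => IsUnit (c w b))).card) {y : V} (hy : y ∈ BB c w)
    (J0 P0 : Finset V) (hJ0 : J0 ⊆ (BB c w).erase y) (hJ0c : J0.card + 1 = s) (hP0 : P0 ⊆ X0 c w y)
    (hP0c : P0.card + (BB c w).card ≤ m) (h2 : m + 3 ≤ 2 * (P0.card + s)) :
    Aper (cube (dlt c w y) (J0 ∪ P0)) := by
  classical
  by_contra hper
  have hs4 := h.s4
  have key : ∀ H : AddSubgroup (ZMod m), H ≠ ⊤ →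
      s ≤ (outK (c w) ((BB c w).erase y) H).card + 1 := by
    intro H hH
    have h1 : (BB c w).filter (fun b => IsUnit (c w b)) ⊆ outK (c w) (BB c w) H := by
      intro b hb
      obtain ⟨h2, h3⟩ := Finset.mem_filter.1 hb
      refine mem_outK.2 ⟨h2, ?_⟩
      intro h4
      apply hH
      rw [eq_top_iff]
      rintro x -
      obtain ⟨u, hu⟩ := h3
      have h5 : x = (x * ((u⁻¹ : (ZMod m)ˣ) : ZMod m)).val • c w b := by
        rw [nsmul_eq_mul, ZMod.natCast_zmod_val, ← hu, mul_assoc, Units.inv_mul, mul_one]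
      rw [h5]
      exact H.nsmul_mem h4 _
    have h2 := Finset.card_le_card h1
    have h3 := (au_erase_card hy H).2.1
    omega
  have htop : ∀ H : AddSubgroup (ZMod m), Nat.card H < m → H ≠ ⊤ := by
    rintro H hH rfl
    rw [AddSubgroup.card_top, Nat.card_zmod] at hH
    exact lt_irrefl _ hH
  rcases prob3 h hodd hm hy J0 P0 hJ0 hJ0c hP0 hP0c h2 hper with ⟨H, hH, h4⟩ | ⟨H, hH, h4, _⟩
  · have h5 := key H (htop H (by omega))
    omega
  · have h5 := key H (htop H (by omega))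
    omega

end W
end ZS44129
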