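import Pool.Agent.Work.MP_44129c_co.W.Struct
import Pool.Agent.Work.MP_44129c_co.FR.GF2

/-!
# MP_44129c_co/W, Star (size M-L): the whole star of `w` is lifted

`v = vv c w y z0 n`: `0` on `AA`, `n` on `Y = BB.erase y`, `z0` at `y`.  `p = |Pp|`, `q = |Qn|`, `p + q = e - 1`, `σ = ∑_Y n = p + EE - NN`.
PROOFS.  `sum_min`, `sum_max` (from `gap` with `P = ∅`): `J` = all `b ∈ Y` with `n b ≥ 2` and further ones, `s - 1` elements (there are at most `EE ≤ s - 2` with `n ≥ 2`, at least `s` with `n = 1`): `∑_J n = s - 1 + EE`,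
so `z0 + σ - (s - 1) - EE ≥ 1`.  `J = Qn` (`q ≤ NN ≤ s - 2`): `z0 + σ + NN ≤ m - 1`.
`z0_ne`: `c w y ≠ 0`.
`star_sl`: `cast` clear (`c w x = 0` on `AA`).  `rng`: let `A ⊆ univ.erase w`, `|A| = m`.
 * `y ∈ A`: `J = Y \ A` has `|J| ≤ s - 1` (`|A ∩ Y| ≥ m - 1 - |AA| = e - s`), `∑_A v = z0 + ∑_{Y \ J} n`: `gap` with `P = ∅`.
 * `y ∉ A`: `J = Y \ A` has `|J| ≤ s - 2`, `∑_A v = σ - ∑_J n`.  Let `q' = s - 2`, `P = Pp`, `N = Qn ∪ AA` (with the function `v`; `|Pp| ≥ s ≥ q' + 1`, `|N| ≥ |AA| ≥ q' + 1`, `EE + NN ≤ e - s - 1 ≤ q'`):  `gf_a`: every integer `τ` with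
   `- NN ≤ τ ≤ s - 2 + EE` is `∑_Q v` for some `Q ⊆ Pp ∪ Qn ∪ AA`, `|Q| = s - 2`.  Suppose `σ - ∑_J n ≤ 0`.  `∑_J n ≤ s - 2 + EE` (at most `s - 2` elements), so `σ ≤ ∑_J n ≤ s - 2 + EE`, and `σ ≥ - NN` (`p + EE - NN ≥ - NN`): for `τ = σ` there is
   such a `Q`; `A' = (univ.erase w).erase y \ Q` has `n - 1 - (s - 2) = m` elements and `∑_{A'} v = σ - ∑_Q v = 0`: its colour sum is `0`, contradiction to `ZSF` (a star with `m` edges: centre edge `w a`, `a ∈ A'`).  So `σ - ∑_J n ≥ 1`.
   And `σ - ∑_J n ≤ σ + NN = p + EE ≤ (e - 1) + (e - s - 1) ≤ 3 s - 4 ≤ m - 2 ≤ m - 1`.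
-/

set_option autoImplicit false

namespace ZS44129
namespace W

open Finset E FR

variable {V : Type} [Fintype V] [DecidableEq V] {m : ℕ} {c : V → V → ZMod m} {s μ : ℕ} {w y : V} {z0 : ℤ} {n : V → ℤ}

private theorem split_Y (R : RL c s μ w y z0 n) :
    Pp c w y n ∪ Qn c w y n = (BB c w).erase y ∧ Disjoint (Pp c w y n) (Qn c w y n) := by
  have h1 := (n_ne R).1
  refine ⟨?_, ?_⟩
  · ext b
    simp only [Pp, Qn, Finset.mem_union, Finset.mem_filter]
    constructor
    · rintro (h | h) <;> exact h.1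
    · intro hb
      have := h1 b hb
      rcases lt_or_ge (n b) 1 with h | h
      · exact Or.inr ⟨hb, by omega⟩
      · exact Or.inl ⟨hb, h⟩
  · rw [Finset.disjoint_left]
    intro b hb hb'
    have h2 := (Finset.mem_filter.1 hb).2
    have h3 := (Finset.mem_filter.1 hb').2
    omega

private theorem sum_Pp : ∑ b ∈ Pp c w y n, n b = (Pp c w y n).card + EE c w y n := by
  unfold EE
  rw [Finset.sum_sub_distrib, Finset.sum_const, nsmul_eq_mul, mul_one]
  ring

private theorem sum_Qn : ∑ b ∈ Qn c w y n, n b = - NN c w y n := by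
  unfold NN
  rw [Finset.sum_neg_distrib, neg_neg]

private theorem sum_Y (R : RL c s μ w y z0 n) :
    ∑ b ∈ (BB c w).erase y, n b = (Pp c w y n).card + EE c w y n - NN c w y n := by
  rw [← (split_Y R).1, Finset.sum_union (split_Y R).2, sum_Pp, sum_Qn]
  ring

private theorem small_le {J : Finset V} (hJ : J ⊆ (BB c w).erase y) :
    ∑ b ∈ J, n b ≤ J.card + EE c w y n := by
  have h1 : ∑ b ∈ J, n b = J.card + ∑ b ∈ J, (n b - 1) := by
    rw [Finset.sum_sub_distrib, Finset.sum_const, nsmul_eq_mul, mul_one]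
    ring
  have h2 := Finset.sum_filter_add_sum_filter_not J (fun b => 1 ≤ n b) (fun b => n b - 1)
  have h3 : ∑ b ∈ J.filter (fun b => ¬ 1 ≤ n b), (n b - 1) ≤ 0 := Finset.sum_nonpos fun b hb => by
    have := (Finset.mem_filter.1 hb).2
    omega
  have h4 : ∑ b ∈ J.filter (fun b => 1 ≤ n b), (n b - 1) ≤ EE c w y n := by
    unfold EE
    refine Finset.sum_le_sum_of_subset_of_nonneg ?_ ?_
    · unfold Pp
      exact Finset.filter_subset_filter _ hJ
    · intro b hb _
      have := (Finset.mem_filter.1 hb).2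
      omega
  omega

private theorem small_ge {J : Finset V} (hJ : J ⊆ (BB c w).erase y) :
    - NN c w y n ≤ ∑ b ∈ J, n b := by
  have h2 := Finset.sum_filter_add_sum_filter_not J (fun b => n b ≤ -1) (fun b => n b)
  have h3 : 0 ≤ ∑ b ∈ J.filter (fun b => ¬ n b ≤ -1), n b := Finset.sum_nonneg fun b hb => by
    have := (Finset.mem_filter.1 hb).2
    omega
  have h4 : ∑ b ∈ J.filter (fun b => n b ≤ -1), (- n b) ≤ NN c w y n := by
    unfold NN
    refine Finset.sum_le_sum_of_subset_of_nonneg ?_ ?_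
    · unfold Qn
      exact Finset.filter_subset_filter _ hJ
    · intro b hb _
      have := (Finset.mem_filter.1 hb).2
      omega
  rw [Finset.sum_neg_distrib] at h4
  omega

theorem sum_min (h : WS0 c s w) (R : RL c s μ w y z0 n) (P : PosT c s w y n) :
    s ≤ z0 + (Pp c w y n).card - NN c w y n := by
  obtain ⟨f1, f2, f3, f4, f5, -⟩ := posT_facts h R P
  have hexc := P.exc
  have hones := P.ones
  have he2 := h.e2
  have hs4 := h.s4
  set T : Finset V := ((BB c w).erase y).filter (fun b => 2 ≤ n b) with hT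
  have hTP : T ⊆ Pp c w y n := by
    intro b hb
    have h1 := Finset.mem_filter.1 hb
    exact Finset.mem_filter.2 ⟨h1.1, by omega⟩
  have hTE : ∑ b ∈ T, (n b - 1) = EE c w y n := by
    unfold EE
    refine Finset.sum_subset hTP ?_
    intro b hb hb'
    have h1 := Finset.mem_filter.1 hb
    have h2 : ¬ 2 ≤ n b := fun h3 => hb' (Finset.mem_filter.2 ⟨h1.1, h3⟩)
    omega
  have hTc : (T.card : ℤ) ≤ EE c w y n := by
    rw [← hTE]
    have h1 : ∑ _b ∈ T, (1 : ℤ) ≤ ∑ b ∈ T, (n b - 1) := Finset.sum_le_sum fun b hb => by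
      have := (Finset.mem_filter.1 hb).2
      omega
    rwa [Finset.sum_const, nsmul_eq_mul, mul_one] at h1
  obtain ⟨J', hJ', hJc⟩ := Finset.exists_subset_card_eq
    (show s - 1 - T.card ≤ (((BB c w).erase y).filter (fun b => n b = 1)).card by omega)
  have hdis : Disjoint T J' := by
    rw [Finset.disjoint_left]
    intro b hb hb'
    have h1 := (Finset.mem_filter.1 hb).2
    have h2 := (Finset.mem_filter.1 (hJ' hb')).2
    omega
  have hJ : T ∪ J' ⊆ (BB c w).erase y :=
    Finset.union_subset (Finset.filter_subset _ _) (hJ'.trans (Finset.filter_subset _ _))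
  have hcard : (T ∪ J').card = s - 1 := by
    rw [Finset.card_union_of_disjoint hdis, hJc]
    omega
  have hsum : ∑ b ∈ T ∪ J', n b = s - 1 + EE c w y n := by
    rw [Finset.sum_union hdis, ← hTE, Finset.sum_sub_distrib, Finset.sum_const, nsmul_eq_mul,
      mul_one]
    have h1 : ∑ b ∈ J', n b = J'.card := by
      rw [Finset.sum_congr rfl (fun b hb => (Finset.mem_filter.1 (hJ' hb)).2), Finset.sum_const,
        nsmul_eq_mul, mul_one]
    rw [h1, hJc]
    have h2 : ((s - 1 - T.card : ℕ) : ℤ) = s - 1 - T.card := by omega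
    rw [h2]
    ring
  have hgap := (R.gap (T ∪ J') hJ (by omega) ∅ (Finset.empty_subset _)
    (by rw [Finset.card_empty]; exact Nat.zero_le _)).1
  have hsd := Finset.sum_sdiff (f := n) hJ
  rw [Finset.sum_empty] at hgap
  rw [hsum, sum_Y R] at hsd
  omega

theorem sum_max (h : WS0 c s w) (R : RL c s μ w y z0 n) (P : PosT c s w y n) :
    z0 + (Pp c w y n).card + EE c w y n + 1 ≤ m := by
  obtain ⟨f1, f2, f3, f4, f5, -⟩ := posT_facts h R P
  have hexc := P.exc
  have he2 := h.e2
  have hJ : Qn c w y n ⊆ (BB c w).erase y := Finset.filter_subset _ _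
  have hgap := (R.gap (Qn c w y n) hJ (by omega) ∅ (Finset.empty_subset _)
    (by rw [Finset.card_empty]; exact Nat.zero_le _)).2
  have hsd := Finset.sum_sdiff (f := n) hJ
  rw [Finset.sum_empty] at hgap
  rw [sum_Qn, sum_Y R] at hsd
  omega

theorem z0_ne (R : RL c s μ w y z0 n) : z0 ≠ 0 := by
  intro h0
  have h1 := R.h0
  rw [h0, Int.cast_zero] at h1
  exact (Finset.mem_filter.1 R.yB).2 h1.symm

private theorem y_ne (R : RL c s μ w y z0 n) : y ≠ w :=
  (Finset.mem_erase.1 (Finset.mem_filter.1 R.yB).1).1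

private theorem vv_Y {x : V} (hx : x ∈ (BB c w).erase y) : vv c w y z0 n x = n x := by
  have h1 := Finset.mem_erase.1 hx
  have h2 := (Finset.mem_filter.1 h1.2).2
  unfold vv
  rw [if_neg h1.1, if_neg h2]

private theorem vv_AA (R : RL c s μ w y z0 n) {x : V} (hx : x ∈ AA c w) :
    vv c w y z0 n x = 0 := by
  have h1 := (Finset.mem_filter.1 hx).2
  have h2 : x ≠ y := by
    rintro rfl
    exact (Finset.mem_filter.1 R.yB).2 h1
  unfold vv
  rw [if_neg h2, if_pos h1]

omit [Fintype V] in
private theorem vv_y : vv c w y z0 n y = z0 := by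
  unfold vv
  rw [if_pos rfl]

/-- the sum over a set without `w` and `y` -/
private theorem sum_vv (R : RL c s μ w y z0 n) {A : Finset V} (hA : A ⊆ (univ.erase w).erase y) :
    ∑ x ∈ A, vv c w y z0 n x = ∑ x ∈ (BB c w).erase y ∩ A, n x := by
  have h1 : (BB c w).erase y ∩ A ⊆ A := Finset.inter_subset_right
  rw [← Finset.sum_subset (f := vv c w y z0 n) h1]
  · exact Finset.sum_congr rfl fun x hx => vv_Y (Finset.mem_inter.1 hx).1
  · intro x hx hx'
    have h2 := Finset.mem_erase.1 (hA hx)
    by_cases h3 : c w x = 0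
    · exact vv_AA R (Finset.mem_filter.2 ⟨h2.2, h3⟩)
    · exact absurd (Finset.mem_inter.2 ⟨Finset.mem_erase.2 ⟨h2.1,
        Finset.mem_filter.2 ⟨h2.2, h3⟩⟩, hx⟩) hx'

private theorem vv_cast (R : RL c s μ w y z0 n) {x : V} (hx : x ≠ w) :
    ((vv c w y z0 n x : ℤ) : ZMod m) = c w x := by
  by_cases h1 : x = y
  · rw [h1, vv_y]
    exact R.h0
  · by_cases h2 : c w x = 0
    · rw [h2, vv_AA R (Finset.mem_filter.2 ⟨Finset.mem_erase.2 ⟨hx, Finset.mem_univ _⟩, h2⟩),
        Int.cast_zero]
    · have h3 : x ∈ (BB c w).erase y := Finset.mem_erase.2 ⟨h1,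
        Finset.mem_filter.2 ⟨Finset.mem_erase.2 ⟨hx, Finset.mem_univ _⟩, h2⟩⟩
      rw [vv_Y h3]
      exact R.hb x h3

private theorem star_zs (h : WS0 c s w) {A : Finset V} (hA : A ⊆ univ.erase w) (hc : A.card = m) :
    ∑ x ∈ A, c w x ≠ 0 := by
  have hm1 := h.m1
  have hs4 := h.s4
  have hne : A.Nonempty := by
    rw [← Finset.card_pos]
    omega
  obtain ⟨a, ha⟩ := hne
  have h1 := (Finset.mem_erase.1 (hA ha)).1
  have h2 := h.zsf w a (Ne.symm h1) (A.erase a) ∅ (Finset.disjoint_empty_right _)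
    (fun e => (Finset.mem_erase.1 (hA (Finset.mem_of_mem_erase e))).1 rfl)
    (Finset.notMem_erase _ _) (Finset.notMem_empty _) (Finset.notMem_empty _) (by
      have := Finset.card_erase_add_one ha
      rw [Finset.card_empty]
      omega)
  rwa [Finset.sum_empty, add_zero, Finset.add_sum_erase A (fun x => c w x) ha] at h2

theorem star_sl (h : WS0 c s w) (R : RL c s μ w y z0 n) (P : PosT c s w y n) :
    SL c w (vv c w y z0 n) := by
  refine ⟨fun x hx => vv_cast R hx, ?_⟩
  intro A hA hAc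
  have hcU : (univ.erase w).card + 1 = m + s := by
    rw [Finset.card_erase_add_one (Finset.mem_univ w), Finset.card_univ, h.card]
  have hs4 := h.s4
  have hm1 := h.m1
  have he2 := h.e2
  have hyU : y ∈ univ.erase w := Finset.mem_erase.2 ⟨y_ne R, Finset.mem_univ _⟩
  by_cases hyA : y ∈ A
  · have h1 : A.erase y ⊆ (univ.erase w).erase y := Finset.erase_subset_erase _ hA
    have h2 := sum_vv R h1
    have h3 := Finset.add_sum_erase A (vv c w y z0 n) hyA
    rw [vv_y, h2] at h3
    have h4 : (BB c w).erase y ∩ A.erase y = (BB c w).erase y \ ((BB c w).erase y \ A) := by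
      ext b
      simp only [Finset.mem_inter, Finset.mem_erase, Finset.mem_sdiff]
      tauto
    rw [h4] at h3
    have h5 : ((BB c w).erase y \ A).card + 1 ≤ s := by
      have h6 : (BB c w).erase y \ A ⊆ univ.erase w \ A := by
        refine Finset.sdiff_subset_sdiff ?_ subset_rfl
        exact (Finset.erase_subset _ _).trans (Finset.filter_subset _ _)
      have h7 := Finset.card_le_card h6
      rw [Finset.card_sdiff_of_subset hA] at h7
      omega
    have h8 := R.gap ((BB c w).erase y \ A) Finset.sdiff_subset h5 ∅ (Finset.empty_subset _)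
      (by rw [Finset.card_empty]; exact Nat.zero_le _)
    rw [Finset.sum_empty] at h8
    rw [← h3]
    omega
  · obtain ⟨f1, f2, f3, f4, f5, -⟩ := posT_facts h R P
    have hexc := P.exc
    have hAe : A ⊆ (univ.erase w).erase y := by
      intro x hx
      exact Finset.mem_erase.2 ⟨fun e => hyA (e ▸ hx), hA hx⟩
    have hcU2 := Finset.card_erase_add_one hyU
    have h2 := sum_vv R hAe
    have h4 : (BB c w).erase y ∩ A = (BB c w).erase y \ ((BB c w).erase y \ A) := by
      ext b
      simp only [Finset.mem_inter, Finset.mem_sdiff]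
      tauto
    rw [h4] at h2
    have hJ : (BB c w).erase y \ A ⊆ (BB c w).erase y := Finset.sdiff_subset
    have h5 : ((BB c w).erase y \ A).card + 2 ≤ s := by
      have h6 : (BB c w).erase y \ A ⊆ (univ.erase w).erase y \ A := by
        refine Finset.sdiff_subset_sdiff ?_ subset_rfl
        exact Finset.erase_subset_erase _ (Finset.filter_subset _ _)
      have h7 := Finset.card_le_card h6
      rw [Finset.card_sdiff_of_subset hAe] at h7
      omega
    have h6 := Finset.sum_sdiff (f := n) hJ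
    have h7 := small_le (n := n) hJ
    have h8 := small_ge (n := n) hJ
    rw [sum_Y R] at h6
    rw [h2]
    refine ⟨?_, by omega⟩
    by_contra hcon
    -- the sum `σ` is a sum of `s - 2` values
    have hBBc : (AA c w).card + (BB c w).card + 1 = m + s := by
      rw [← hcU, AA, BB, Finset.card_filter_add_card_filter_not]
    have hPQ := (split_Y R).2
    have hPs : Pp c w y n ⊆ (BB c w).erase y := Finset.filter_subset _ _
    have hQs : Qn c w y n ⊆ (BB c w).erase y := Finset.filter_subset _ _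
    have hYA : Disjoint ((BB c w).erase y) (AA c w) := by
      rw [Finset.disjoint_left]
      intro x hx hx'
      exact (Finset.mem_filter.1 (Finset.mem_of_mem_erase hx)).2 (Finset.mem_filter.1 hx').2
    have hPA : Disjoint (Pp c w y n) (AA c w) := hYA.mono_left hPs
    have hQA : Disjoint (Qn c w y n) (AA c w) := hYA.mono_left hQs
    have hS1 : ∑ x ∈ Pp c w y n, (vv c w y z0 n x - 1) = EE c w y n := by
      unfold EE
      exact Finset.sum_congr rfl fun x hx => by rw [vv_Y (hPs hx)]
    have hS2 : ∑ x ∈ Qn c w y n ∪ AA c w, (- vv c w y z0 n x) = NN c w y n := by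
      rw [Finset.sum_union hQA]
      have e1 : ∑ x ∈ AA c w, (- vv c w y z0 n x) = 0 := Finset.sum_eq_zero fun x hx => by
        rw [vv_AA R hx, neg_zero]
      rw [e1, add_zero]
      unfold NN
      exact Finset.sum_congr rfl fun x hx => by rw [vv_Y (hQs hx)]
    have hcN : (AA c w).card ≤ (Qn c w y n ∪ AA c w).card :=
      Finset.card_le_card Finset.subset_union_right
    have hs2 : ((s - 2 : ℕ) : ℤ) = s - 2 := by omega
    obtain ⟨Q, hQ, hQc, hQs'⟩ := gf_a (vv c w y z0 n) (s - 2) (by omega) (Pp c w y n)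
      (Qn c w y n ∪ AA c w) (Finset.disjoint_union_right.2 ⟨hPQ, hPA⟩)
      (fun x hx => by
        rw [vv_Y (hPs hx)]
        exact (Finset.mem_filter.1 hx).2)
      (fun x hx => by
        rcases Finset.mem_union.1 hx with hx | hx
        · rw [vv_Y (hQs hx)]
          have := (Finset.mem_filter.1 hx).2
          omega
        · rw [vv_AA R hx])
      (by omega) (by omega) (by rw [hS1, hS2, hs2]; omega)
      (∑ b ∈ (BB c w).erase y, n b) (by rw [hS2, sum_Y R]; omega)
      (by rw [hS1, hs2, sum_Y R]; omega)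
    have hQU : Q ⊆ (univ.erase w).erase y := by
      intro x hx
      have h9 := hQ hx
      rw [Finset.mem_union, Finset.mem_union] at h9
      rcases h9 with h9 | h9 | h9
      · exact Finset.erase_subset_erase _ (Finset.filter_subset _ _) (hPs h9)
      · exact Finset.erase_subset_erase _ (Finset.filter_subset _ _) (hQs h9)
      · refine Finset.mem_erase.2 ⟨?_, (Finset.mem_filter.1 h9).1⟩
        rintro rfl
        exact (Finset.mem_filter.1 R.yB).2 (Finset.mem_filter.1 h9).2
    have hA' : (univ.erase w).erase y \ Q ⊆ univ.erase w :=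
      Finset.sdiff_subset.trans (Finset.erase_subset _ _)
    have hA'c : ((univ.erase w).erase y \ Q).card = m := by
      rw [Finset.card_sdiff_of_subset hQU]
      omega
    apply star_zs h hA' hA'c
    have hv1 := Finset.sum_sdiff (f := vv c w y z0 n) hQU
    have hv2 := sum_vv R (subset_rfl (a := (univ.erase w).erase y))
    have hv3 : (BB c w).erase y ∩ (univ.erase w).erase y = (BB c w).erase y :=
      Finset.inter_eq_left.2 (Finset.erase_subset_erase _ (Finset.filter_subset _ _))
    rw [hv3] at hv2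
    rw [hQs', hv2] at hv1
    have hv4 : ∑ x ∈ (univ.erase w).erase y \ Q, vv c w y z0 n x = 0 := by omega
    have hv5 : ∑ x ∈ (univ.erase w).erase y \ Q, c w x =
        ((∑ x ∈ (univ.erase w).erase y \ Q, vv c w y z0 n x : ℤ) : ZMod m) := by
      rw [Int.cast_sum]
      exact Finset.sum_congr rfl fun x hx => (vv_cast R (Finset.mem_erase.1 (hA' hx)).1).symm
    rw [hv5, hv4, Int.cast_zero]

end W
end ZS44129
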