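import Pool.Agent.Work.MP_44129c_co.W.Struct
import Pool.Agent.Work.MP_44129c_co.W.Star

/-!
# MP_44129c_co/W, Pm (size M-L): the number of nonzero colours at a far root

`Y = BB.erase y`, `σ = ∑_Y n = p + EE - NN`, `p = |Pp|`, `q = |Qn|`, `p + q + 1 = e`, `μ = m - e`.  `X0 = P₊ ∪ P₋` (`n x ≥ 1`, `n x ≤ -1`).
(1) `|P₊| ≤ m - 1 - z0 - p - EE`.  If `|P₊| ≤ m - e`: `gap` with `J = Qn` (`q ≤ NN ≤ s - 2`), `P = P₊`: `z0 + (p + EE) + ∑_{P₊} n ≤ m - 1`.  If `|P₊| ≥ m - e` take `P ⊆ P₊` with `m - e` elements: `z0 + p + EE + (m - e) ≤ m - 1`, i.e. `z0 + EE ≤ q`;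
but `q ≤ s - 2 < z0`: contradiction.
(2) `|P₋| ≤ z0 + p - NN - s`.  Let `J1` be `s - 1` elements of `Pp` with `∑_{J1} n = s - 1 + EE` (all with `n ≥ 2`, the others with `n = 1`), `S0 = z0 + σ - (s - 1) - EE = z0 + p - NN - s + 1`.  CLAIM: `S0 + ∑_{P'} n ≥ 1` for every `P' ⊆ P₋`.
   For `|P'| ≤ m - e`: `gap` with `J1`, `P'`.  If `|P₋| ≤ m - e` this is all.  Otherwise let `P1 ⊆ P₋` be a set of `m - e` elements with the largest `|n|` (every element of `P₋ \ P1` has `|n| ≤` every element of `P1`).  `diff`-type bound: `gap` with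
   (`J = Qn`, `P = ∅`): `z0 + p + EE ≤ m - 1`, and (`J1`, `P1`): `S0 - ∑_{P1} |n| ≥ 1`; subtract: `∑_{P1} |n| ≤ m - 2 - (s - 1) - EE - NN = m - 1 - s - EE - NN < 2 (m - e)` (`2 e ≤ 4 s - 2`, `m + s + 1 > 2 e` : `m + s + 1 - 2 e ≥ 4 s - 1 - 2 e ≥ 1`), so some element
   of `P1` has `|n| = 1`, hence all elements of `P₋ \ P1` have `n = -1`.  Now add the elements of `P₋ \ P1` one by one to `P1`: the sum `S0 + ∑ n` decreases by 1 each time; it is never `≡ 0` mod `m` (`av` with `J1` and this set `P'`: `|J1| = s - 1`, `|P'| + e ≤ |AA| + e = m + s - 1 =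
   m + |J1|`), in particular never `0`, and it starts `≥ 1`, so it stays `≥ 1`.  For `P' = P₋`: `1 ≤ S0 + ∑_{P₋} n ≤ S0 - |P₋|`.
(3) Sum: `|X0| ≤ m - 1 - s - EE - NN`.
-/

set_option autoImplicit false

namespace ZS44129
namespace W

open Finset E

variable {V : Type} [Fintype V] [DecidableEq V] {m : ℕ} {c : V → V → ZMod m} {s μ : ℕ} {w y : V} {z0 : ℤ} {n : V → ℤ}

private theorem Pm_card_le_sum {ι : Type} (S : Finset ι) (f : ι → ℤ) (hf : ∀ x ∈ S, 1 ≤ f x) :
    (S.card : ℤ) ≤ ∑ x ∈ S, f x := by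
  have h1 := Finset.card_nsmul_le_sum S f 1 hf
  simpa using h1

private theorem Pm_sum_le_neg {ι : Type} (S : Finset ι) (f : ι → ℤ) (hf : ∀ x ∈ S, f x ≤ -1) :
    ∑ x ∈ S, f x ≤ - (S.card : ℤ) := by
  have h1 := Pm_card_le_sum S (fun x => - f x) (fun x hx => by have := hf x hx; omega)
  rw [Finset.sum_neg_distrib] at h1
  omega

private theorem Pm_sum_le_neg2 {ι : Type} (S : Finset ι) (f : ι → ℤ) (hf : ∀ x ∈ S, f x ≤ -2) :
    ∑ x ∈ S, f x ≤ - (2 * (S.card : ℤ)) := by
  have h1 := Finset.sum_le_card_nsmul S f (-2) hf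
  simp only [smul_neg, nsmul_eq_mul] at h1
  push_cast at h1
  linarith

private theorem Pm_X0 {w y x : V} (hx : x ∈ X0 c w y) : x ∈ AA c w := (Finset.mem_filter.1 hx).1

private theorem Pm_YQ (R : RL c s μ w y z0 n) :
    (BB c w).erase y \ Qn c w y n = Pp c w y n := by
  ext b
  unfold Pp Qn
  simp only [Finset.mem_sdiff, Finset.mem_filter, not_and, not_le]
  constructor
  · rintro ⟨h1, h2⟩
    have h3 := h2 h1
    have h4 := (n_ne R).1 b h1
    exact ⟨h1, by omega⟩
  · rintro ⟨h1, h2⟩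
    exact ⟨h1, fun _ => by omega⟩

private theorem Pm_sumP : ∑ b ∈ Pp c w y n, n b = (Pp c w y n).card + EE c w y n := by
  unfold EE
  rw [Finset.sum_sub_distrib]
  simp

private theorem Pm_sumQ : ∑ b ∈ Qn c w y n, n b = - NN c w y n := by
  unfold NN
  rw [Finset.sum_neg_distrib]
  ring

private theorem Pm_sumY (R : RL c s μ w y z0 n) :
    ∑ b ∈ (BB c w).erase y, n b = (Pp c w y n).card + EE c w y n - NN c w y n := by
  have h1 : Qn c w y n ⊆ (BB c w).erase y := Finset.filter_subset _ _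
  have h2 := Finset.sum_sdiff h1 (f := n)
  rw [Pm_YQ R, Pm_sumP, Pm_sumQ] at h2
  omega

private theorem Pm_J1 (h : WS0 c s w) (R : RL c s μ w y z0 n) (P : PosT c s w y n) :
    ∃ J ⊆ (BB c w).erase y, J.card + 1 = s ∧
      ∑ b ∈ (BB c w).erase y \ J, n b = (Pp c w y n).card - NN c w y n - s + 1 := by
  obtain ⟨f1, f2, f3, f4, f5, f6⟩ := posT_facts h R P
  have hexc := P.exc
  have he2 := h.e2
  have hs4 := h.s4
  have hT : (Pp c w y n).filter (fun b => 2 ≤ n b) ⊆ Pp c w y n := Finset.filter_subset _ _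
  have hTc : (((Pp c w y n).filter (fun b => 2 ≤ n b)).card : ℤ) ≤ EE c w y n := by
    have h1 := Pm_card_le_sum ((Pp c w y n).filter (fun b => 2 ≤ n b)) (fun b => n b - 1)
      (fun x hx => by have := (Finset.mem_filter.1 hx).2; omega)
    refine h1.trans ?_
    unfold EE
    refine Finset.sum_le_sum_of_subset_of_nonneg hT (fun x hx _ => ?_)
    have := (Finset.mem_filter.1 hx).2
    omega
  obtain ⟨J, hTJ, hJP, hJc⟩ := Finset.exists_subsuperset_card_eq (n := s - 1) hT
    (by omega) (by omega)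
  have hPY : Pp c w y n ⊆ (BB c w).erase y := Finset.filter_subset _ _
  have hs : ∑ b ∈ J, (n b - 1) = EE c w y n := by
    unfold EE
    refine Finset.sum_subset hJP (fun x hx hx2 => ?_)
    have h1 : 1 ≤ n x := (Finset.mem_filter.1 hx).2
    have h2 : ¬ (2 ≤ n x) := fun h3 => hx2 (hTJ (Finset.mem_filter.2 ⟨hx, h3⟩))
    omega
  rw [Finset.sum_sub_distrib] at hs
  simp only [Finset.sum_const, smul_eq_mul, mul_one, nsmul_eq_mul] at hs
  have h3 := Finset.sum_sdiff (hJP.trans hPY) (f := n)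
  rw [Pm_sumY R] at h3
  have h4 : (J.card : ℤ) = s - 1 := by omega
  refine ⟨J, hJP.trans hPY, by omega, ?_⟩
  omega

private theorem Pm_one (h : WS0 c s w) (R : RL c s μ w y z0 n) (hμ : μ + (BB c w).card = m)
    (P : PosT c s w y n) (hz0 : s + 2 ≤ z0) :
    (((X0 c w y).filter (fun x => 1 ≤ n x)).card : ℤ) + 1 + z0 + (Pp c w y n).card + EE c w y n
      ≤ m := by
  obtain ⟨f1, f2, f3, f4, f5, f6⟩ := posT_facts h R P
  have hexc := P.exc
  have he2 := h.e2
  have hs4 := h.s4
  have hQc : (Qn c w y n).card + 1 ≤ s := by omega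
  have hQY : Qn c w y n ⊆ (BB c w).erase y := Finset.filter_subset _ _
  have key : ∀ S ⊆ (X0 c w y).filter (fun x => 1 ≤ n x), S.card ≤ μ →
      z0 + (Pp c w y n).card + EE c w y n + S.card + 1 ≤ m := by
    intro S hS hSc
    have h1 := (R.gap (Qn c w y n) hQY hQc S (hS.trans (Finset.filter_subset _ _)) hSc).2
    rw [Pm_YQ R, Pm_sumP] at h1
    have h2 := Pm_card_le_sum S n (fun x hx => (Finset.mem_filter.1 (hS hx)).2)
    omega
  rcases Nat.lt_or_ge μ ((X0 c w y).filter (fun x => 1 ≤ n x)).card with h1 | h1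
  · obtain ⟨S, hS, hSc⟩ := Finset.exists_subset_card_eq h1.le
    have h2 := key S hS hSc.le
    omega
  · have h2 := key _ (Finset.Subset.refl _) h1
    omega

private theorem Pm_two (h : WS0 c s w) (R : RL c s μ w y z0 n) (hμ : μ + (BB c w).card = m)
    (P : PosT c s w y n) :
    (((X0 c w y).filter (fun x => n x ≤ -1)).card : ℤ) + NN c w y n + s
      ≤ z0 + (Pp c w y n).card := by
  obtain ⟨f1, f2, f3, f4, f5, f6⟩ := posT_facts h R P
  have hexc := P.exc
  have he2 := h.e2
  have hs4 := h.s4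
  have hm1 := h.m1
  have hQc : (Qn c w y n).card + 1 ≤ s := by omega
  have hQY : Qn c w y n ⊆ (BB c w).erase y := Finset.filter_subset _ _
  obtain ⟨J, hJY, hJc, hJs⟩ := Pm_J1 h R P
  have hgap : ∀ S ⊆ (X0 c w y).filter (fun x => n x ≤ -1), S.card ≤ μ →
      1 ≤ z0 + ((Pp c w y n).card - NN c w y n - s + 1) + ∑ x ∈ S, n x := by
    intro S hS hSc
    have h1 := (R.gap J hJY hJc.le S (hS.trans (Finset.filter_subset _ _)) hSc).1
    rw [hJs] at h1
    exact h1
  have hmain : 1 ≤ z0 + ((Pp c w y n).card - NN c w y n - s + 1) +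
      ∑ x ∈ (X0 c w y).filter (fun x => n x ≤ -1), n x := by
    rcases Nat.lt_or_ge μ ((X0 c w y).filter (fun x => n x ≤ -1)).card with h1 | h1
    · have h0 := (R.gap (Qn c w y n) hQY hQc ∅ (Finset.empty_subset _) (by simp)).2
      rw [Pm_YQ R, Pm_sumP, Finset.sum_empty] at h0
      have hT : ((X0 c w y).filter (fun x => n x ≤ -1)).filter (fun x => n x ≤ -2) ⊆
        (X0 c w y).filter (fun x => n x ≤ -1) := Finset.filter_subset _ _
      have hTc : (((X0 c w y).filter (fun x => n x ≤ -1)).filter (fun x => n x ≤ -2)).card ≤ μ := by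
        by_contra h2
        obtain ⟨S, hS, hSc⟩ := Finset.exists_subset_card_eq (not_le.1 h2).le
        have h3 := hgap S (hS.trans hT) hSc.le
        have h4 := Pm_sum_le_neg2 S n (fun x hx => (Finset.mem_filter.1 (hS hx)).2)
        rw [hSc] at h4
        omega
      obtain ⟨P1, hTP, hP1, hP1c⟩ := Finset.exists_subsuperset_card_eq hT hTc h1.le
      have step : ∀ k : ℕ, ∀ S : Finset V, P1 ⊆ S → S ⊆ (X0 c w y).filter (fun x => n x ≤ -1) →
          S.card = μ + k →
          1 ≤ z0 + ((Pp c w y n).card - NN c w y n - s + 1) + ∑ x ∈ S, n x := by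
        intro k
        induction k with
        | zero =>
          intro S _ h3 h4
          exact hgap S h3 (by omega)
        | succ k ih =>
          intro S h2 h3 h4
          obtain ⟨x, hxS, hxP⟩ : ∃ x ∈ S, x ∉ P1 := by
            by_contra h5
            push Not at h5
            have h6 := Finset.card_le_card (show S ⊆ P1 from h5)
            omega
          have h5 : P1 ⊆ S.erase x := fun z hz =>
            Finset.mem_erase.2 ⟨fun h6 => hxP (h6 ▸ hz), h2 hz⟩
          have h6 : (S.erase x).card = μ + k := by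
            have := Finset.card_erase_add_one hxS
            omega
          have h7 := ih (S.erase x) h5 ((Finset.erase_subset _ _).trans h3) h6
          have h8 := Finset.sum_erase_add S n hxS
          have h9 : n x = -1 := by
            have h10 : n x ≤ -1 := (Finset.mem_filter.1 (h3 hxS)).2
            have h11 : ¬ (n x ≤ -2) := fun h12 => hxP (hTP (Finset.mem_filter.2 ⟨h3 hxS, h12⟩))
            omega
          by_contra h10
          have h11 : z0 + ((Pp c w y n).card - NN c w y n - s + 1) + ∑ x ∈ S, n x = 0 := by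
            omega
          have hSX : S ⊆ X0 c w y := h3.trans (Finset.filter_subset _ _)
          have hSA : S ⊆ AA c w := fun x hx => Pm_X0 (hSX hx)
          have hc := cardAB h
          have hSle := Finset.card_le_card hSA
          have h12 := av h R.yB J hJY hJc.le S hSA (by omega)
          apply h12
          have h13 : c w y + ∑ b ∈ (BB c w).erase y \ J, c w b + ∑ x ∈ S, c y x =
              ((z0 + ∑ b ∈ (BB c w).erase y \ J, n b + ∑ x ∈ S, n x : ℤ) : ZMod m) := by
            push_cast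
            rw [R.h0]
            congr 1
            · congr 1
              exact Finset.sum_congr rfl fun b hb => (R.hb b (Finset.mem_sdiff.1 hb).1).symm
            · exact Finset.sum_congr rfl fun x hx => (R.hx x (hSX hx)).symm
          rw [h13, hJs, h11, Int.cast_zero]
      exact step (((X0 c w y).filter (fun x => n x ≤ -1)).card - μ) _ hP1
        (Finset.Subset.refl _) (by omega)
    · exact hgap _ (Finset.Subset.refl _) h1
  have h2 := Pm_sum_le_neg ((X0 c w y).filter (fun x => n x ≤ -1)) n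
    (fun x hx => (Finset.mem_filter.1 hx).2)
  omega

theorem beta_le [NeZero m] (h : WS0 c s w) (R : RL c s μ w y z0 n) (hμ : μ + (BB c w).card = m)
    (P : PosT c s w y n) (hz0 : s + 2 ≤ z0) :
    ((X0 c w y).card : ℤ) + s + 1 + EE c w y n + NN c w y n ≤ m := by
  have h1 := Pm_one h R hμ P hz0
  have h2 := Pm_two h R hμ P
  have h3 := Finset.card_filter_add_card_filter_not (s := X0 c w y) (fun x => 1 ≤ n x)
  have h4 : (X0 c w y).filter (fun x => ¬ (1 ≤ n x)) = (X0 c w y).filter (fun x => n x ≤ -1) := by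
    refine Finset.filter_congr fun x hx => ?_
    have := (n_ne R).2 x hx
    constructor <;> intro h5 <;> omega
  rw [h4] at h3
  omega

end W
end ZS44129
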