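import Pool.Agent.Work.MP_44129c_co.W.Struct
import Pool.Agent.Work.MP_44129c_co.W.Star

/-!
# MP_44129c_co/W, Uniq (size M): only one root has a far value

PROOF.  Both sets `{b ∈ BB.erase y : n b = 1}` and `{b ∈ BB.erase y1 : n1 b = 1}` have at least `s` elements and lie in `BB`, `|BB| ≤ 2 s - 1` (`BB (g * c) w = BB c w`): some `b` is in both, `c w b = 1` and `g * c w b = 1`, so `g = 1`.
Then `y ∈ BB.erase y1`: `(n1 y : ZMod m) = g * c w y = c w y = z0`, so `m ∣ z0 - n1 y`.  But `n1 y ∈ [- NN, 1 + EE] ⊆ [-(s - 2), s - 1]` (`posT_facts`, `exc`, `e2`) and `s + 2 ≤ z0 ≤ m - 1 - p ≤ m - 1 - s` (`sum_max`,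
`p ≥ s`), so `0 < z0 - n1 y < m`.
-/

set_option autoImplicit false

namespace ZS44129
namespace W

open Finset E

variable {V : Type} [Fintype V] [DecidableEq V] {m : ℕ} {c : V → V → ZMod m} {s μ : ℕ} {w y : V} {z0 : ℤ} {n : V → ℤ}

theorem far_unique [NeZero m] (h : WS0 c s w) (R : RL c s μ w y z0 n) (P : PosT c s w y n) (hz0 : s + 2 ≤ z0)
    (g : (ZMod m)ˣ) {μ1 : ℕ} {y1 : V} {z1 : ℤ} {n1 : V → ℤ} (hy1 : y1 ≠ y)
    (R1 : RL (fun a b => (g : ZMod m) * c a b) s μ1 w y1 z1 n1)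
    (P1 : PosT (fun a b => (g : ZMod m) * c a b) s w y1 n1) : False := by
  have hBB : BB (fun a b => (g : ZMod m) * c a b) w = BB c w := by
    unfold BB
    apply Finset.filter_congr
    intro x _
    rw [Ne, Units.mul_right_eq_zero]
  have o1 := P.ones
  have o2 := P1.ones
  rw [hBB] at o2
  have hcap : (((BB c w).erase y).filter (fun b => n b = 1) ∩
      ((BB c w).erase y1).filter (fun b => n1 b = 1)).Nonempty := by
    rw [← Finset.card_pos]
    have h1 := Finset.card_union_add_card_inter (((BB c w).erase y).filter (fun b => n b = 1))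
      (((BB c w).erase y1).filter (fun b => n1 b = 1))
    have h2 : (((BB c w).erase y).filter (fun b => n b = 1) ∪
        ((BB c w).erase y1).filter (fun b => n1 b = 1)).card ≤ (BB c w).card := by
      apply Finset.card_le_card
      apply Finset.union_subset
      · exact (Finset.filter_subset _ _).trans (Finset.erase_subset _ _)
      · exact (Finset.filter_subset _ _).trans (Finset.erase_subset _ _)
    have h3 := h.e2
    omega
  obtain ⟨b, hb⟩ := hcap
  obtain ⟨hb1, hb2⟩ := Finset.mem_inter.1 hb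
  obtain ⟨hb3, hb4⟩ := Finset.mem_filter.1 hb1
  obtain ⟨hb5, hb6⟩ := Finset.mem_filter.1 hb2
  have e1 := R.hb b hb3
  have e2 := R1.hb b (by rw [hBB]; exact hb5)
  rw [hb4] at e1
  rw [hb6, ← e1] at e2
  have hg : (g : ZMod m) = 1 := by
    have e3 : ((1 : ℤ) : ZMod m) = (g : ZMod m) * ((1 : ℤ) : ZMod m) := e2
    rw [Int.cast_one, mul_one] at e3
    exact e3.symm
  have hgc : (fun a b => (g : ZMod m) * c a b) = c := by
    funext a b
    rw [hg, one_mul]
  rw [hgc] at R1 P1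
  have hyB : y ∈ (BB c w).erase y1 := Finset.mem_erase.2 ⟨hy1.symm, R.yB⟩
  have e4 := R1.hb y hyB
  have e5 := R.h0
  have hdvd : (m : ℤ) ∣ z0 - n1 y :=
    (ZMod.intCast_eq_intCast_iff_dvd_sub _ _ _).1 (e4.trans e5.symm)
  obtain ⟨-, -, -, f4, f5, f6⟩ := posT_facts h R1 P1
  obtain ⟨f7, f8⟩ := f6 y hyB
  obtain ⟨-, k2, -, k4, -, -⟩ := posT_facts h R P
  have k6 := sum_max h R P
  have k7 := P1.exc
  have k8 : ((BB c w).card : ℤ) + 1 ≤ 2 * s := by exact_mod_cast h.e2
  have k9 : (s : ℤ) ≤ (Pp c w y n).card := by exact_mod_cast k2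
  have hpos : 0 < z0 - n1 y := by linarith
  have hle := Int.le_of_dvd hpos hdvd
  linarith

end W
end ZS44129
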