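import Pool.Agent.Work.MP_44129c_co.W.Far
import Pool.Agent.Work.MP_44129c_co.W.Uniq
import Pool.Agent.Work.MP_44129c_co.W.Pm
import Pool.Agent.Work.MP_44129c_co.W.Root

/-!
# MP_44129c_co/W, Concl (size M): no large class (if all bad roots can be lifted)

PROOF.  `exists_bad`: a bad root `y`; by `hroot` and `wstruct` (if the second alternative holds replace the unit `g` by `- g` and use `rl_neg`) there are a unit `g`, `z0`, `n` with `RL (g * c) …` and `PosT (g * c) …`.  Everything below is for the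
colouring `g * c` (`ws_scale`: `WS`, the same `AA`, `BB`, `X0`, and `Bad`).  `hole`: `z0 ≥ s + NN + EE + 2 ≥ s + 2`.  No other root `y1` is bad: `hroot` for `y1` gives a unit `g1` for `c`, i.e. the unit `g1 g⁻¹` for `g * c`, again normalised by `wstruct`:
`far_unique`.  So `|X0 y'| ≤ m - e - 1` for all `y' ≠ y` in `BB`, and `|X0 y| ≤ m - 1 - s - EE - NN` (`beta_le`): `sum_beta`:
`s (N - e) ≤ (m - 1 - s - EE - NN) + (e - 1)(m - e - 1)`, `N = m + s - 1 = |AA| + e`.  With `e = 2 s - 1 - i`, `m = 3 s + 1 + t` this says `(1 + i)(1 + i + t) - s t ≤ s - 1 - i - EE - NN` (ring identity), which is `hone` of `FR.no_far`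
(`far` gives `Far` for the star and identifies `ii`, `exL`, `xH`).
 * `m ≤ 3 s` (`t ≤ -1`): impossible: `(1 + i)(1 + i + t) - s t ≥ s + (1 + i) i - …`; for `t = -1`: `(1 + i) i + s ≤ s - 1 - i` is false; for `t = -2, -3`: `(1 + i)(1 + i + t) + 2 s, + 3 s` is even larger (`(1 + i)(i - 1) ≥ -1`, `(1 + i)(i - 2) ≥ -3`… use `s ≥ 4`).
 * `m ≥ 3 s + 1`: `FR.no_far` (`hs5`, `hs6`, `h17`).
-/

set_option autoImplicit false

namespace ZS44129
namespace W

open Finset E FR

variable {V : Type} [Fintype V] [DecidableEq V] {m : ℕ} {c : V → V → ZMod m} {s : ℕ} {w : V}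

private theorem posT_congr {c c' : V → V → ZMod m} {y : V} {n : V → ℤ} (hB : BB c' w = BB c w)
    (P : PosT c s w y n) : PosT c' s w y n := by
  obtain ⟨h1, h2⟩ := P
  refine ⟨?_, ?_⟩
  · rw [hB]; exact h1
  · unfold EE NN Pp Qn at h2 ⊢
    rw [hB]; exact h2

/-- a bad root can be lifted and normalised -/
private theorem norm_root [NeZero m] (h : WS c s w)
    (hroot : ∀ y, Bad c w y → ∃ (g : (ZMod m)ˣ) (z0 : ℤ) (n : V → ℤ),
      RL (fun a b => (g : ZMod m) * c a b) s (m - (BB c w).card) w y z0 n) {y : V} (hy : Bad c w y) :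
    ∃ (g : (ZMod m)ˣ) (z0 : ℤ) (n : V → ℤ),
      RL (fun a b => (g : ZMod m) * c a b) s (m - (BB c w).card) w y z0 n ∧
        PosT (fun a b => (g : ZMod m) * c a b) s w y n := by
  obtain ⟨g, z0, n, R⟩ := hroot y hy
  obtain ⟨h', -, hB, -⟩ := ws_scale h g
  have he2 := h.e2
  have hm1 := h.m1
  have hs4 := h.s4
  rcases wstruct h'.toWS0 R (by rw [hB]; omega) with P | P
  · exact ⟨g, z0, n, R, P⟩
  · have hfun : (fun a b => ((-g : (ZMod m)ˣ) : ZMod m) * c a b) =
        fun a b => - ((g : ZMod m) * c a b) := by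
      funext a b
      rw [Units.val_neg, neg_mul]
    refine ⟨-g, m - z0, fun x => - n x, ?_, ?_⟩
    · rw [hfun]
      exact rl_neg R
    · refine posT_congr ?_ P
      rw [(ws_scale h (-g)).2.2.1, hB]

theorem ws_false [NeZero m] (h : WS c s w) (hn : NumE m s) (h5 : m ≤ 3 * s ∨ 5 ≤ s)
    (h20 : m ≠ 20 ∨ s ≠ 6) (h17 : ¬ (m = 17 ∧ s = 5 ∧ (BB c w).card = 8))
    (hroot : ∀ y, Bad c w y → ∃ (g : (ZMod m)ˣ) (z0 : ℤ) (n : V → ℤ),
      RL (fun a b => (g : ZMod m) * c a b) s (m - (BB c w).card) w y z0 n) : False := by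
  obtain ⟨y, hbad⟩ := exists_bad h
  obtain ⟨g, z0, n, R, P⟩ := norm_root h hroot hbad
  obtain ⟨h', hA, hB, hX⟩ := ws_scale h g
  have hyB : y ∈ BB c w := hbad.1
  have he1 := h.e1
  have he2 := h.e2
  have hm1 := h.m1
  have hm2 := h.m2
  have hs4 := h.s4
  have hem : m - (BB c w).card + (BB c w).card = m := by omega
  have hhole := hole h' hn R P
  obtain ⟨-, -, -, hE0, hN0, -⟩ := posT_facts h'.toWS0 R P
  have hz0 : (s : ℤ) + 2 ≤ z0 := by linarith
  -- the other roots are not bad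
  have hnb : ∀ y1 ∈ (BB c w).erase y, (X0 c w y1).card ≤ m - (BB c w).card - 1 := by
    intro y1 hy1
    obtain ⟨hne, hy1B⟩ := Finset.mem_erase.1 hy1
    by_contra hcon
    obtain ⟨g1, z1, n1, R1, P1⟩ := norm_root h hroot (y := y1) ⟨hy1B, by omega⟩
    have hfun : (fun a b => ((g1 * g⁻¹ : (ZMod m)ˣ) : ZMod m) * ((g : ZMod m) * c a b)) =
        fun a b => (g1 : ZMod m) * c a b := by
      funext a b
      rw [← mul_assoc, ← Units.val_mul, inv_mul_cancel_right]
    refine far_unique h'.toWS0 R P hz0 (g1 * g⁻¹) hne (μ1 := m - (BB c w).card) (z1 := z1) (n1 := n1)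
      ?_ ?_
    · rw [hfun]; exact R1
    · rw [hfun]; exact P1
  have hbeta := beta_le h'.toWS0 R (by rw [hB]; exact hem) P hz0
  rw [hX y] at hbeta
  -- the counting
  have hsum := sum_beta h.toWS0
  rw [← Finset.add_sum_erase _ _ hyB] at hsum
  have hsum2 := Finset.sum_le_card_nsmul _ _ _ hnb
  rw [smul_eq_mul] at hsum2
  have hce := Finset.card_erase_add_one hyB
  have hc := cardAB h.toWS0
  obtain ⟨k, hk⟩ := Nat.exists_eq_add_of_le (show (BB c w).card + 1 ≤ m by omega)
  have hk1 : m - (BB c w).card - 1 = k := by omega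
  rw [hk1] at hsum2
  have hsum3 : s * (AA c w).card ≤ (X0 c w y).card + ((BB c w).erase y).card * k :=
    hsum.trans (Nat.add_le_add_left hsum2 _)
  have hsum4 : (s : ℤ) * (AA c w).card ≤ (X0 c w y).card + ((BB c w).erase y).card * k := by
    exact_mod_cast hsum3
  have hA4 : ((AA c w).card : ℤ) = m + s - 1 - (BB c w).card := by omega
  have hE4 : (((BB c w).erase y).card : ℤ) = (BB c w).card - 1 := by omega
  have hk4 : (k : ℤ) = m - (BB c w).card - 1 := by omega
  rw [hA4, hE4, hk4] at hsum4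
  obtain ⟨F, hexL, hxH, hii⟩ := far h' hn R P
  rw [hB] at hii
  set e : ℤ := ((BB c w).card : ℤ) with he
  set EEv := EE (fun a b => (g : ZMod m) * c a b) w y n with hEE
  set NNv := NN (fun a b => (g : ZMod m) * c a b) w y n with hNN
  have hei : e + 1 ≤ 2 * s := by rw [he]; exact_mod_cast he2
  have hone : (1 + (2 * s - 1 - e)) * ((2 * s - 1 - e) + m - 3 * s) - s * (m - 3 * s - 1) ≤
      s - 1 - (2 * s - 1 - e) - NNv - EEv := by
    nlinarith
  by_cases hcase : m ≤ 3 * s
  · -- impossible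
    have h1 : (m : ℤ) = 3 * s ∨ (m : ℤ) = 3 * s - 1 ∨ (m : ℤ) = 3 * s - 2 := by omega
    have hs4' : (4 : ℤ) ≤ s := by exact_mod_cast hs4
    obtain ⟨i, hi⟩ : ∃ i : ℤ, i = 2 * s - 1 - e := ⟨_, rfl⟩
    have hi0 : 0 ≤ i := by omega
    rw [← hi] at hone
    rcases h1 with h1 | h1 | h1 <;> rw [h1] at hone <;> nlinarith
  · push Not at hcase
    have hs5 : 5 ≤ s := by
      rcases h5 with h6 | h6
      · omega
      · exact h6
    refine no_far h'.sym h'.zsf F hs5 (by omega) (fun h6 h7 => ?_) (fun h6 => ?_) ?_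
    · rcases h20 with h8 | h8
      · exact h8 (by omega)
      · exact h8 h7
    · rw [hii] at h6
      exact h17 ⟨h6.1, by omega, by omega⟩
    · rw [hii, hexL, hxH]
      exact hone

end W
end ZS44129
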