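import Pool.Agent.Work.MP_44129c_co.W.AperO

/-!
# MP_44129c_co/W, AperT (size M-L): `m = 3 s` odd, problematic roots

`Y = BB.erase y`, `δ = dlt c w y`.  `s` is odd, `s ≥ 5`.
PROOF of `prob3`.  `per_data`: `H1`, `F1`, `h1 = |H1|`, `j1 = [⊤ : H1]`, `h1 j1 = 3 s`, both odd and `≥ 3`.
`h1 + j1 ≥ s + 2 + #(P0 \ H1)`: `(h1 - 3)(j1 - 3) = 3 s - 3 (h1 + j1) + 9 ≤ 3 - 3 #(P0 \ H1)`, a product of two even numbers `≥ 0`: it is `0`, so `h1 = 3` or `j1 = 3`, and `#(P0 \ H1) ≤ 1`.
`h1 = 3` (`j1 = s`): `|P0| ≥ (s + 3)/2 ≥ 4` (`h2`), at most one element outside `H1`: at least 3 elements of `P0` in `H1`, two of them fill `H1` (order 3), so `ρ = |F1 ∩ Y| = 0`, and the inequality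
   `#(P0 \ H1) + min (s - 1, #(Y \ H1)) + 2 ≤ s` gives `#(P0 \ H1) + #(Y \ H1) + 2 ≤ s` (the minimum cannot be `s - 1`): first alternative.
`j1 = 3` (`h1 = s`): the inequality says `#(P0 \ H1) + min (s - 1 - ρ, #(Y \ H1)) ≤ 1`.  `ρ ≤ s - 3`: let `C` = the cube of `P0 ∩ H1` (at least `|P0| - 1 ≥ 3` nonzero elements of the group `H1` of odd order): `|C| ≥ 3`; choose `F2 ⊆ P0 ∩ H1` minimal with
   the same cube `C` (`|F2| ≤ |C| - 1`), and add elements of `F1 ∩ Y` one by one, keeping only those which enlarge the cube, until the cube is `H1` (it becomes `H1` since the cube of `(P0 ∩ H1) ∪ (F1 ∩ Y)` is `H1`): at most `s - |C| ≤ s - 3` of them; the family has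
   at most `s - 1` elements; so `ρ ≤ s - 3` by the last property.  Hence `s - 1 - ρ ≥ 2` and `#(P0 \ H1) + #(Y \ H1) ≤ 1`.
   `c w y ∉ H1`: suppose `c w y ∈ H1`.  `coset_w`: `#(BB \ H1) ≥ 1`, so `Y \ H1 = {b1}`.  `no_coset` with `J = {b1}`, `F = F1` (`b1 ∉ F1`; `ρ + 1 + 1 ≤ s`), `H = H1`: `c w y + ∑_{Y \ {b1}} c w b ∈ H1`: contradiction.
-/

set_option autoImplicit false

namespace ZS44129
namespace W

open Finset E

variable {V : Type} [Fintype V] [DecidableEq V] {m : ℕ} {c : V → V → ZMod m} {s : ℕ} {w : V}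

/-- greedy choice of a subfamily with the same cube. -/
private theorem at_greedy {ι G : Type*} [DecidableEq ι] [AddCommGroup G] [DecidableEq G] (d : ι → G)
    (F2 I : Finset ι) (hdis : Disjoint F2 I) :
    ∃ F ⊆ I, cube d (F2 ∪ F) = cube d (F2 ∪ I) ∧
      F.card + (cube d F2).card ≤ (cube d (F2 ∪ I)).card := by
  induction I using Finset.induction_on with
  | empty => exact ⟨∅, subset_rfl, rfl, by simp⟩
  | insert i I hi ih =>
    have hd1 : Disjoint F2 I := hdis.mono_right (Finset.subset_insert i I)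
    have hiF2 : i ∉ F2 := fun h => Finset.disjoint_left.1 hdis h (Finset.mem_insert_self i I)
    obtain ⟨F, hF, hc, hcard⟩ := ih hd1
    have hi1 : i ∉ F2 ∪ I := by
      rw [Finset.mem_union]
      rintro (h | h)
      · exact hiF2 h
      · exact hi h
    have hi2 : i ∉ F2 ∪ F := fun h => hi1 (Finset.union_subset_union_right hF h)
    have e1 : F2 ∪ insert i I = insert i (F2 ∪ I) := Finset.union_insert _ _ _
    have e2 : F2 ∪ insert i F = insert i (F2 ∪ F) := Finset.union_insert _ _ _
    have e3 : cube d (insert i (F2 ∪ F)) = cube d (insert i (F2 ∪ I)) := by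
      rw [cube_insert hi2, cube_insert hi1, hc]
    by_cases h : cube d (insert i (F2 ∪ F)) = cube d (F2 ∪ F)
    · refine ⟨F, hF.trans (Finset.subset_insert i I), ?_, ?_⟩
      · rw [e1, ← e3, h]
      · rw [e1, ← e3, h, hc]
        exact hcard
    · refine ⟨insert i F, Finset.insert_subset_insert i hF, ?_, ?_⟩
      · rw [e1, e2, e3]
      · have hss : cube d (F2 ∪ F) ⊂ cube d (insert i (F2 ∪ F)) :=
          (cube_mono d (Finset.subset_insert i _)).ssubset_of_ne (fun h1 => h h1.symm)
        have h1 := Finset.card_lt_card hss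
        rw [Finset.card_insert_of_notMem (fun h2 => hi (hF h2)), e1, ← e3]
        rw [← hc] at hcard
        omega

private theorem at_mA {c : V → V → ZMod m} {w x : V} : x ∈ AA c w ↔ x ≠ w ∧ c w x = 0 := by
  unfold AA
  rw [Finset.mem_filter, Finset.mem_erase]
  exact ⟨fun h => ⟨h.1.1, h.2⟩, fun h => ⟨⟨h.1, Finset.mem_univ x⟩, h.2⟩⟩

private theorem at_mB {c : V → V → ZMod m} {w x : V} : x ∈ BB c w ↔ x ≠ w ∧ c w x ≠ 0 := by
  unfold BB
  rw [Finset.mem_filter, Finset.mem_erase]
  exact ⟨fun h => ⟨h.1.1, h.2⟩, fun h => ⟨⟨h.1, Finset.mem_univ x⟩, h.2⟩⟩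

private theorem at_mX {c : V → V → ZMod m} {w y x : V} :
    x ∈ X0 c w y ↔ x ∈ AA c w ∧ c y x ≠ 0 := by
  unfold X0
  rw [Finset.mem_filter]

private theorem at_sub_of_three [NeZero m] (hodd : ¬ 2 ∣ m)
    {ι : Type*} [DecidableEq ι] (d : ι → ZMod m) (I : Finset ι) (hI : 2 ≤ I.card)
    (hd : ∀ i ∈ I, d i ≠ 0) : 3 ≤ (cube d I).card := by
  obtain ⟨i, hi, j, hj, hij⟩ := Finset.one_lt_card.1 hI
  have hi0 := hd i hi
  have hj0 := hd j hj
  have h0 : (0 : ZMod m) ∈ cube d I := zero_mem_cube d I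
  have h1 : d i ∈ cube d I := mem_cube.2 ⟨{i}, by simpa using hi, by simp⟩
  have h2 : d j ∈ cube d I := mem_cube.2 ⟨{j}, by simpa using hj, by simp⟩
  have h3 : d i + d j ∈ cube d I := mem_cube.2 ⟨{i, j}, by
    intro x hx
    rcases Finset.mem_insert.1 hx with h | h
    · exact h ▸ hi
    · rw [Finset.mem_singleton] at h
      exact h ▸ hj, by rw [Finset.sum_pair hij]⟩
  by_cases hne : d i = d j
  · have h4 : d i + d j ≠ 0 := by
      intro h5
      rw [← hne] at h5
      have h6 : (2 : ZMod m) * d i = 0 := by rw [two_mul]; exact h5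
      have hc : Nat.Coprime 2 m := (Nat.prime_two.coprime_iff_not_dvd).2 hodd
      have hu : IsUnit ((2 : ℕ) : ZMod m) := (ZMod.isUnit_iff_coprime 2 m).2 hc
      have h7 : (2 : ZMod m) = ((2 : ℕ) : ZMod m) := by norm_num
      rw [h7] at h6
      exact hi0 ((hu.mul_right_eq_zero).1 h6)
    have h8 : d i + d j ≠ d i := by
      intro h5
      exact hj0 (by simpa using h5)
    have h9 : ({0, d i, d i + d j} : Finset (ZMod m)) ⊆ cube d I := by
      intro x hx
      simp only [Finset.mem_insert, Finset.mem_singleton] at hx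
      rcases hx with rfl | rfl | rfl
      · exact h0
      · exact h1
      · exact h3
    have h10 : ({0, d i, d i + d j} : Finset (ZMod m)).card = 3 := by
      rw [Finset.card_eq_three]
      exact ⟨0, d i, d i + d j, hi0.symm, h4.symm, h8.symm, rfl⟩
    rw [← h10]
    exact Finset.card_le_card h9
  · have h9 : ({0, d i, d j} : Finset (ZMod m)) ⊆ cube d I := by
      intro x hx
      simp only [Finset.mem_insert, Finset.mem_singleton] at hx
      rcases hx with rfl | rfl | rfl
      · exact h0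
      · exact h1
      · exact h2
    have h10 : ({0, d i, d j} : Finset (ZMod m)).card = 3 := by
      rw [Finset.card_eq_three]
      exact ⟨0, d i, d j, hi0.symm, hj0.symm, hne, rfl⟩
    rw [← h10]
    exact Finset.card_le_card h9

theorem prob3 [NeZero m] (h : WS0 c s w) (hodd : ¬ 2 ∣ m) (hm : m = 3 * s) {y : V} (hy : y ∈ BB c w)
    (J0 P0 : Finset V) (hJ0 : J0 ⊆ (BB c w).erase y) (hJ0c : J0.card + 1 = s) (hP0 : P0 ⊆ X0 c w y)
    (hP0c : P0.card + (BB c w).card ≤ m) (h2 : m + 3 ≤ 2 * (P0.card + s))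
    (hper : ¬ Aper (cube (dlt c w y) (J0 ∪ P0))) :
    (∃ H : AddSubgroup (ZMod m), Nat.card H = 3 ∧
      (outK (dlt c w y) P0 H).card + (outK (c w) ((BB c w).erase y) H).card + 2 ≤ s) ∨
    (∃ H : AddSubgroup (ZMod m), Nat.card H = s ∧
      (outK (dlt c w y) P0 H).card + (outK (c w) ((BB c w).erase y) H).card ≤ 1 ∧ c w y ∉ H) := by
  classical
  obtain ⟨H1, F1, hc3, hi3, hF1, hρ, hin, hgen, hF1c, hineq, hlast, hsum⟩ :=
    per_data h hodd hy J0 P0 hJ0 hJ0c hP0 hP0c h2 hper
  have hmul := card_mul_index' H1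
  have hs4 := h.s4
  have hdY : ∀ b ∈ (BB c w).erase y, dlt c w y b = c w b := by
    intro b hb
    unfold dlt
    rw [if_neg (at_mB.1 (Finset.mem_of_mem_erase hb)).2]
  have hdX : ∀ x ∈ X0 c w y, dlt c w y x ≠ 0 := by
    intro x hx
    have h1 := at_mX.1 hx
    unfold dlt
    rw [if_pos (at_mA.1 h1.1).2]
    exact neg_ne_zero.2 h1.2
  have hPY : Disjoint P0 ((BB c w).erase y) := by
    rw [Finset.disjoint_left]
    intro x hx hx2
    exact (at_mB.1 (Finset.mem_of_mem_erase hx2)).2 (at_mA.1 (at_mX.1 (hP0 hx)).1).2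
  have hodds : ¬ 2 ∣ s := fun h1 => hodd (hm ▸ Dvd.dvd.mul_left h1 3)
  have ho1 : ¬ 2 ∣ Nat.card H1 := fun h1 => hodd (hmul ▸ Dvd.dvd.mul_right h1 _)
  have ho2 : ¬ 2 ∣ H1.index := fun h1 => hodd (hmul ▸ Dvd.dvd.mul_left h1 _)
  have hinout := inK_add_outK (dlt c w y) P0 H1
  generalize hh1 : Nat.card H1 = h1 at *
  generalize hj1 : H1.index = j1 at *
  generalize ho : (outK (dlt c w y) P0 H1).card = o at *
  generalize hk : (outK (c w) ((BB c w).erase y) H1).card = k at *
  generalize hr : (F1 ∩ (BB c w).erase y).card = r at *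
  have hkey : (h1 = 3 ∨ j1 = 3) ∧ o ≤ 1 := by
    obtain ⟨a, ha⟩ : ∃ a, h1 = 2 * a + 3 := ⟨(h1 - 3) / 2, by omega⟩
    obtain ⟨b, hb⟩ : ∃ b, j1 = 2 * b + 3 := ⟨(j1 - 3) / 2, by omega⟩
    subst ha hb
    have h3 : 4 * (a * b) + 6 * a + 6 * b + 9 = 3 * s := by
      rw [← hm, ← hmul]; ring
    have h4 : a * b = 0 := by omega
    refine ⟨?_, by omega⟩
    rcases Nat.mul_eq_zero.1 h4 with h5 | h5
    · left; omega
    · right; omega
  obtain ⟨hor, ho1'⟩ := hkey
  have hP0c4 : 4 ≤ P0.card := by omega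
  have hIP : 3 ≤ (inK (dlt c w y) P0 H1).card := by omega
  by_cases h13 : h1 = 3
  · left
    have hjs : j1 = s := by
      rw [h13, hm] at hmul
      omega
    refine ⟨H1, by rw [hh1, h13], ?_⟩
    rw [ho, hk]
    obtain ⟨F, hFI, hFc⟩ := Finset.exists_subset_card_eq (show 2 ≤ (inK (dlt c w y) P0 H1).card by omega)
    have hFP : F ⊆ P0 := hFI.trans (inK_sub _ _ _)
    have hFH : ∀ i ∈ F, dlt c w y i ∈ H1 := fun i hi => (mem_inK.1 (hFI hi)).2
    have hgF : Gen (dlt c w y) F ⊥ H1 := by
      refine gen_of_count _ _ _ _ bot_le hFH ?_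
      intro K _ hK
      have hdvd : Nat.card K ∣ Nat.card H1 := AddSubgroup.card_dvd_of_le hK.le
      rw [hh1, h13] at hdvd
      have hK1 : Nat.card K = 1 := by
        rcases (Nat.dvd_prime Nat.prime_three).1 hdvd with h5 | h5
        · exact h5
        · exfalso
          refine hK.ne (AddSubgroup.eq_of_le_of_card_ge hK.le ?_)
          rw [hh1, h13, h5]
      have hKb : K = ⊥ := AddSubgroup.card_eq_one.1 hK1
      have hout : outK (dlt c w y) F K = F := by
        ext i
        rw [mem_outK]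
        refine ⟨fun h5 => h5.1, fun h5 => ⟨h5, ?_⟩⟩
        rw [hKb, AddSubgroup.mem_bot]
        exact hdX i (hP0 (hFP h5))
      rw [hout, hK1, hFc, hh1, h13]
    have hFY : F ∩ (BB c w).erase y = ∅ := by
      rw [← Finset.disjoint_iff_inter_eq_empty]
      exact hPY.mono_left hFP
    have h5 := hlast F (hFP.trans Finset.subset_union_left) (by rw [hFY]; simp; omega) hFH hgF
      (by omega)
    rw [hFY, Finset.card_empty] at h5
    omega
  · right
    have hj3 : j1 = 3 := by
      rcases hor with h5 | h5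
      · exact absurd h5 h13
      · exact h5
    have h1s : h1 = s := by
      rw [hj3, hm] at hmul
      omega
    have hr3 : r + 3 ≤ s := by
      set IP := inK (dlt c w y) P0 H1 with hIPd
      have hC3 := at_sub_of_three hodd (dlt c w y) IP (by omega)
        (fun i hi => hdX i (hP0 (inK_sub _ _ _ hi)))
      obtain ⟨F2, hF2, hcF2, hcardF2⟩ := at_greedy (dlt c w y) ∅ IP (Finset.disjoint_empty_left _)
      rw [Finset.empty_union, Finset.empty_union] at hcF2
      rw [cube_empty, Finset.card_singleton, Finset.empty_union] at hcardF2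
      have hF2P : F2 ⊆ P0 := hF2.trans (inK_sub _ _ _)
      obtain ⟨F3, hF3, hcF3, hcardF3⟩ := at_greedy (dlt c w y) F2 (F1 ∩ (BB c w).erase y)
        (hPY.mono hF2P Finset.inter_subset_right)
      have hF3Y : F3 ⊆ (BB c w).erase y := hF3.trans Finset.inter_subset_right
      have hin2 : ∀ i ∈ F2, dlt c w y i ∈ H1 := fun i hi => (mem_inK.1 (hF2 hi)).2
      have hin3 : ∀ i ∈ F3, dlt c w y i ∈ H1 := fun i hi => hin i (Finset.mem_inter.1 (hF3 hi)).1
      have hin23 : ∀ i ∈ F2 ∪ F3, dlt c w y i ∈ H1 := by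
        intro i hi
        rcases Finset.mem_union.1 hi with h5 | h5
        · exact hin2 i h5
        · exact hin3 i h5
      have hcubeH : (cube (dlt c w y) (F2 ∪ F3)).card ≤ h1 := by
        have h5 : ((cube (dlt c w y) (F2 ∪ F3) : Finset (ZMod m)) : Set (ZMod m)) ⊆ (H1 : Set (ZMod m)) := by
          intro x hx
          obtain ⟨T, hT, rfl⟩ := mem_cube.1 hx
          exact AddSubgroup.sum_mem _ fun i hi => hin23 i (hT hi)
        have h6 := Set.ncard_le_ncard h5 (Set.toFinite _)
        rw [Set.ncard_coe_finset] at h6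
        have h7 : (H1 : Set (ZMod m)).ncard = h1 := by
          rw [← hh1]
          exact (Nat.card_coe_set_eq _).symm
        rw [h7] at h6
        exact h6
      rw [← hcF3] at hcardF3
      have hF1sub : F1 ⊆ IP ∪ (F1 ∩ (BB c w).erase y) := by
        intro i hi
        rcases Finset.mem_union.1 (hF1 hi) with h5 | h5
        · exact Finset.mem_union_left _ (mem_inK.2 ⟨h5, hin i hi⟩)
        · exact Finset.mem_union_right _ (Finset.mem_inter.2 ⟨hi, h5⟩)
      have hcube_union : ∀ A B D : Finset V, Disjoint A D → Disjoint B D →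
          cube (dlt c w y) A = cube (dlt c w y) B →
          cube (dlt c w y) (A ∪ D) = cube (dlt c w y) (B ∪ D) := by
        intro A B D
        induction D using Finset.induction_on with
        | empty =>
          intro _ _ h5
          rw [Finset.union_empty, Finset.union_empty, h5]
        | insert i D hi ih =>
          intro hA hB h5
          have h6 := ih (hA.mono_right (Finset.subset_insert i D))
            (hB.mono_right (Finset.subset_insert i D)) h5
          have hiA : i ∉ A ∪ D := by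
            rw [Finset.mem_union]
            rintro (h7 | h7)
            · exact Finset.disjoint_left.1 hA h7 (Finset.mem_insert_self i D)
            · exact hi h7
          have hiB : i ∉ B ∪ D := by
            rw [Finset.mem_union]
            rintro (h7 | h7)
            · exact Finset.disjoint_left.1 hB h7 (Finset.mem_insert_self i D)
            · exact hi h7
          rw [Finset.union_insert, Finset.union_insert, cube_insert hiA, cube_insert hiB, h6]
      have hsubc : cube (dlt c w y) F1 ⊆ cube (dlt c w y) (F2 ∪ F3) := by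
        rw [hcF3, hcube_union F2 IP _ (hPY.mono hF2P Finset.inter_subset_right)
          (hPY.mono (inK_sub _ _ _) Finset.inter_subset_right) hcF2]
        exact cube_mono _ hF1sub
      have hgF : Gen (dlt c w y) (F2 ∪ F3) ⊥ H1 := by
        intro x hx
        obtain ⟨g, hg, h5⟩ := hgen x hx
        exact ⟨g, hsubc hg, h5⟩
      have hdis23 : Disjoint F2 F3 := hPY.mono hF2P hF3Y
      have hcard23 : (F2 ∪ F3).card = F2.card + F3.card := Finset.card_union_of_disjoint hdis23
      have hFY : (F2 ∪ F3) ∩ (BB c w).erase y = F3 := by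
        rw [Finset.union_inter_distrib_right,
          Finset.disjoint_iff_inter_eq_empty.1 (hPY.mono_left hF2P), Finset.empty_union]
        exact Finset.inter_eq_left.2 hF3Y
      have h5 := hlast (F2 ∪ F3) (Finset.union_subset_union hF2P hF3Y) (by
        rw [hFY, ]
        rw [hcF2] at hcardF3
        omega) hin23 hgF (by
        rw [hcard23]
        rw [hcF2] at hcardF3
        omega)
      rw [hFY] at h5
      rw [hcF2] at hcardF3
      omega
    have hok : o + k ≤ 1 := by omega
    refine ⟨H1, by rw [hh1, h1s], by rw [ho, hk]; exact hok, ?_⟩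
    intro hyH
    have hcw := coset_w h H1 (by rw [hh1]; omega)
    have hBY : outK (c w) (BB c w) H1 = outK (c w) ((BB c w).erase y) H1 := by
      ext b
      rw [mem_outK, mem_outK, Finset.mem_erase]
      constructor
      · rintro ⟨h5, h6⟩
        refine ⟨⟨?_, h5⟩, h6⟩
        rintro rfl
        exact h6 hyH
      · rintro ⟨⟨_, h5⟩, h6⟩
        exact ⟨h5, h6⟩
    rw [hBY, hk, hh1, h1s] at hcw
    have hk1 : k = 1 := by omega
    rw [hk1, Finset.card_eq_one] at hk
    obtain ⟨b1, hb1⟩ := hk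
    have hb1m : b1 ∈ outK (c w) ((BB c w).erase y) H1 := by
      rw [hb1]
      exact Finset.mem_singleton_self b1
    have hb1Y := (mem_outK.1 hb1m).1
    have hb1n := (mem_outK.1 hb1m).2
    refine no_coset h hy P0 hP0 hP0c F1 hF1 {b1} (by simpa using hb1Y) ?_ ?_ H1 hgen ?_
    · rw [Finset.disjoint_singleton_left]
      intro h5
      apply hb1n
      rw [← hdY b1 hb1Y]
      exact hin b1 h5
    · rw [hr, Finset.card_singleton]
      omega
    · refine H1.add_mem hyH (AddSubgroup.sum_mem _ ?_)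
      intro b hb
      obtain ⟨h5, h6⟩ := Finset.mem_sdiff.1 hb
      by_contra h7
      have h8 : b ∈ outK (c w) ((BB c w).erase y) H1 := mem_outK.2 ⟨h5, h7⟩
      rw [hb1] at h8
      exact h6 h8

end W
end ZS44129
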