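import Pool.Agent.Work.MP_44129c_co.W.Defs
import Pool.Agent.Work.MP_44129c_co.G.C1K

/-!
# MP_44129c_co/W, Av (size M): the double stars used, and the counting of the roots

PROOFS.  `cardAB`: `AA` and `BB` partition `univ.erase w`.
`av`: double star with centre edge `w y`, leaves `P` at `y`, leaves at `w`: `(BB.erase y) \ J` and a subset `A'` of `AA \ P` with `m - 1 - (e - 1 - |J|) - |P|` elements (`≥ 0` by `hPc`; `≤ |AA| - |P| = m + s - 1 - e - |P|` because `|J| ≤ s - 1`);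
its colour sum is `c w y + ∑_{(BB.erase y) \ J} c w b + 0 + ∑_P c y x`.
`c1A`: `G.c1_exc` with `K = ⊥`, `u = w`, `r = 0` (its conclusion `P1 < ⊥` is impossible), `G.nb`: the `z ≠ w, x` with `c w z ≠ 0`, `c x z ≠ 0`, i.e. `z ∈ BB` with `c x z ≠ 0` (`|K| = 1`; `2 ≤ m + 1`).
`sum_beta`: `∑_{y ∈ BB} |X0 c w y| = #{(x, y) : x ∈ AA, y ∈ BB, c y x ≠ 0} = ∑_{x ∈ AA} #{y ∈ BB : c x y ≠ 0} ≥ s |AA|` (`sym`).
`exists_bad`: otherwise `|X0| ≤ m - e - 1` for all `y ∈ BB`, `s (n - e) ≤ e (m - e - 1) = e (n - e) - e s` (`n = m + s - 1`), i.e. `s n ≤ e (n - e)`: contradiction to `e3`.  (`m ≥ e + 1` by `e2`, `m1`, `s4`.)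
-/

set_option autoImplicit false

namespace ZS44129
namespace W

open Finset E

variable {V : Type} [Fintype V] [DecidableEq V] {m : ℕ} {c : V → V → ZMod m} {s : ℕ} {w : V}

private theorem Av_mA {c : V → V → ZMod m} {w x : V} : x ∈ AA c w ↔ x ≠ w ∧ c w x = 0 := by
  unfold AA
  rw [Finset.mem_filter, Finset.mem_erase]
  exact ⟨fun h => ⟨h.1.1, h.2⟩, fun h => ⟨⟨h.1, Finset.mem_univ x⟩, h.2⟩⟩

private theorem Av_mB {c : V → V → ZMod m} {w x : V} : x ∈ BB c w ↔ x ≠ w ∧ c w x ≠ 0 := by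
  unfold BB
  rw [Finset.mem_filter, Finset.mem_erase]
  exact ⟨fun h => ⟨h.1.1, h.2⟩, fun h => ⟨⟨h.1, Finset.mem_univ x⟩, h.2⟩⟩

theorem cardAB (h : WS0 c s w) : (AA c w).card + (BB c w).card + 1 = m + s := by
  have h1 := Finset.card_filter_add_card_filter_not (s := univ.erase w) (fun x => c w x = 0)
  have h2 : (univ.erase w).card + 1 = m + s := by
    rw [Finset.card_erase_add_one (Finset.mem_univ w), Finset.card_univ, h.card]
  unfold AA BB
  simp only [ne_eq]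
  omega

theorem av (h : WS0 c s w) {y : V} (hy : y ∈ BB c w) (J : Finset V) (hJ : J ⊆ (BB c w).erase y)
    (hJc : J.card + 1 ≤ s) (P : Finset V) (hP : P ⊆ AA c w)
    (hPc : P.card + (BB c w).card ≤ m + J.card) :
    c w y + ∑ b ∈ (BB c w).erase y \ J, c w b + ∑ x ∈ P, c y x ≠ 0 := by
  have hc := cardAB h
  have c1 := Finset.card_sdiff_add_card_eq_card hJ
  have c2 := Finset.card_erase_add_one hy
  have c3 := Finset.card_sdiff_add_card_eq_card hP
  have hsz : m + J.card - (BB c w).card - P.card ≤ (AA c w \ P).card := by omega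
  obtain ⟨A', hA', hA'c⟩ := Finset.exists_subset_card_eq hsz
  have hA1 : ∀ x ∈ A', x ∈ AA c w ∧ x ∉ P := fun x hx => Finset.mem_sdiff.1 (hA' hx)
  have hB1 : ∀ x ∈ (BB c w).erase y \ J, x ≠ y ∧ x ∈ BB c w := fun x hx =>
    Finset.mem_erase.1 (Finset.mem_sdiff.1 hx).1
  have hAB : ∀ x, x ∈ AA c w → x ∈ BB c w → False := fun x h1 h2 =>
    (Av_mB.1 h2).2 (Av_mA.1 h1).2
  have hyw : w ≠ y := (Av_mB.1 hy).1.symm
  have hdis : Disjoint ((BB c w).erase y \ J) A' := by
    rw [Finset.disjoint_left]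
    intro x h1 h2
    exact hAB x (hA1 x h2).1 (hB1 x h1).2
  have hz := h.zsf w y hyw (((BB c w).erase y \ J) ∪ A') P (by
    rw [Finset.disjoint_left]
    intro x h1 h2
    rcases Finset.mem_union.1 h1 with h3 | h3
    · exact hAB x (hP h2) (hB1 x h3).2
    · exact (hA1 x h3).2 h2) (by
    intro h1
    rcases Finset.mem_union.1 h1 with h3 | h3
    · exact (Av_mB.1 (hB1 w h3).2).1 rfl
    · exact (Av_mA.1 (hA1 w h3).1).1 rfl) (by
    intro h1
    rcases Finset.mem_union.1 h1 with h3 | h3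
    · exact (hB1 y h3).1 rfl
    · exact hAB y (hA1 y h3).1 hy) (fun h1 => (Av_mA.1 (hP h1)).1 rfl)
    (fun h1 => hAB y (hP h1) hy) (by
    rw [Finset.card_union_of_disjoint hdis, hA'c]
    omega)
  rw [Finset.sum_union hdis, Finset.sum_eq_zero (s := A') (fun x hx => (Av_mA.1 (hA1 x hx).1).2),
    add_zero] at hz
  exact hz

theorem c1A [NeZero m] (h : WS0 c s w) {x : V} (hx : x ∈ AA c w) :
    s ≤ ((BB c w).filter (fun z => c x z ≠ 0)).card := by
  classical
  by_contra hcon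
  obtain ⟨hxw, hx0⟩ := Av_mA.1 hx
  have hbot : Nat.card (⊥ : AddSubgroup (ZMod m)) = 1 := AddSubgroup.card_bot
  have hm1 := h.m1
  have hs4 := h.s4
  have hnb : G.nb c w x ⊥ 0 = ((BB c w).filter (fun z => c x z ≠ 0)).card := by
    unfold G.nb
    congr 1
    ext z
    rw [Finset.mem_filter, Finset.mem_filter, G.mem_XX, Av_mB, AddSubgroup.mem_bot,
      AddSubgroup.mem_bot, sub_zero, sub_zero]
    constructor
    · rintro ⟨⟨h1, h2⟩, h3, h4⟩
      exact ⟨⟨h1, h3⟩, h4⟩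
    · rintro ⟨⟨h1, h3⟩, h4⟩
      refine ⟨⟨h1, ?_⟩, h3, h4⟩
      rintro rfl
      exact h3 hx0
  obtain ⟨P1, r1, h1, -⟩ := G.c1_exc c h.zsf h.card ⊥ (by rw [hbot]; omega) w 0 (x := x)
    (G.mem_cls.2 ⟨hxw, by rw [sub_zero, AddSubgroup.mem_bot]; exact hx0⟩) (by
      rw [hbot, hnb]
      omega)
  exact not_lt_bot h1

theorem sum_beta [NeZero m] (h : WS0 c s w) :
    s * (AA c w).card ≤ ∑ y ∈ BB c w, (X0 c w y).card := by
  have h1 : ∑ y ∈ BB c w, (X0 c w y).card =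
      ∑ x ∈ AA c w, ((BB c w).filter (fun z => c x z ≠ 0)).card := by
    unfold X0
    simp only [Finset.card_filter]
    rw [Finset.sum_comm]
    refine Finset.sum_congr rfl fun x _ => Finset.sum_congr rfl fun y _ => ?_
    rw [h.sym y x]
  rw [h1, mul_comm, ← smul_eq_mul]
  exact Finset.card_nsmul_le_sum _ _ _ fun x hx => c1A h hx

theorem exists_bad [NeZero m] (h : WS c s w) : ∃ y, Bad c w y := by
  by_contra hcon
  push Not at hcon
  have h1 : ∀ y ∈ BB c w, (X0 c w y).card ≤ m - (BB c w).card - 1 := by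
    intro y hy
    by_contra h2
    exact hcon y ⟨hy, by omega⟩
  have he1 := h.e1
  have he2 := h.e2
  have he3 := h.e3
  have hm1 := h.m1
  have hm2 := h.m2
  have hs4 := h.s4
  have hc := cardAB h.toWS0
  have h2 := Finset.sum_le_card_nsmul _ _ _ h1
  have h3 := (sum_beta h.toWS0).trans h2
  rw [smul_eq_mul] at h3
  have hlt : (BB c w).card + 1 ≤ m := by omega
  obtain ⟨k, hk⟩ := Nat.exists_eq_add_of_le hlt
  have h4 : m - (BB c w).card - 1 = k := by omega
  rw [h4] at h3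
  have h5 : (AA c w).card = k + s := by omega
  rw [h5] at h3
  have h6 : (m : ℤ) = (BB c w).card + 1 + k := by exact_mod_cast hk
  rw [h6] at he3
  have h7 : (s : ℤ) * (k + s) ≤ (BB c w).card * k := by exact_mod_cast h3
  nlinarith

end W
end ZS44129
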