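import Pool.Agent.Work.MP_44129c_co.W.Star

/-!
# MP_44129c_co/W, Far (size M-L): the root has a far value

`v = vv c w y z0 n`, `p = |Pp|`, `e = |BB|`, `N = |V| - 1 = m + s - 1`.
PROOFS.  `exL_vv`, `exH_vv`: if `z0 ≤ -1`: `HH w v = Pp`, `exH = EE`, `exL = NN - z0`; if `z0 ≥ 1`: `HH w v = insert y Pp`, `exH = EE + (z0 - 1)`, `exL = NN`; `LL` is the rest (`AA`, `Qn`, and `y` if `z0 ≤ -1`).
`contra_E`: if `exL + 2 ≤ s`, `exH + 2 ≤ s` then `goodman_star`: `4 (l (s + exL) + h' (s + exH)) ≤ 4 l h' + exL exH` with `h' = |HH| ≤ e`, `l = |LL| = N - h'`.  `exL exH ≤ 4 l exL` (`exH ≤ s ≤ l`), so `s N ≤ l h'`.  But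
`h' (N - h') ≤ e (N - e)` (`(e - h')(N - e - h') ≥ 0`: `h' = e`, or `h' ≤ e - 1 ≤ 2 s - 2 ≤ N - e`) `< s N` (`e3`): contradiction.
`z0_pos`: `z0 ≠ 0`.  If `z0 ≤ -1`: `exL = NN - z0 ≤ p - s ≤ e - 1 - s ≤ s - 2` (`sum_min`), `exH = EE ≤ s - 2`: `contra_E`.
`far`: `z0 ≥ 1`; `bb = z0 - 1`, `xH w y v = EE` (`Hp w y v = Pp`), `exL = NN`, `NG w v = Qn`, `|HH| = p + 1`.  If `(z0 - 1) + EE ≤ s - 2`: `contra_E`.  So `big`: `s ≤ (z0 - 1) + EE + 1`.  `e1`: `p + 1 + q + 1 = e + 1 ≤ 2 s`.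
`ex`: `NN + EE + s + 1 ≤ e = p + 1 + q`.
`hole`: `nohole`: not `z0 - 1 ≤ s + NN + EE`.
-/

set_option autoImplicit false

namespace ZS44129
namespace W

open Finset E FR

variable {V : Type} [Fintype V] [DecidableEq V] {m : ℕ} {c : V → V → ZMod m} {s μ : ℕ} {w y : V} {z0 : ℤ} {n : V → ℤ}

omit [Fintype V] in
private theorem vv_y : vv c w y z0 n y = z0 := by
  unfold vv
  rw [if_pos rfl]

private theorem mBB {x : V} : x ∈ BB c w ↔ x ≠ w ∧ c w x ≠ 0 := by
  simp [BB]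

private theorem vv_b {b : V} (hb : b ∈ (BB c w).erase y) : vv c w y z0 n b = n b := by
  obtain ⟨h1, h2⟩ := Finset.mem_erase.1 hb
  unfold vv
  rw [if_neg h1, if_neg (mBB.1 h2).2]

private theorem vv_a {x : V} (hy : y ∈ BB c w) (hxw : x ≠ w) (hx : x ∉ BB c w) :
    vv c w y z0 n x = 0 := by
  have h1 : x ≠ y := by
    rintro rfl
    exact hx hy
  have h2 : c w x = 0 := by
    by_contra h3
    exact hx (mBB.2 ⟨hxw, h3⟩)
  unfold vv
  rw [if_neg h1, if_pos h2]

private theorem mLL' {u : V} {v : V → ℤ} {x : V} : x ∈ LL u v ↔ x ≠ u ∧ v x ≤ 0 := by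
  simp [LL]

private theorem mHH' {u : V} {v : V → ℤ} {x : V} : x ∈ HH u v ↔ x ≠ u ∧ 1 ≤ v x := by
  simp [HH]

private theorem mPp {x : V} : x ∈ Pp c w y n ↔ x ∈ (BB c w).erase y ∧ 1 ≤ n x := by
  simp [Pp]

private theorem mQn {x : V} : x ∈ Qn c w y n ↔ x ∈ (BB c w).erase y ∧ n x ≤ -1 := by
  simp [Qn]

private theorem HH_neg (hy : y ∈ BB c w) (hz : z0 ≤ -1) :
    HH w (vv c w y z0 n) = Pp c w y n := by
  ext x
  rw [mHH', mPp]
  constructor
  · rintro ⟨h1, h2⟩
    by_cases hxB : x ∈ BB c w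
    · by_cases hxy : x = y
      · subst hxy
        rw [vv_y] at h2
        omega
      · have hm : x ∈ (BB c w).erase y := Finset.mem_erase.2 ⟨hxy, hxB⟩
        rw [vv_b hm] at h2
        exact ⟨hm, h2⟩
    · rw [vv_a hy h1 hxB] at h2
      omega
  · rintro ⟨h1, h2⟩
    rw [vv_b h1]
    exact ⟨(mBB.1 (Finset.mem_of_mem_erase h1)).1, h2⟩

private theorem HH_pos (hy : y ∈ BB c w) (hz : 1 ≤ z0) :
    HH w (vv c w y z0 n) = insert y (Pp c w y n) := by
  ext x
  rw [mHH', Finset.mem_insert, mPp]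
  constructor
  · rintro ⟨h1, h2⟩
    by_cases hxB : x ∈ BB c w
    · by_cases hxy : x = y
      · exact Or.inl hxy
      · have hm : x ∈ (BB c w).erase y := Finset.mem_erase.2 ⟨hxy, hxB⟩
        rw [vv_b hm] at h2
        exact Or.inr ⟨hm, h2⟩
    · rw [vv_a hy h1 hxB] at h2
      omega
  · rintro (rfl | ⟨h1, h2⟩)
    · rw [vv_y]
      exact ⟨(mBB.1 hy).1, hz⟩
    · rw [vv_b h1]
      exact ⟨(mBB.1 (Finset.mem_of_mem_erase h1)).1, h2⟩

private theorem sumP : ∑ x ∈ Pp c w y n, (vv c w y z0 n x - 1) = EE c w y n := by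
  unfold EE
  refine Finset.sum_congr rfl fun x hx => ?_
  rw [vv_b (mPp.1 hx).1]

private theorem y_nPp : y ∉ Pp c w y n := by
  intro h
  exact Finset.notMem_erase y _ (mPp.1 h).1

private theorem y_nQn : y ∉ Qn c w y n := by
  intro h
  exact Finset.notMem_erase y _ (mQn.1 h).1

private theorem sumQ : ∑ x ∈ Qn c w y n, (- vv c w y z0 n x) = NN c w y n := by
  unfold NN
  refine Finset.sum_congr rfl fun x hx => ?_
  rw [vv_b (mQn.1 hx).1]

private theorem Q_sub : Qn c w y n ⊆ LL w (vv c w y z0 n) := by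
  intro x hx
  obtain ⟨h1, h2⟩ := mQn.1 hx
  rw [mLL', vv_b h1]
  exact ⟨(mBB.1 (Finset.mem_of_mem_erase h1)).1, by omega⟩

private theorem LL_rest (hy : y ∈ BB c w) (hn : ∀ b ∈ (BB c w).erase y, n b ≠ 0) {x : V}
    (hx : x ∈ LL w (vv c w y z0 n)) (hxy : x ≠ y) (hxQ : x ∉ Qn c w y n) :
    vv c w y z0 n x = 0 := by
  obtain ⟨h1, h2⟩ := mLL'.1 hx
  by_cases hxB : x ∈ BB c w
  · exfalso
    have hm : x ∈ (BB c w).erase y := Finset.mem_erase.2 ⟨hxy, hxB⟩
    rw [vv_b hm] at h2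
    have h3 := hn x hm
    exact hxQ (mQn.2 ⟨hm, by omega⟩)
  · exact vv_a hy h1 hxB

private theorem exL_neg' (hy : y ∈ BB c w) (hn : ∀ b ∈ (BB c w).erase y, n b ≠ 0)
    (hz : z0 ≤ -1) : exL w (vv c w y z0 n) = NN c w y n - z0 := by
  have hsub : insert y (Qn c w y n) ⊆ LL w (vv c w y z0 n) := by
    intro x hx
    rcases Finset.mem_insert.1 hx with rfl | h1
    · rw [mLL', vv_y]
      exact ⟨(mBB.1 hy).1, by omega⟩
    · exact Q_sub h1
  unfold exL
  rw [← Finset.sum_subset hsub, Finset.sum_insert y_nQn, vv_y, sumQ]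
  · ring
  · intro x hx hx2
    rw [Finset.mem_insert, not_or] at hx2
    rw [LL_rest hy hn hx hx2.1 hx2.2, neg_zero]

private theorem exL_pos' (hy : y ∈ BB c w) (hn : ∀ b ∈ (BB c w).erase y, n b ≠ 0)
    (hz : 1 ≤ z0) : exL w (vv c w y z0 n) = NN c w y n := by
  unfold exL
  rw [← Finset.sum_subset (Q_sub (z0 := z0)), sumQ]
  intro x hx hx2
  have hxy : x ≠ y := by
    rintro rfl
    have h1 := (mLL'.1 hx).2
    rw [vv_y] at h1
    omega
  rw [LL_rest hy hn hx hxy hx2, neg_zero]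

private theorem exH_neg' (hy : y ∈ BB c w) (hz : z0 ≤ -1) :
    exH w (vv c w y z0 n) = EE c w y n := by
  unfold exH
  rw [HH_neg hy hz, sumP]

private theorem exH_pos' (hy : y ∈ BB c w) (hz : 1 ≤ z0) :
    exH w (vv c w y z0 n) = EE c w y n + (z0 - 1) := by
  unfold exH
  rw [HH_pos hy hz, Finset.sum_insert y_nPp, sumP, vv_y]
  ring

private theorem HH_sub (hy : y ∈ BB c w) : HH w (vv c w y z0 n) ⊆ BB c w := by
  intro x hx
  obtain ⟨h1, h2⟩ := mHH'.1 hx
  by_contra hxB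
  rw [vv_a hy h1 hxB] at h2
  omega

theorem contra_E [NeZero m] (h : WS c s w) (hn : NumE m s) (R : RL c s μ w y z0 n) (P : PosT c s w y n)
    (hL : exL w (vv c w y z0 n) + 2 ≤ s) (hH : exH w (vv c w y z0 n) + 2 ≤ s) : False := by
  have h1 := goodman_star h.sym h.zsf (star_sl h.toWS0 R P) h.card hL hH hn
  have hs4 := h.s4
  have hc := card_LH h.card (by omega) w (vv c w y z0 n)
  have a0 := exL_nonneg w (vv c w y z0 n)
  have b0 := exH_nonneg w (vv c w y z0 n)
  have hle := Finset.card_le_card (HH_sub (z0 := z0) (n := n) R.yB)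
  have e2 := h.e2
  have e3 := h.e3
  have m1 := h.m1
  have hc' : ((LL w (vv c w y z0 n)).card : ℤ) + (HH w (vv c w y z0 n)).card + 1 = m + s := by
    exact_mod_cast hc
  have hle' : ((HH w (vv c w y z0 n)).card : ℤ) ≤ (BB c w).card := by exact_mod_cast hle
  have e2' : ((BB c w).card : ℤ) + 1 ≤ 2 * s := by exact_mod_cast e2
  have m1' : (3 : ℤ) * s ≤ m + 2 := by exact_mod_cast m1
  have hs4' : (4 : ℤ) ≤ s := by exact_mod_cast hs4
  have hne : (HH w (vv c w y z0 n)).card = (BB c w).card ∨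
      ((HH w (vv c w y z0 n)).card : ℤ) + 1 ≤ (BB c w).card := by
    rcases Nat.lt_or_ge (HH w (vv c w y z0 n)).card (BB c w).card with h2 | h2
    · right
      exact_mod_cast h2
    · left
      omega
  have hh0 : (0 : ℤ) ≤ (HH w (vv c w y z0 n)).card := Int.natCast_nonneg _
  generalize ((LL w (vv c w y z0 n)).card : ℤ) = l at *
  generalize (HH w (vv c w y z0 n)).card = hN at *
  generalize (BB c w).card = e at *
  generalize exL w (vv c w y z0 n) = x at *
  generalize exH w (vv c w y z0 n) = z at *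
  have hl : l = m + s - 1 - hN := by linarith
  have hls : (s : ℤ) ≤ l := by linarith
  -- `s N ≤ l h`
  have h2 : x * z ≤ 4 * (l * x) := by
    have h3 : x * z ≤ x * l := mul_le_mul_of_nonneg_left (by linarith) a0
    have h4 : 0 ≤ l * x := mul_nonneg (by linarith) a0
    nlinarith
  have h5 : 0 ≤ (hN : ℤ) * z := mul_nonneg hh0 b0
  have h6 : (s : ℤ) * (m + s - 1) ≤ l * hN := by
    have h7 : (m : ℤ) + s - 1 = l + hN := by linarith
    rw [h7]
    nlinarith
  have h8 : l * hN ≤ e * (m + s - 1 - e) := by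
    rw [hl]
    rcases hne with h9 | h9
    · rw [h9]
      nlinarith
    · have h10 : 0 ≤ ((e : ℤ) - hN) * (m + s - 1 - e - hN) :=
        mul_nonneg (by linarith) (by linarith)
      nlinarith
  linarith

theorem z0_pos [NeZero m] (h : WS c s w) (hn : NumE m s) (R : RL c s μ w y z0 n) (P : PosT c s w y n) :
    1 ≤ z0 := by
  by_contra hcon
  have hz : z0 ≤ -1 := by
    have := z0_ne R
    omega
  have hnn := (n_ne R).1
  have h1 := sum_min h.toWS0 R P
  obtain ⟨f1, f2, f3, f4, f5, -⟩ := posT_facts h.toWS0 R P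
  have hexc := P.exc
  have e2 := h.e2
  have e2' : ((BB c w).card : ℤ) + 1 ≤ 2 * s := by exact_mod_cast e2
  have f1' : ((Pp c w y n).card : ℤ) + (Qn c w y n).card + 1 = (BB c w).card := by exact_mod_cast f1
  have q0 : (0 : ℤ) ≤ (Qn c w y n).card := Int.natCast_nonneg _
  refine contra_E h hn R P ?_ ?_
  · rw [exL_neg' R.yB hnn hz]
    linarith
  · rw [exH_neg' R.yB hz]
    linarith

theorem far [NeZero m] (h : WS c s w) (hn : NumE m s) (R : RL c s μ w y z0 n) (P : PosT c s w y n) :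
    Far c s w y (vv c w y z0 n) ∧ exL w (vv c w y z0 n) = NN c w y n ∧
      xH w y (vv c w y z0 n) = EE c w y n ∧ ii s w (vv c w y z0 n) = 2 * s - 1 - (BB c w).card := by
  have hz := z0_pos h hn R P
  have hnn := (n_ne R).1
  obtain ⟨f1, f2, f3, f4, f5, -⟩ := posT_facts h.toWS0 R P
  have hexc := P.exc
  have e2 := h.e2
  have e2' : ((BB c w).card : ℤ) + 1 ≤ 2 * s := by exact_mod_cast e2
  have f1' : ((Pp c w y n).card : ℤ) + (Qn c w y n).card + 1 = (BB c w).card := by exact_mod_cast f1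
  have hL := exL_pos' R.yB hnn hz
  have hH := exH_pos' (n := n) R.yB hz
  have hHH := HH_pos (n := n) R.yB hz
  have hcard : (HH w (vv c w y z0 n)).card = (Pp c w y n).card + 1 := by
    rw [hHH, Finset.card_insert_of_notMem y_nPp]
  have hHp : Hp w y (vv c w y z0 n) = Pp c w y n := by
    unfold Hp
    rw [hHH, Finset.erase_insert y_nPp]
  have hxH : xH w y (vv c w y z0 n) = EE c w y n := by
    unfold xH
    rw [hHp, sumP]
  have hNG : NG w (vv c w y z0 n) = Qn c w y n := by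
    ext x
    unfold NG
    rw [Finset.mem_filter]
    constructor
    · rintro ⟨h1, h2⟩
      by_contra hxQ
      have hxy : x ≠ y := by
        rintro rfl
        rw [vv_y] at h2
        omega
      rw [LL_rest R.yB hnn h1 hxy hxQ] at h2
      omega
    · intro h1
      refine ⟨Q_sub h1, ?_⟩
      obtain ⟨h2, h3⟩ := mQn.1 h1
      rw [vv_b h2]
      omega
  have hbb : bb y (vv c w y z0 n) = z0 - 1 := by
    unfold bb
    rw [vv_y]
  refine ⟨⟨star_sl h.toWS0 R P, h.card, h.s4, h.m1, h.m2, ?_, ?_, ?_, ?_⟩, hL, hxH, ?_⟩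
  · rw [hHH]
    exact Finset.mem_insert_self _ _
  · rw [hcard, hNG]
    omega
  · rw [hL, hxH, hcard, hNG]
    push_cast
    linarith
  · rw [hbb, hxH]
    by_contra hcon
    refine contra_E h hn R P ?_ ?_
    · rw [hL]
      linarith
    · rw [hH]
      linarith
  · unfold ii
    rw [hcard, hNG]
    push_cast
    linarith

theorem hole [NeZero m] (h : WS c s w) (hn : NumE m s) (R : RL c s μ w y z0 n) (P : PosT c s w y n) :
    s + NN c w y n + EE c w y n + 2 ≤ z0 := by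
  obtain ⟨F, h1, h2, -⟩ := far h hn R P
  by_contra hcon
  refine nohole h.sym h.zsf F ?_
  have hbb : bb y (vv c w y z0 n) = z0 - 1 := by
    unfold bb
    rw [vv_y]
  rw [hbb, h1, h2]
  linarith

end W
end ZS44129
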